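import Mathlib

set_option autoImplicit false

open MeasureTheory Metric Set Filter Topology
open scoped ENNReal NNReal ContDiff

namespace Pool.Agent.H805R2

/-- `ℂⁿ` with its Euclidean norm -/
abbrev Cn (n : ℕ) : Type := EuclideanSpace ℂ (Fin n)

/-- the `j`-th unit vector of `ℂⁿ` -/
noncomputable def bas {n : ℕ} (j : Fin n) : Cn n := EuclideanSpace.single j (1 : ℂ)

/-- the Wirtinger derivative `∂/∂z_j` -/
noncomputable def wd {n : ℕ} (j : Fin n) (f : Cn n → ℂ) (z : Cn n) : ℂ :=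
  (fderiv ℝ f z (bas j) - Complex.I * fderiv ℝ f z (Complex.I • bas j)) / 2

/-- the Wirtinger derivative `∂/∂z̄_k` -/
noncomputable def wdb {n : ℕ} (k : Fin n) (f : Cn n → ℂ) (z : Cn n) : ℂ :=
  (fderiv ℝ f z (bas k) + Complex.I * fderiv ℝ f z (Complex.I • bas k)) / 2

/-- the complex Hessian `(∂²u/∂z_j∂z̄_k)` of a real function -/
noncomputable def hess {n : ℕ} (u : Cn n → ℝ) (z : Cn n) : Matrix (Fin n) (Fin n) ℂ :=
  Matrix.of fun j k => wd j (wdb k fun w => (u w : ℂ)) z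

/-- the real Hessian as a bilinear form -/
noncomputable def D2 {n : ℕ} (u : Cn n → ℝ) (z ξ ζ : Cn n) : ℝ := fderiv ℝ (fderiv ℝ u) z ξ ζ

/-- the Levi form -/
noncomputable def levi {n : ℕ} (u : Cn n → ℝ) (z ζ : Cn n) : ℝ :=
  (D2 u z ζ ζ + D2 u z (Complex.I • ζ) (Complex.I • ζ)) / 4

variable {n : ℕ}

/-- the sesquilinear form associated with a real bilinear form -/
noncomputable def sesq (B : Cn n →L[ℝ] Cn n →L[ℝ] ℝ) (ξ ζ : Cn n) : ℂ :=
  ((B ξ ζ + B (Complex.I • ξ) (Complex.I • ζ) : ℝ) +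
    Complex.I * ((B ξ (Complex.I • ζ) - B (Complex.I • ξ) ζ : ℝ) : ℂ)) / 4

lemma sesq_add_left (B : Cn n →L[ℝ] Cn n →L[ℝ] ℝ) (ξ ξ' ζ : Cn n) :
    sesq B (ξ + ξ') ζ = sesq B ξ ζ + sesq B ξ' ζ := by
  simp only [sesq, smul_add, map_add, add_apply]
  push_cast; ring

lemma sesq_add_right (B : Cn n →L[ℝ] Cn n →L[ℝ] ℝ) (ξ ζ ζ' : Cn n) :
    sesq B ξ (ζ + ζ') = sesq B ξ ζ + sesq B ξ ζ' := by
  simp only [sesq, smul_add, map_add]
  push_cast; ring

lemma smul_dec (c : ℂ) (ζ : Cn n) : c • ζ = c.re • ζ + c.im • (Complex.I • ζ) := by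
  conv_lhs => rw [← Complex.re_add_im c, add_smul, mul_smul]
  rw [← Complex.coe_smul, ← Complex.coe_smul]

lemma I_smul_dec (c : ℂ) (ζ : Cn n) : Complex.I • c • ζ = c.re • (Complex.I • ζ) - c.im • ζ := by
  rw [smul_dec c ζ, smul_add, smul_comm Complex.I c.re ζ, smul_comm Complex.I c.im (Complex.I • ζ),
    ← mul_smul Complex.I Complex.I, Complex.I_mul_I, neg_one_smul, smul_neg, sub_eq_add_neg]

lemma sesq_smul_left (B : Cn n →L[ℝ] Cn n →L[ℝ] ℝ) (c : ℂ) (ξ ζ : Cn n) :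
    sesq B (c • ξ) ζ = c * sesq B ξ ζ := by
  simp only [sesq, I_smul_dec]
  rw [smul_dec c ξ]
  simp only [map_add, map_sub, map_smul, add_apply, sub_apply,
    smul_apply, smul_eq_mul]
  push_cast
  conv_rhs => rw [← Complex.re_add_im c]
  linear_combination (-(c.im : ℂ) / 4 * ((B ξ) (Complex.I • ζ) - (B (Complex.I • ξ)) ζ)) * Complex.I_mul_I

lemma sesq_smul_right (B : Cn n →L[ℝ] Cn n →L[ℝ] ℝ) (c : ℂ) (ξ ζ : Cn n) :
    sesq B ξ (c • ζ) = star c * sesq B ξ ζ := by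
  simp only [sesq, I_smul_dec]
  rw [smul_dec c ζ]
  simp only [map_add, map_sub, map_smul, smul_eq_mul]
  push_cast
  have : star c = c.re - c.im * Complex.I := by
    apply Complex.ext <;> simp
  rw [this]
  linear_combination ((c.im : ℂ) / 4 * ((B ξ) (Complex.I • ζ) - (B (Complex.I • ξ)) ζ)) * Complex.I_mul_I

lemma sum_bas (ζ : Cn n) : ζ = ∑ j, ζ j • bas j := by
  ext i
  simp [bas, Pi.single_apply]

lemma sesq_sum (B : Cn n →L[ℝ] Cn n →L[ℝ] ℝ) (ξ ζ : Cn n) :
    sesq B ξ ζ = ∑ j, ∑ k, ξ j * star (ζ k) * sesq B (bas j) (bas k) := by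
  have h1 : ∀ (s : Finset (Fin n)) (f : Fin n → Cn n) (ζ : Cn n),
      sesq B (∑ j ∈ s, f j) ζ = ∑ j ∈ s, sesq B (f j) ζ := by
    intro s f ζ
    classical
    induction s using Finset.induction_on with
    | empty => simp [sesq]
    | insert a s ha ih => rw [Finset.sum_insert ha, Finset.sum_insert ha, sesq_add_left, ih]
  have h2 : ∀ (s : Finset (Fin n)) (f : Fin n → Cn n) (ξ : Cn n),
      sesq B ξ (∑ j ∈ s, f j) = ∑ j ∈ s, sesq B ξ (f j) := by
    intro s f ξ
    classical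
    induction s using Finset.induction_on with
    | empty => simp [sesq]
    | insert a s ha ih => rw [Finset.sum_insert ha, Finset.sum_insert ha, sesq_add_right, ih]
  conv_lhs => rw [sum_bas ξ, sum_bas ζ]
  rw [h1]
  apply Finset.sum_congr rfl
  intro j _
  rw [h2]
  apply Finset.sum_congr rfl
  intro k _
  rw [sesq_smul_left, sesq_smul_right]
  ring

lemma fderiv_ofReal {u : Cn n → ℝ} (z v : Cn n) (hu : DifferentiableAt ℝ u z) :
    fderiv ℝ (fun w => (u w : ℂ)) z v = ((fderiv ℝ u z v : ℝ) : ℂ) := by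
  have h : HasFDerivAt (fun w => (u w : ℂ)) (Complex.ofRealCLM.comp (fderiv ℝ u z)) z :=
    Complex.ofRealCLM.hasFDerivAt.comp z hu.hasFDerivAt
  rw [h.fderiv]
  rfl

/-- the complex Hessian in terms of the real one -/
lemma hess_eq_sesq {u : Cn n → ℝ} (hu : ContDiff ℝ 2 u) (z : Cn n) (j k : Fin n) :
    hess u z j k = sesq (fderiv ℝ (fderiv ℝ u) z) (bas j) (bas k) := by
  have hd : ∀ y, DifferentiableAt ℝ u y := fun y => (hu.differentiable (by norm_num)).differentiableAt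
  have hd2 : ∀ y, DifferentiableAt ℝ (fderiv ℝ u) y := fun y =>
    ((hu.fderiv_right (m := 1) (by norm_num)).differentiable (by norm_num)).differentiableAt
  have h1 : (wdb k fun w => (u w : ℂ)) = fun y => (((fderiv ℝ u y (bas k) : ℝ) : ℂ) +
      Complex.I * ((fderiv ℝ u y (Complex.I • bas k) : ℝ) : ℂ)) / 2 := by
    funext y
    rw [wdb, fderiv_ofReal y _ (hd y), fderiv_ofReal y _ (hd y)]
  have h2 : ∀ v w : Cn n, fderiv ℝ (fun y => (((fderiv ℝ u y (bas k) : ℝ) : ℂ) +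
      Complex.I * ((fderiv ℝ u y (Complex.I • bas k) : ℝ) : ℂ)) / 2) z v =
      (((fderiv ℝ (fderiv ℝ u) z v (bas k) : ℝ) : ℂ) +
        Complex.I * ((fderiv ℝ (fderiv ℝ u) z v (Complex.I • bas k) : ℝ) : ℂ)) / 2 := by
    intro v _
    have e0 : ∀ w : Cn n, HasFDerivAt (fun y => ((fderiv ℝ u y w : ℝ) : ℂ))
        (Complex.ofRealCLM.comp ((ContinuousLinearMap.apply ℝ ℝ w).comp (fderiv ℝ (fderiv ℝ u) z))) z := by
      intro w
      exact Complex.ofRealCLM.hasFDerivAt.comp z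
        ((ContinuousLinearMap.apply ℝ ℝ w).hasFDerivAt.comp z (hd2 z).hasFDerivAt)
    have e1 := ((e0 (bas k)).add ((e0 (Complex.I • bas k)).const_mul Complex.I)).mul_const (2⁻¹ : ℂ)
    simp only [div_eq_mul_inv]
    refine (congrArg (fun L : Cn n →L[ℝ] ℂ => L v) e1.fderiv).trans ?_
    simp [smul_apply]
    ring
  rw [hess, Matrix.of_apply, wd, h1, h2 _ 0, h2 _ 0, sesq]
  push_cast
  linear_combination (-(1/4 : ℂ) * (fderiv ℝ (fderiv ℝ u) z (Complex.I • bas j) (Complex.I • bas k))) *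
    Complex.I_mul_I

/-- the Levi form is the Hermitian form of the complex Hessian -/
lemma levi_eq {u : Cn n → ℝ} (hu : ContDiff ℝ 2 u) (z ζ : Cn n) :
    (levi u z ζ : ℂ) = ∑ j, ∑ k, ζ j * star (ζ k) * hess u z j k := by
  have hs : sesq (fderiv ℝ (fderiv ℝ u) z) ζ ζ = (levi u z ζ : ℂ) := by
    have hsymm : IsSymmSndFDerivAt ℝ u z := hu.contDiffAt.isSymmSndFDerivAt (by simp)
    have := hsymm.eq ζ (Complex.I • ζ)
    rw [sesq, levi, D2, D2, this]
    push_cast
    ring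
  rw [← hs, sesq_sum]
  simp only [hess_eq_sesq hu]

lemma levi_eq_qf {u : Cn n → ℝ} (hu : ContDiff ℝ 2 u) (z ζ : Cn n) :
    (levi u z ζ : ℂ) = star (fun j => star (ζ j)) ⬝ᵥ ((hess u z).mulVec (fun k => star (ζ k))) := by
  rw [levi_eq hu]
  simp only [dotProduct, Matrix.mulVec, Pi.star_apply, star_star, Finset.mul_sum]
  apply Finset.sum_congr rfl
  intro j _
  apply Finset.sum_congr rfl
  intro k _
  ring

lemma hess_isHermitian {u : Cn n → ℝ} (hu : ContDiff ℝ 2 u) (z : Cn n) : (hess u z).IsHermitian := by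
  have hsymm : IsSymmSndFDerivAt ℝ u z := hu.contDiffAt.isSymmSndFDerivAt (by simp)
  ext j k
  rw [Matrix.conjTranspose_apply, hess_eq_sesq hu, hess_eq_sesq hu]
  simp only [sesq]
  rw [hsymm.eq (bas k) (bas j), hsymm.eq (Complex.I • bas k) (Complex.I • bas j),
    hsymm.eq (bas k) (Complex.I • bas j), hsymm.eq (Complex.I • bas k) (bas j)]
  simp only [Complex.star_def, map_div₀, map_add, map_mul, Complex.conj_ofReal, Complex.conj_I]
  push_cast
  simp only [map_ofNat]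
  ring

open scoped ComplexOrder in
/-- positivity of the complex Hessian means positivity of the Levi form -/
lemma hess_posSemidef_iff {u : Cn n → ℝ} (hu : ContDiff ℝ 2 u) (z : Cn n) :
    (hess u z).PosSemidef ↔ ∀ ζ : Cn n, 0 ≤ levi u z ζ := by
  constructor
  · intro h ζ
    have := h.dotProduct_mulVec_nonneg (fun j => star (ζ j))
    rw [← levi_eq_qf hu] at this
    exact_mod_cast this
  · intro h
    refine Matrix.PosSemidef.of_dotProduct_mulVec_nonneg (hess_isHermitian hu z) ?_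
    intro c
    have := levi_eq_qf hu z (WithLp.toLp 2 (fun j => star (c j)))
    simp only [star_star] at this
    have h2 := h (WithLp.toLp 2 (fun j => star (c j)))
    have h3 : (0 : ℂ) ≤ ((levi u z (WithLp.toLp 2 (fun j => star (c j))) : ℝ) : ℂ) := by
      exact_mod_cast h2
    rw [this] at h3
    exact h3

end Pool.Agent.H805R2
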