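import Mathlib

set_option autoImplicit false

open Matrix
open scoped ComplexOrder MatrixOrder Matrix.Norms.L2Operator

namespace Pool.Agent.H805R2.Gram

variable {ι : Type*} [Fintype ι] [DecidableEq ι]

/-- simultaneous diagonalisation -/
lemma simul_diag (G Q : Matrix ι ι ℂ) (hG : G.PosDef) (hQ : Q.IsHermitian) :
    ∃ (C : Matrix ι ι ℂ) (x : ι → ℝ), Cᴴ * G * C = 1 ∧ Cᴴ * Q * C = diagonal (fun i => (x i : ℂ)) := by
  obtain ⟨B, hB⟩ := CStarAlgebra.nonneg_iff_eq_star_mul_self.mp hG.posSemidef.nonneg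
  rw [star_eq_conjTranspose] at hB
  have hdet : IsUnit B.det := by
    have h1 : IsUnit G.det := by
      rw [isUnit_iff_ne_zero]
      exact hG.det_pos.ne'
    rw [hB, det_mul] at h1
    exact isUnit_of_mul_isUnit_right h1
  set D := B⁻¹ with hD
  have hBD : B * D = 1 := mul_nonsing_inv B hdet
  have hDB : Dᴴ * Bᴴ = 1 := by rw [← conjTranspose_mul, hBD, conjTranspose_one]
  have hX : (Dᴴ * Q * D).IsHermitian := by
    rw [IsHermitian, conjTranspose_mul, conjTranspose_mul, conjTranspose_conjTranspose, hQ.eq,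
      Matrix.mul_assoc]
  set U : Matrix ι ι ℂ := (hX.eigenvectorUnitary : Matrix ι ι ℂ) with hU
  have hUU : Uᴴ * U = 1 := by
    have := (mem_unitaryGroup_iff').1 hX.eigenvectorUnitary.2
    rwa [star_eq_conjTranspose] at this
  have hsp : Uᴴ * (Dᴴ * Q * D) * U = diagonal (fun i => (hX.eigenvalues i : ℂ)) := by
    have h1 := hX.spectral_theorem
    have h2 : Dᴴ * Q * D = U * diagonal (fun i => (hX.eigenvalues i : ℂ)) * Uᴴ := by
      conv_lhs => rw [h1]
      rfl
    refine (congrArg (fun M => Uᴴ * M * U) h2).trans ?_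
    calc Uᴴ * (U * diagonal (fun i => (hX.eigenvalues i : ℂ)) * Uᴴ) * U
        = (Uᴴ * U) * diagonal (fun i => (hX.eigenvalues i : ℂ)) * (Uᴴ * U) := by
          simp only [Matrix.mul_assoc]
      _ = _ := by rw [hUU, Matrix.one_mul, Matrix.mul_one]
  refine ⟨D * U, hX.eigenvalues, ?_, ?_⟩
  · rw [hB, conjTranspose_mul]
    calc Uᴴ * Dᴴ * (Bᴴ * B) * (D * U) = Uᴴ * (Dᴴ * Bᴴ) * (B * D) * U := by
          simp only [Matrix.mul_assoc]
      _ = 1 := by rw [hDB, hBD, Matrix.mul_one, Matrix.mul_one, hUU]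
  · rw [conjTranspose_mul, ← hsp]
    simp only [Matrix.mul_assoc]

/-- quadratic form -/
def qf (G : Matrix ι ι ℂ) (c : ι → ℂ) : ℂ := star c ⬝ᵥ (G *ᵥ c)

omit [DecidableEq ι] in
lemma diag_entry (G C : Matrix ι ι ℂ) (i : ι) : (Cᴴ * G * C) i i = qf G (fun j => C j i) := by
  simp only [qf, Matrix.mul_apply, dotProduct, mulVec, conjTranspose_apply, Pi.star_apply,
    Finset.sum_mul, Finset.mul_sum]
  rw [Finset.sum_comm]
  apply Finset.sum_congr rfl
  intro j _
  apply Finset.sum_congr rfl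
  intro k _
  ring

lemma det_rel (G Q C : Matrix ι ι ℂ) (x : ι → ℝ) (h1 : Cᴴ * G * C = 1)
    (h2 : Cᴴ * Q * C = diagonal (fun i => (x i : ℂ))) :
    C.det ≠ 0 ∧ Q.det = G.det * ∏ i, (x i : ℂ) := by
  have e1 := congrArg det h1
  have e2 := congrArg det h2
  rw [det_mul, det_mul, det_one] at e1
  rw [det_mul, det_mul, det_diagonal] at e2
  have hC : C.det ≠ 0 := by
    intro h; rw [h, mul_zero] at e1; exact zero_ne_one e1
  have hC' : Cᴴ.det ≠ 0 := by
    intro h; rw [h, zero_mul, zero_mul] at e1; exact zero_ne_one e1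
  refine ⟨hC, ?_⟩
  have hk : Cᴴ.det * C.det ≠ 0 := mul_ne_zero hC' hC
  apply mul_right_cancel₀ hk
  calc Q.det * (Cᴴ.det * C.det) = ∏ i, (x i : ℂ) := by rw [← e2]; ring
    _ = (Cᴴ.det * G.det * C.det) * ∏ i, (x i : ℂ) := by rw [e1, one_mul]
    _ = _ := by ring

/-- monotonicity of the determinant -/
lemma det_mono (G Q : Matrix ι ι ℂ) (hG : G.PosDef) (hQ : Q.PosSemidef)
    (h : ∀ c, (qf Q c).re ≤ (qf G c).re) : Q.det.re ≤ G.det.re := by
  obtain ⟨C, x, h1, h2⟩ := simul_diag G Q hG hQ.1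
  obtain ⟨_, h3⟩ := det_rel G Q C x h1 h2
  have hx : ∀ i, 0 ≤ x i ∧ x i ≤ 1 := by
    intro i
    have e1 := diag_entry Q C i
    have e2 := diag_entry G C i
    rw [h2, diagonal_apply_eq] at e1
    rw [h1, one_apply_eq] at e2
    constructor
    · have := hQ.dotProduct_mulVec_nonneg (fun j => C j i)
      rw [← qf, ← e1] at this
      exact_mod_cast this
    · have := h (fun j => C j i)
      rw [← e1, ← e2] at this
      simpa using this
  have hGp : 0 < G.det := hG.det_pos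
  obtain ⟨hre, him⟩ := Complex.pos_iff.1 hGp
  rw [h3, ← Complex.ofReal_prod, Complex.re_mul_ofReal]
  have : ∏ i, x i ≤ 1 := Finset.prod_le_one (fun i _ => (hx i).1) (fun i _ => (hx i).2)
  nlinarith

lemma log_det_le_trace (G : Matrix ι ι ℂ) (hG : G.PosDef) :
    Real.log G.det.re ≤ G.trace.re := by
  have h1 := hG.1.det_eq_prod_eigenvalues
  have h2 := hG.1.trace_eq_sum_eigenvalues
  rw [h1, h2]
  have e1 : (∏ i, ((hG.1.eigenvalues i : ℝ) : ℂ)).re = ∏ i, hG.1.eigenvalues i := by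
    rw [← Complex.ofReal_prod, Complex.ofReal_re]
  have e2 : (∑ i, ((hG.1.eigenvalues i : ℝ) : ℂ)).re = ∑ i, hG.1.eigenvalues i := by
    rw [← Complex.ofReal_sum, Complex.ofReal_re]
  change Real.log (∏ i, ((hG.1.eigenvalues i : ℝ) : ℂ)).re ≤ (∑ i, ((hG.1.eigenvalues i : ℝ) : ℂ)).re
  rw [e1, e2, Real.log_prod (fun i _ => (hG.eigenvalues_pos i).ne')]
  apply Finset.sum_le_sum
  intro i _
  have := Real.log_le_sub_one_of_pos (hG.eigenvalues_pos i)
  linarith

end Pool.Agent.H805R2.Gram
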