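import Mathlib

set_option autoImplicit false

open Matrix Finset

namespace Pool.Agent.H805R2

section alg
variable {R : Type*} [CommRing R] [Algebra ℂ R] {m : Type*} [Fintype m] [DecidableEq m]

lemma deriv_prod {ι : Type*} [DecidableEq ι] (D : Derivation ℂ R R) (s : Finset ι) (f : ι → R) :
    D (∏ i ∈ s, f i) = ∑ l ∈ s, D (f l) * ∏ i ∈ s.erase l, f i := by
  induction s using Finset.induction_on with
  | empty => simp
  | insert a s ha ih =>
    rw [prod_insert ha, D.leibniz, ih, sum_insert ha, erase_insert ha, smul_eq_mul, smul_eq_mul,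
      add_comm, mul_comm (∏ i ∈ s, f i), mul_sum]
    congr 1
    apply sum_congr rfl
    intro l hl
    have hla : l ≠ a := by rintro rfl; exact ha hl
    rw [erase_insert_of_ne hla.symm, prod_insert (by
      intro h; exact ha (mem_of_mem_erase h))]
    ring

/-- Leibniz rule for determinants -/
lemma deriv_det (D : Derivation ℂ R R) (M : Matrix m m R) :
    D M.det = ∑ l, (M.updateRow l (fun k => D (M l k))).det := by
  rw [← det_transpose, det_apply]
  have h1 : ∀ l, (M.updateRow l (fun k => D (M l k))).det =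
      ∑ σ : Equiv.Perm m, Equiv.Perm.sign σ • (D (M l (σ l)) * ∏ i ∈ univ.erase l, M i (σ i)) := by
    intro l
    rw [← det_transpose, det_apply]
    apply sum_congr rfl
    intro σ _
    congr 1
    simp only [transpose_apply]
    rw [← mul_prod_erase univ _ (mem_univ l), updateRow_self]
    congr 1
    apply prod_congr rfl
    intro i hi
    rw [updateRow_ne (ne_of_mem_erase hi)]
  simp_rw [h1]
  rw [sum_comm, map_sum]
  apply sum_congr rfl
  intro σ _
  rw [← smul_sum]
  have h2 : D (Equiv.Perm.sign σ • ∏ i, Mᵀ (σ i) i) = Equiv.Perm.sign σ • D (∏ i, Mᵀ (σ i) i) := by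
    rcases Int.units_eq_one_or (Equiv.Perm.sign σ) with h | h <;> simp [h]
  rw [h2, deriv_prod]
  rfl

variable {n : ℕ} (Dh Db : Fin n → Derivation ℂ R R)
  (hcomm : ∀ j k f, Dh j (Dh k f) = Dh k (Dh j f))
  (hcomm' : ∀ j k f, Db j (Db k f) = Db k (Db j f))
  (hcomm'' : ∀ j k f, Dh j (Db k f) = Db k (Dh j f))

/-- the Hessian matrix in the ring -/
def HR (f : R) : Matrix (Fin n) (Fin n) R := Matrix.of fun j k => Dh j (Db k f)

lemma antisymm_sum (g : Fin n → Fin n → R) (h : ∀ j l, g j l = - g l j) : ∑ j, ∑ l, g j l = 0 := by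
  have h1 : ∑ j, ∑ l, g j l = - ∑ j, ∑ l, g j l := by
    conv_lhs => rw [sum_comm]
    rw [← sum_neg_distrib]
    apply sum_congr rfl
    intro j _
    rw [← sum_neg_distrib]
    exact sum_congr rfl fun l _ => h l j
  have h2 : (2 : ℂ) • (∑ j, ∑ l, g j l) = 0 := by
    rw [two_smul]
    nth_rewrite 2 [h1]
    exact add_neg_cancel _
  have h3 : (2 : ℂ)⁻¹ • ((2 : ℂ) • (∑ j, ∑ l, g j l)) = 0 := by rw [h2, smul_zero]
  rwa [smul_smul, inv_mul_cancel₀ two_ne_zero, one_smul] at h3

lemma det_swap_rows (M : Matrix (Fin n) (Fin n) R) (j l : Fin n) (hjl : j ≠ l) (a b : Fin n → R) :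
    ((M.updateRow j a).updateRow l b).det = - ((M.updateRow l a).updateRow j b).det := by
  have h : (M.updateRow l a).updateRow j b =
      (((M.updateRow j a).updateRow l b).submatrix (Equiv.swap j l) id) := by
    ext i k
    simp only [submatrix_apply, id]
    by_cases hi : i = j
    · subst hi
      rw [updateRow_self, Equiv.swap_apply_left, updateRow_self]
    · rw [updateRow_ne hi]
      by_cases hi2 : i = l
      · subst hi2
        rw [updateRow_self, Equiv.swap_apply_right, updateRow_ne hjl, updateRow_self]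
      · rw [updateRow_ne hi2, Equiv.swap_apply_of_ne_of_ne hi hi2, updateRow_ne hi2, updateRow_ne hi]
  rw [h, det_permute, Equiv.Perm.sign_swap hjl]
  simp

include hcomm in
/-- Piola identity -/
lemma piola (f : R) (k : Fin n) : ∑ j, Dh j ((HR Dh Db f).adjugate k j) = 0 := by
  set H := HR Dh Db f with hH
  have h1 : ∀ j, Dh j (H.adjugate k j) = ∑ l, if l = j then 0 else
      ((H.updateRow j (Pi.single k 1)).updateRow l (fun i => Dh j (Dh l (Db i f)))).det := by
    intro j
    rw [adjugate_apply, deriv_det]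
    apply sum_congr rfl
    intro l _
    by_cases hl : l = j
    · subst hl
      rw [if_pos rfl]
      apply det_eq_zero_of_row_eq_zero l
      intro i
      rw [updateRow_self, updateRow_self]
      by_cases hik : i = k
      · subst hik
        rw [Pi.single_eq_same]
        exact (Dh l).map_one_eq_zero
      · rw [Pi.single_eq_of_ne hik, map_zero]
    · rw [if_neg hl]
      congr 2
      funext i
      rw [updateRow_ne hl]
      rfl
  simp_rw [h1]
  apply antisymm_sum
  intro j l
  by_cases hjl : l = j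
  · subst hjl; simp
  · rw [if_neg hjl, if_neg (Ne.symm hjl), det_swap_rows _ _ _ (Ne.symm hjl)]
    congr 3
    funext i
    rw [hcomm]

include hcomm' hcomm'' in
lemma piola' (f : R) (j : Fin n) : ∑ k, Db k ((HR Dh Db f).adjugate k j) = 0 := by
  -- transpose the roles
  have hT : HR Db Dh f = (HR Dh Db f)ᵀ := by
    ext a b
    simp only [HR, transpose_apply, of_apply]
    rw [hcomm'']
  have := piola Db Dh hcomm' f j
  rw [hT, ← adjugate_transpose] at this
  exact this

include hcomm hcomm' hcomm'' in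
/-- the divergence identity behind the integration by parts formula -/
lemma divergence (f g c : R) :
    g * ∑ j, ∑ k, (HR Dh Db f).adjugate k j * Dh j (Db k c) -
      c * ∑ j, ∑ k, (HR Dh Db f).adjugate k j * Dh j (Db k g) =
    ∑ j, Dh j (g * ∑ k, (HR Dh Db f).adjugate k j * Db k c) -
      ∑ k, Db k (c * ∑ j, (HR Dh Db f).adjugate k j * Dh j g) := by
  set A := (HR Dh Db f).adjugate with hA
  have h1 : ∑ j, Dh j (g * ∑ k, A k j * Db k c) =
      ∑ j, ∑ k, Dh j g * (A k j * Db k c) + g * ∑ j, ∑ k, A k j * Dh j (Db k c) := by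
    have e1 : ∀ j, Dh j (g * ∑ k, A k j * Db k c) =
        ∑ k, Dh j g * (A k j * Db k c) + (g * ∑ k, A k j * Dh j (Db k c) +
          g * ∑ k, Db k c * Dh j (A k j)) := by
      intro j
      rw [Derivation.leibniz, smul_eq_mul, smul_eq_mul, map_sum]
      simp_rw [Derivation.leibniz, smul_eq_mul]
      rw [sum_add_distrib, ← mul_sum]
      ring
    simp_rw [e1]
    rw [sum_add_distrib, sum_add_distrib, ← mul_sum, ← mul_sum]
    have e2 : ∑ j, ∑ k, Db k c * Dh j (A k j) = 0 := by
      rw [sum_comm]
      apply sum_eq_zero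
      intro k _
      rw [← mul_sum, piola Dh Db hcomm f k, mul_zero]
    rw [e2, mul_zero, add_zero]
  have h2 : ∑ k, Db k (c * ∑ j, A k j * Dh j g) =
      ∑ k, ∑ j, Db k c * (A k j * Dh j g) + c * ∑ k, ∑ j, A k j * Dh j (Db k g) := by
    have e1 : ∀ k, Db k (c * ∑ j, A k j * Dh j g) =
        ∑ j, Db k c * (A k j * Dh j g) + (c * ∑ j, A k j * Dh j (Db k g) +
          c * ∑ j, Dh j g * Db k (A k j)) := by
      intro k
      rw [Derivation.leibniz, smul_eq_mul, smul_eq_mul, map_sum]
      simp_rw [Derivation.leibniz, smul_eq_mul, hcomm'']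
      rw [sum_add_distrib, ← mul_sum]
      ring
    simp_rw [e1]
    rw [sum_add_distrib, sum_add_distrib, ← mul_sum, ← mul_sum]
    have e2 : ∑ k, ∑ j, Dh j g * Db k (A k j) = 0 := by
      rw [sum_comm]
      apply sum_eq_zero
      intro j _
      rw [← mul_sum, piola' Dh Db hcomm' hcomm'' f j, mul_zero]
    rw [e2, mul_zero, add_zero]
  have h3 : ∑ j, ∑ k, Dh j g * (A k j * Db k c) = ∑ k, ∑ j, Db k c * (A k j * Dh j g) := by
    rw [sum_comm]
    apply sum_congr rfl; intro k _
    apply sum_congr rfl; intro j _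
    ring
  have h4 : ∑ k, ∑ j, A k j * Dh j (Db k g) = ∑ j, ∑ k, A k j * Dh j (Db k g) := sum_comm
  rw [h1, h2, h3, h4]
  ring

/-- derivative of the determinant in a direction, with the adjugate -/
lemma deriv_det_adj (D : Derivation ℂ R R) (M : Matrix (Fin n) (Fin n) R) :
    D M.det = ∑ j, ∑ k, M.adjugate k j * D (M j k) := by
  rw [deriv_det]
  apply sum_congr rfl
  intro j _
  rw [← cramer_transpose_apply, cramer_eq_adjugate_mulVec, ← adjugate_transpose]
  rfl

end alg

end Pool.Agent.H805R2
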