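import Mathlib
import Pool.Agent.H805R2.Base
import Pool.Agent.H805R2.Mat
import Pool.Agent.H805R2.Piola

set_option autoImplicit false
set_option maxHeartbeats 1000000

open MeasureTheory Metric Set Filter Topology
open scoped ENNReal NNReal ContDiff

namespace Pool.Agent.H805R2

variable {n : ℕ}

/-- the subalgebra of smooth complex functions on `ℂⁿ` -/
def SmSub (n : ℕ) : Subalgebra ℂ (Cn n → ℂ) where
  carrier := {f | ContDiff ℝ ∞ f}
  mul_mem' := fun {f g} hf hg => by
    have hf' : ContDiff ℝ ∞ f := hf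
    have hg' : ContDiff ℝ ∞ g := hg
    exact hf'.mul hg'
  add_mem' := fun {f g} hf hg => by
    have hf' : ContDiff ℝ ∞ f := hf
    have hg' : ContDiff ℝ ∞ g := hg
    exact hf'.add hg'
  algebraMap_mem' := fun c => (contDiff_const : ContDiff ℝ ∞ fun _ : Cn n => c)

/-- the ring of smooth functions, as a type of its own -/
def SR (n : ℕ) : Type := SmSub n

noncomputable instance : CommRing (SR n) := inferInstanceAs (CommRing (SmSub n))
noncomputable instance : Algebra ℂ (SR n) := inferInstanceAs (Algebra ℂ (SmSub n))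

/-- underlying function -/
def fn (f : SR n) : Cn n → ℂ := (f : SmSub n).1

/-- constructor -/
def mkS (f : Cn n → ℂ) (hf : ContDiff ℝ ∞ f) : SR n := (⟨f, hf⟩ : SmSub n)

lemma fn_mk (f : Cn n → ℂ) (hf : ContDiff ℝ ∞ f) : fn (mkS f hf) = f := rfl
lemma fn_ext {f g : SR n} (h : ∀ z, fn f z = fn g z) : f = g := Subtype.ext (funext h)
lemma fn_add (f g : SR n) (z : Cn n) : fn (f + g) z = fn f z + fn g z := rfl
lemma fn_sub (f g : SR n) (z : Cn n) : fn (f - g) z = fn f z - fn g z := rfl
lemma fn_mul (f g : SR n) (z : Cn n) : fn (f * g) z = fn f z * fn g z := rfl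
lemma fn_smul (c : ℂ) (f : SR n) (z : Cn n) : fn (c • f) z = c * fn f z := rfl
lemma fn_zero (z : Cn n) : fn (0 : SR n) z = 0 := rfl
lemma fn_one (z : Cn n) : fn (1 : SR n) z = 1 := rfl
lemma fn_smooth (f : SR n) : ContDiff ℝ ∞ (fn f) := (f : SmSub n).2

lemma fn_diff (f : SR n) (z : Cn n) : DifferentiableAt ℝ (fn f) z :=
  ((fn_smooth f).differentiable (by simp)).differentiableAt

lemma smooth_dir {f : Cn n → ℂ} (hf : ContDiff ℝ ∞ f) (v : Cn n) :
    ContDiff ℝ ∞ (fun z => fderiv ℝ f z v) :=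
  (hf.fderiv_right (m := ∞) (by simp)).clm_apply contDiff_const

/-- directional derivative as a derivation -/
noncomputable def Dv (v : Cn n) : Derivation ℂ (SR n) (SR n) where
  toFun f := mkS (fun z => fderiv ℝ (fn f) z v) (smooth_dir (fn_smooth f) v)
  map_add' f g := by
    apply fn_ext
    intro z
    rw [fn_add, fn_mk, fn_mk, fn_mk]
    have h : fn (f + g) = fn f + fn g := rfl
    rw [h, fderiv_add (fn_diff f z) (fn_diff g z)]
    rfl
  map_smul' c f := by
    apply fn_ext
    intro z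
    simp only [RingHom.id_apply]
    rw [fn_smul, fn_mk, fn_mk]
    have h : fn (c • f) = c • fn f := rfl
    rw [h, fderiv_const_smul (fn_diff f z)]
    rfl
  map_one_eq_zero' := by
    apply fn_ext
    intro z
    change fderiv ℝ (fun _ : Cn n => (1 : ℂ)) z v = 0
    rw [fderiv_fun_const]
    rfl
  leibniz' f g := by
    apply fn_ext
    intro z
    simp only [smul_eq_mul]
    rw [fn_add, fn_mul, fn_mul]
    change fderiv ℝ (fun y => fn f y * fn g y) z v = fn f z * fderiv ℝ (fn g) z v + fn g z * fderiv ℝ (fn f) z v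
    rw [fderiv_fun_mul (fn_diff f z) (fn_diff g z)]
    simp [smul_eq_mul]

lemma Dv_apply (v : Cn n) (f : SR n) (z : Cn n) : fn (Dv v f) z = fderiv ℝ (fn f) z v := rfl

lemma Dv_comm (v w : Cn n) (f : SR n) : Dv v (Dv w f) = Dv w (Dv v f) := by
  apply fn_ext
  intro z
  have h : ∀ a b : Cn n, fn (Dv a (Dv b f)) z = fderiv ℝ (fderiv ℝ (fn f)) z a b := by
    intro a b
    rw [Dv_apply]
    have hd2 : DifferentiableAt ℝ (fderiv ℝ (fn f)) z :=
      (((fn_smooth f).fderiv_right (m := ∞) (by simp)).differentiable (by simp)).differentiableAt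
    have h1 : HasFDerivAt (fun y => fderiv ℝ (fn f) y b)
        ((ContinuousLinearMap.apply ℝ ℂ b).comp (fderiv ℝ (fderiv ℝ (fn f)) z)) z :=
      (ContinuousLinearMap.apply ℝ ℂ b).hasFDerivAt.comp z hd2.hasFDerivAt
    have h2 : fn (Dv b f) = fun y => fderiv ℝ (fn f) y b := rfl
    rw [h2, h1.fderiv]
    rfl
  rw [h, h]
  have hsymm : IsSymmSndFDerivAt ℝ (fn f) z :=
    ((fn_smooth f).of_le (m := 2) ENat.LEInfty.out).contDiffAt.isSymmSndFDerivAt (by simp)
  exact hsymm.eq v w

/-- `∂/∂z_j` as a derivation -/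
noncomputable def Dh (j : Fin n) : Derivation ℂ (SR n) (SR n) :=
  (2⁻¹ : ℂ) • (Dv (bas j) - Complex.I • Dv (Complex.I • bas j))

/-- `∂/∂z̄_k` as a derivation -/
noncomputable def Db (k : Fin n) : Derivation ℂ (SR n) (SR n) :=
  (2⁻¹ : ℂ) • (Dv (bas k) + Complex.I • Dv (Complex.I • bas k))

lemma Dh_def (j : Fin n) (f : SR n) :
    Dh j f = (2⁻¹ : ℂ) • (Dv (bas j) f - Complex.I • Dv (Complex.I • bas j) f) := rfl

lemma Db_def (j : Fin n) (f : SR n) :
    Db j f = (2⁻¹ : ℂ) • (Dv (bas j) f + Complex.I • Dv (Complex.I • bas j) f) := rfl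

lemma Dh_apply (j : Fin n) (f : SR n) (z : Cn n) : fn (Dh j f) z = wd j (fn f) z := by
  rw [Dh_def, fn_smul, fn_sub, fn_smul, Dv_apply, Dv_apply, wd]
  ring

lemma Db_apply (j : Fin n) (f : SR n) (z : Cn n) : fn (Db j f) z = wdb j (fn f) z := by
  rw [Db_def, fn_smul, fn_add, fn_smul, Dv_apply, Dv_apply, wdb]
  ring

lemma Dh_comm (j k : Fin n) (f : SR n) : Dh j (Dh k f) = Dh k (Dh j f) := by
  simp only [Dh_def, Derivation.map_smul, map_sub]
  rw [Dv_comm (bas k) (bas j), Dv_comm (bas k) (Complex.I • bas j),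
    Dv_comm (Complex.I • bas k) (bas j), Dv_comm (Complex.I • bas k) (Complex.I • bas j)]
  module

lemma Db_comm (j k : Fin n) (f : SR n) : Db j (Db k f) = Db k (Db j f) := by
  simp only [Db_def, Derivation.map_smul, map_add]
  rw [Dv_comm (bas k) (bas j), Dv_comm (bas k) (Complex.I • bas j),
    Dv_comm (Complex.I • bas k) (bas j), Dv_comm (Complex.I • bas k) (Complex.I • bas j)]
  module

lemma DhDb_comm (j k : Fin n) (f : SR n) : Dh j (Db k f) = Db k (Dh j f) := by
  simp only [Dh_def, Db_def, Derivation.map_smul, map_add, map_sub]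
  rw [Dv_comm (bas k) (bas j), Dv_comm (bas k) (Complex.I • bas j),
    Dv_comm (Complex.I • bas k) (bas j), Dv_comm (Complex.I • bas k) (Complex.I • bas j)]
  module

/-- the integral of a derivative vanishes -/
lemma int_deriv_zero (F : Cn n → ℂ) (hF : ContDiff ℝ 1 F) (hc : HasCompactSupport F) (v : Cn n) :
    ∫ z, fderiv ℝ F z v = 0 := by
  have hcont : Continuous fun z => fderiv ℝ F z v :=
    (hF.continuous_fderiv (by norm_num)).clm_apply continuous_const
  have hcs : HasCompactSupport fun z => fderiv ℝ F z v := hc.fderiv_apply (𝕜 := ℝ) v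
  have h := integral_mul_fderiv_eq_neg_fderiv_mul_of_integrable (𝕜 := ℂ) (μ := (volume : Measure (Cn n)))
    (f := fun _ => (1 : ℂ)) (g := F) (v := v) (by simp)
    (by simpa using hcont.integrable_of_hasCompactSupport hcs)
    (by simpa using hF.continuous.integrable_of_hasCompactSupport hc)
    (fun x _ => differentiableAt_const _) (fun x _ => (hF.differentiable (by norm_num)).differentiableAt)
  simpa using h

lemma int_wd_zero (j : Fin n) (F : Cn n → ℂ) (hF : ContDiff ℝ 1 F) (hc : HasCompactSupport F) :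
    ∫ z, wd j F z = 0 ∧ ∫ z, wdb j F z = 0 ∧ HasCompactSupport (wd j F) ∧ HasCompactSupport (wdb j F) := by
  have hcs : ∀ v : Cn n, HasCompactSupport fun z => fderiv ℝ F z v := fun v => hc.fderiv_apply (𝕜 := ℝ) v
  have hi : ∀ v : Cn n, Integrable fun z => fderiv ℝ F z v := fun v =>
    ((hF.continuous_fderiv (by norm_num)).clm_apply continuous_const).integrable_of_hasCompactSupport
      (hcs v)
  have e1 : wd j F = fun z => (2⁻¹ : ℂ) * (fderiv ℝ F z (bas j) + (-Complex.I) * fderiv ℝ F z (Complex.I • bas j)) := by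
    funext z; rw [wd]; ring
  have e2 : wdb j F = fun z => (2⁻¹ : ℂ) * (fderiv ℝ F z (bas j) + Complex.I * fderiv ℝ F z (Complex.I • bas j)) := by
    funext z; rw [wdb]; ring
  rw [e1, e2]
  refine ⟨?_, ?_, ?_, ?_⟩
  · rw [integral_const_mul, integral_add (hi _) ((hi _).const_mul _), integral_const_mul,
      int_deriv_zero _ hF hc, int_deriv_zero _ hF hc]
    simp
  · rw [integral_const_mul, integral_add (hi _) ((hi _).const_mul _), integral_const_mul,
      int_deriv_zero _ hF hc, int_deriv_zero _ hF hc]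
    simp
  · have h3 : HasCompactSupport fun z => (-Complex.I) * fderiv ℝ F z (Complex.I • bas j) :=
      HasCompactSupport.mul_left (hcs _)
    exact HasCompactSupport.mul_left ((hcs (bas j)).add h3)
  · have h3 : HasCompactSupport fun z => Complex.I * fderiv ℝ F z (Complex.I • bas j) :=
      HasCompactSupport.mul_left (hcs _)
    exact HasCompactSupport.mul_left ((hcs (bas j)).add h3)

/-- compact support in the ring of smooth functions -/
def CS (F : SR n) : Prop := HasCompactSupport (fn F)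

lemma CS_mul_right (F H : SR n) (hH : CS H) : CS (F * H) := by
  have : fn (F * H) = fun z => fn F z * fn H z := rfl
  unfold CS at *
  rw [this]
  exact HasCompactSupport.mul_left hH

lemma CS_mul_left (F H : SR n) (hF : CS F) : CS (F * H) := by
  have : fn (F * H) = fun z => fn F z * fn H z := rfl
  unfold CS at *
  rw [this]
  exact HasCompactSupport.mul_right hF

lemma CS_add (F H : SR n) (hF : CS F) (hH : CS H) : CS (F + H) := by
  have : fn (F + H) = fun z => fn F z + fn H z := rfl
  unfold CS at *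
  rw [this]
  exact hF.add hH

lemma CS_zero : CS (0 : SR n) := by
  unfold CS
  exact HasCompactSupport.zero

lemma CS_sum {ι : Type} (s : Finset ι) (F : ι → SR n) (hF : ∀ j ∈ s, CS (F j)) : CS (∑ j ∈ s, F j) := by
  classical
  induction s using Finset.induction_on with
  | empty => rw [Finset.sum_empty]; exact CS_zero
  | insert a s ha ih =>
    rw [Finset.sum_insert ha]
    exact CS_add _ _ (hF a (Finset.mem_insert_self a s)) (ih fun j hj => hF j (Finset.mem_insert_of_mem hj))

lemma fn_C1 (F : SR n) : ContDiff ℝ 1 (fn F) := (fn_smooth F).of_le (by simp)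

lemma fn_Dh (j : Fin n) (F : SR n) : fn (Dh j F) = wd j (fn F) := funext fun z => Dh_apply j F z
lemma fn_Db (j : Fin n) (F : SR n) : fn (Db j F) = wdb j (fn F) := funext fun z => Db_apply j F z

lemma CS_wd (F : SR n) (hF : CS F) (j : Fin n) : CS (Dh j F) := by
  unfold CS at *
  rw [fn_Dh]
  exact (int_wd_zero j (fn F) (fn_C1 F) hF).2.2.1

lemma CS_wdb (F : SR n) (hF : CS F) (j : Fin n) : CS (Db j F) := by
  unfold CS at *
  rw [fn_Db]
  exact (int_wd_zero j (fn F) (fn_C1 F) hF).2.2.2

/-- integral as an additive functional -/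
noncomputable def intS (F : SR n) : ℂ := ∫ z, fn F z

lemma integrable_CS (F : SR n) (hF : CS F) : Integrable (fn F) :=
  (fn_smooth F).continuous.integrable_of_hasCompactSupport hF

lemma intS_add (F H : SR n) (hF : CS F) (hH : CS H) : intS (F + H) = intS F + intS H := by
  unfold intS
  simp_rw [fn_add]
  exact integral_add (integrable_CS F hF) (integrable_CS H hH)

lemma intS_zero : intS (0 : SR n) = 0 := by
  unfold intS
  simp_rw [fn_zero]
  exact integral_zero _ _

lemma intS_sum {ι : Type} (s : Finset ι) (F : ι → SR n) (hF : ∀ j ∈ s, CS (F j))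
    (h0 : ∀ j ∈ s, intS (F j) = 0) : intS (∑ j ∈ s, F j) = 0 := by
  classical
  induction s using Finset.induction_on with
  | empty => rw [Finset.sum_empty]; exact intS_zero
  | insert a s ha ih =>
    rw [Finset.sum_insert ha, intS_add _ _ (hF a (Finset.mem_insert_self a s))
      (CS_sum s F fun j hj => hF j (Finset.mem_insert_of_mem hj)),
      h0 a (Finset.mem_insert_self a s), ih (fun j hj => hF j (Finset.mem_insert_of_mem hj))
      (fun j hj => h0 j (Finset.mem_insert_of_mem hj)), add_zero]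

lemma intS_Dh (F : SR n) (hF : CS F) (j : Fin n) : intS (Dh j F) = 0 := by
  unfold intS
  rw [fn_Dh]
  exact (int_wd_zero j (fn F) (fn_C1 F) hF).1

lemma intS_Db (F : SR n) (hF : CS F) (j : Fin n) : intS (Db j F) = 0 := by
  unfold intS
  rw [fn_Db]
  exact (int_wd_zero j (fn F) (fn_C1 F) hF).2.1

lemma CS_X (B C G : SR n) (hC : CS C) :
    CS (G * ∑ j, ∑ k, (HR Dh Db B).adjugate k j * Dh j (Db k C)) := by
  apply CS_mul_right
  apply CS_sum
  intro j _
  apply CS_sum
  intro k _
  apply CS_mul_right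
  exact CS_wd _ (CS_wdb _ hC k) j

lemma CS_P (B C G : SR n) (hC : CS C) (j : Fin n) :
    CS (G * ∑ k, (HR Dh Db B).adjugate k j * Db k C) := by
  apply CS_mul_right
  apply CS_sum
  intro k _
  apply CS_mul_right
  exact CS_wdb _ hC k

/-- integration by parts in the ring -/
lemma ibp_ring (B C G : SR n) (hC : CS C) :
    intS (G * ∑ j, ∑ k, (HR Dh Db B).adjugate k j * Dh j (Db k C)) =
      intS (C * ∑ j, ∑ k, (HR Dh Db B).adjugate k j * Dh j (Db k G)) := by
  have hdiv := divergence Dh Db Dh_comm Db_comm DhDb_comm B G C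
  have hXc := CS_X B C G hC
  have hYc : CS (C * ∑ j, ∑ k, (HR Dh Db B).adjugate k j * Dh j (Db k G)) := CS_mul_left _ _ hC
  have hPj := CS_P B C G hC
  have hQk : ∀ k, CS (C * ∑ j, (HR Dh Db B).adjugate k j * Dh j G) := fun k => CS_mul_left _ _ hC
  have hPc : CS (∑ j, Dh j (G * ∑ k, (HR Dh Db B).adjugate k j * Db k C)) :=
    CS_sum _ _ fun j _ => CS_wd _ (hPj j) j
  have hQc : CS (∑ k, Db k (C * ∑ j, (HR Dh Db B).adjugate k j * Dh j G)) :=
    CS_sum _ _ fun k _ => CS_wdb _ (hQk k) k
  have hP0 : intS (∑ j, Dh j (G * ∑ k, (HR Dh Db B).adjugate k j * Db k C)) = 0 :=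
    intS_sum _ _ (fun j _ => CS_wd _ (hPj j) j) fun j _ => intS_Dh _ (hPj j) j
  have hQ0 : intS (∑ k, Db k (C * ∑ j, (HR Dh Db B).adjugate k j * Dh j G)) = 0 :=
    intS_sum _ _ (fun k _ => CS_wdb _ (hQk k) k) fun k _ => intS_Db _ (hQk k) k
  generalize G * ∑ j, ∑ k, (HR Dh Db B).adjugate k j * Dh j (Db k C) = X at *
  generalize C * ∑ j, ∑ k, (HR Dh Db B).adjugate k j * Dh j (Db k G) = Y at *
  generalize ∑ j, Dh j (G * ∑ k, (HR Dh Db B).adjugate k j * Db k C) = P at *
  generalize ∑ k, Db k (C * ∑ j, (HR Dh Db B).adjugate k j * Dh j G) = Q at *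
  have h1 : X + Q = Y + P := by
    rw [sub_eq_sub_iff_add_eq_add] at hdiv
    rw [hdiv, add_comm]
  have h2 := congrArg intS h1
  rw [intS_add _ _ hXc hQc, intS_add _ _ hYc hPc, hP0, hQ0, add_zero, add_zero] at h2
  exact h2

/-- real smooth function as an element of the ring -/
noncomputable def toSm (u : Cn n → ℝ) (hu : ContDiff ℝ ∞ u) : SR n :=
  mkS (fun z => (u z : ℂ)) (Complex.ofRealCLM.contDiff.comp hu)

lemma fn_toSm (u : Cn n → ℝ) (hu : ContDiff ℝ ∞ u) (z : Cn n) : fn (toSm u hu) z = (u z : ℂ) := rfl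

/-- evaluation -/
def evz (z : Cn n) : SR n →+* ℂ where
  toFun f := fn f z
  map_one' := rfl
  map_mul' _ _ := rfl
  map_zero' := rfl
  map_add' _ _ := rfl

lemma evz_apply (z : Cn n) (f : SR n) : evz z f = fn f z := rfl

lemma HR_map (u : Cn n → ℝ) (hu : ContDiff ℝ ∞ u) (z : Cn n) :
    (HR Dh Db (toSm u hu)).map (evz z) = hess u z := by
  ext j k
  rw [Matrix.map_apply, HR, Matrix.of_apply, evz_apply, Dh_apply, fn_Db, hess, Matrix.of_apply]
  rfl

lemma HR_adj_map (u : Cn n → ℝ) (hu : ContDiff ℝ ∞ u) (z : Cn n) (k j : Fin n) :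
    evz z ((HR Dh Db (toSm u hu)).adjugate k j) = (hess u z).adjugate k j := by
  rw [← HR_map u hu z, ← RingHom.mapMatrix_apply, ← RingHom.map_adjugate]
  rfl

lemma tr_eq (b u : Cn n → ℝ) (hb : ContDiff ℝ ∞ b) (hu : ContDiff ℝ ∞ u) (z : Cn n) :
    ((hess b z).adjugate * hess u z).trace =
      evz z (∑ j, ∑ k, (HR Dh Db (toSm b hb)).adjugate k j * Dh j (Db k (toSm u hu))) := by
  rw [map_sum]
  simp_rw [map_sum, map_mul]
  rw [Matrix.trace_mul_comm, Matrix.trace]
  apply Finset.sum_congr rfl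
  intro j _
  rw [Matrix.diag_apply, Matrix.mul_apply]
  apply Finset.sum_congr rfl
  intro k _
  rw [HR_adj_map b hb z k j, mul_comm]
  congr 1
  rw [← HR_map u hu z]
  rfl

/-- **Integration by parts** for the linearised Monge-Ampère operator. -/
theorem ibp (b c g : Cn n → ℝ) (hb : ContDiff ℝ ∞ b) (hc : ContDiff ℝ ∞ c) (hg : ContDiff ℝ ∞ g)
    (hcs : HasCompactSupport c) :
    ∫ z, (g z : ℂ) * ((hess b z).adjugate * hess c z).trace =
      ∫ z, (c z : ℂ) * ((hess b z).adjugate * hess g z).trace := by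
  have hcsC : CS (toSm c hc) := by
    unfold CS
    have : fn (toSm c hc) = fun z => (c z : ℂ) := rfl
    rw [this]
    apply hcs.comp_left (g := fun x : ℝ => (x : ℂ))
    simp
  have h := ibp_ring (toSm b hb) (toSm c hc) (toSm g hg) hcsC
  unfold intS at h
  simp_rw [fn_mul, fn_toSm, ← evz_apply, ← tr_eq] at h
  exact h

end Pool.Agent.H805R2
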