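import Mathlib
import Pool.Agent.H805R2.Mat
import Pool.Agent.H805R2.Base

set_option autoImplicit false

open MeasureTheory Metric Set Filter Topology Matrix
open scoped ENNReal NNReal ContDiff ComplexOrder MatrixOrder Matrix.Norms.L2Operator

namespace Pool.Agent.H805R2

variable {n : ℕ}

/-- the real quadratic form of a Hermitian matrix, in the convention of `hess` -/
noncomputable def QF (A : Matrix (Fin n) (Fin n) ℂ) (ζ : Cn n) : ℝ :=
  (Gram.qf A (fun j => star (ζ j))).re

lemma QF_levi {u : Cn n → ℝ} (hu : ContDiff ℝ 2 u) (z ζ : Cn n) : QF (hess u z) ζ = levi u z ζ := by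
  have := levi_eq_qf hu z ζ
  have h2 := congrArg Complex.re this
  rw [Complex.ofReal_re] at h2
  exact h2.symm

lemma QF_add_smul_one (A : Matrix (Fin n) (Fin n) ℂ) (ε : ℝ) (ζ : Cn n) :
    QF (A + (ε : ℂ) • 1) ζ = QF A ζ + ε * ‖ζ‖ ^ 2 := by
  unfold QF Gram.qf
  rw [Matrix.add_mulVec, dotProduct_add, Complex.add_re]
  congr 1
  rw [Matrix.smul_mulVec, Matrix.one_mulVec, dotProduct_smul, smul_eq_mul, Complex.re_ofReal_mul]
  congr 1
  rw [EuclideanSpace.norm_sq_eq]
  simp only [dotProduct, Pi.star_apply, star_star, Complex.re_sum]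
  apply Finset.sum_congr rfl
  intro i _
  rw [Complex.star_def, Complex.mul_conj, Complex.ofReal_re, Complex.normSq_eq_norm_sq]

lemma gauss_int (b : ℝ) (hb : 0 < b) : Integrable (fun v : Cn n => Real.exp (-b * ‖v‖ ^ 2)) := by
  have h := (GaussianFourier.integrable_cexp_neg_mul_sq_norm_add (V := Cn n) (b := b)
      (by simpa using hb) 0 0).norm
  refine h.congr (Eventually.of_forall fun v => ?_)
  simp only
  rw [Complex.norm_exp]
  congr 1
  simp only [zero_mul, add_zero, Complex.neg_re, neg_mul]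
  rw [Complex.re_ofReal_mul]
  norm_cast

lemma gauss_full (A : Matrix (Fin n) (Fin n) ℂ) (hA : A.PosDef) :
    Integrable (fun ζ : Cn n => Real.exp (-2 * QF A ζ)) ∧
    ∫ ζ : Cn n, Real.exp (-2 * QF A ζ) = (Real.pi / 2) ^ n / A.det.re := by
  obtain ⟨B, hB⟩ := CStarAlgebra.nonneg_iff_eq_star_mul_self.mp hA.posSemidef.nonneg
  rw [star_eq_conjTranspose] at hB
  have hdetA : A.det = ((Complex.normSq B.det : ℝ) : ℂ) := by
    rw [hB, det_mul, det_conjTranspose, Complex.star_def, ← Complex.normSq_eq_conj_mul_self]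
  set T : Cn n →ₗ[ℂ] Cn n := toEuclideanLin (B.map star) with hT
  have hTdet : LinearMap.det (T.restrictScalars ℝ) = Complex.normSq B.det := by
    rw [LinearMap.det_restrictScalars, Algebra.norm_complex_apply, hT]
    have : LinearMap.det (toEuclideanLin (B.map star)) = (B.map star).det :=
      LinearMap.det_toLpLin _ _
    rw [this]
    have h2 : (B.map star).det = star B.det := by
      have := (starRingEnd ℂ).map_det B
      rw [Complex.star_def] at *
      rw [this]; rfl
    rw [h2, Complex.star_def, Complex.normSq_conj]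
  have hpos : 0 < A.det := hA.det_pos
  have hdet0 : 0 < Complex.normSq B.det := by
    rw [hdetA] at hpos
    exact_mod_cast hpos
  have hQ : ∀ ζ : Cn n, QF A ζ = ‖T ζ‖ ^ 2 := by
    intro ζ
    have e1 : Gram.qf A (fun j => star (ζ j)) =
        star (B *ᵥ (fun j => star (ζ j))) ⬝ᵥ (B *ᵥ (fun j => star (ζ j))) := by
      unfold Gram.qf
      rw [hB, star_mulVec, ← mulVec_mulVec, ← dotProduct_mulVec]
    rw [QF, e1, EuclideanSpace.norm_sq_eq]
    simp only [dotProduct, Complex.re_sum]
    apply Finset.sum_congr rfl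
    intro i _
    have e2 : (T ζ) i = star ((B *ᵥ (fun j => star (ζ j))) i) := by
      rw [hT]
      simp only [toEuclideanLin, ofLp_toLpLin, toLin'_apply, mulVec, dotProduct, Matrix.map_apply,
        star_sum, star_mul', star_star]
    rw [e2, Pi.star_apply, norm_star, Complex.star_def, ← Complex.normSq_eq_conj_mul_self,
      Complex.ofReal_re, Complex.normSq_eq_norm_sq]
  have hgi : Integrable (fun v : Cn n => Real.exp (-2 * ‖v‖ ^ 2)) := gauss_int 2 (by norm_num)
  have hmap : Measure.map (T.restrictScalars ℝ) (volume : Measure (Cn n)) =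
      ENNReal.ofReal |(Complex.normSq B.det)⁻¹| • (volume : Measure (Cn n)) := by
    rw [Measure.map_linearMap_addHaar_eq_smul_addHaar _ (by rw [hTdet]; exact hdet0.ne'), hTdet]
  have hTm : Measurable (T.restrictScalars ℝ) := by
    exact (LinearMap.continuous_of_finiteDimensional (T.restrictScalars ℝ)).measurable
  constructor
  · simp_rw [hQ]
    have : Integrable (fun v : Cn n => Real.exp (-2 * ‖v‖ ^ 2)) (Measure.map (T.restrictScalars ℝ) volume) := by
      rw [hmap]
      exact hgi.smul_measure ENNReal.ofReal_ne_top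
    exact this.comp_measurable hTm
  · simp_rw [hQ]
    have h1 : ∫ ζ : Cn n, Real.exp (-2 * ‖T ζ‖ ^ 2) =
        ∫ v, Real.exp (-2 * ‖v‖ ^ 2) ∂(Measure.map (T.restrictScalars ℝ) (volume : Measure (Cn n))) := by
      rw [integral_map hTm.aemeasurable (by fun_prop)]
      rfl
    rw [h1, hmap, integral_smul_measure]
    have h2 : ∫ v : Cn n, Real.exp (-2 * ‖v‖ ^ 2) = (Real.pi / 2) ^ n := by
      rw [GaussianFourier.integral_rexp_neg_mul_sq_norm (by norm_num : (0 : ℝ) < 2)]
      have : Module.finrank ℝ (Cn n) = 2 * n := by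
        rw [finrank_real_of_complex, finrank_euclideanSpace_fin]
      rw [this]
      push_cast
      rw [mul_div_cancel_left₀ _ (by norm_num : (2 : ℝ) ≠ 0), Real.rpow_natCast]
    rw [h2, hdetA, Complex.ofReal_re, ENNReal.toReal_ofReal (abs_nonneg _), abs_of_pos (by positivity),
      smul_eq_mul, inv_mul_eq_div]

/-- Gaussian integral over a ball, from below -/
lemma gauss_ball (A : Matrix (Fin n) (Fin n) ℂ) (hA : A.PosDef) (ε : ℝ) (hε : 0 < ε)
    (hAε : ∀ ζ, ε * ‖ζ‖ ^ 2 ≤ QF A ζ) (R : ℝ) :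
    (Real.pi / 2) ^ n / A.det.re - ∫ ζ in (closedBall (0 : Cn n) R)ᶜ, Real.exp (-(2 * ε) * ‖ζ‖ ^ 2) ≤
      ∫ ζ in closedBall (0 : Cn n) R, Real.exp (-2 * QF A ζ) := by
  obtain ⟨h1, h2⟩ := gauss_full A hA
  rw [← h2, ← integral_add_compl (measurableSet_closedBall (x := (0 : Cn n)) (ε := R)) h1]
  have : ∫ ζ in (closedBall (0 : Cn n) R)ᶜ, Real.exp (-2 * QF A ζ) ≤
      ∫ ζ in (closedBall (0 : Cn n) R)ᶜ, Real.exp (-(2 * ε) * ‖ζ‖ ^ 2) := by
    apply integral_mono h1.integrableOn (gauss_int (2 * ε) (by positivity)).integrableOn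
    intro ζ
    apply Real.exp_le_exp.2
    have := hAε ζ
    linarith
  linarith

lemma gauss_tail (ε : ℝ) (hε : 0 < ε) :
    Tendsto (fun R : ℕ => ∫ ζ in (closedBall (0 : Cn n) R)ᶜ, Real.exp (-(2 * ε) * ‖ζ‖ ^ 2)) atTop (𝓝 0) := by
  have hint := gauss_int (n := n) (2 * ε) (by positivity)
  have h := tendsto_setIntegral_of_antitone (μ := (volume : Measure (Cn n)))
    (s := fun R : ℕ => (closedBall (0 : Cn n) R)ᶜ) (f := fun ζ => Real.exp (-(2 * ε) * ‖ζ‖ ^ 2))
    (fun R => measurableSet_closedBall.compl)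
    (by
      intro R R' h
      apply compl_subset_compl.2
      exact closedBall_subset_closedBall (by exact_mod_cast h))
    ⟨0, hint.integrableOn⟩
  have he : ⋂ R : ℕ, (closedBall (0 : Cn n) R)ᶜ = ∅ := by
    rw [eq_empty_iff_forall_notMem]
    intro z hz
    obtain ⟨R, hR⟩ := exists_nat_ge ‖z‖
    have := mem_iInter.1 hz R
    simp at this
    linarith
  rw [he] at h
  simpa using h

end Pool.Agent.H805R2
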