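import Mathlib
import Pool.Agent.H805R2.Gauss

set_option autoImplicit false

open MeasureTheory Metric Set Filter Topology
open scoped ENNReal NNReal ContDiff

namespace Pool.Agent.H805R2

variable {n : ℕ}

/-- second order Taylor bound from above, uniformly on a compact set -/
lemma taylor_upper {u : Cn n → ℝ} (hu : ContDiff ℝ 2 u) {C : Set (Cn n)} (hC : IsCompact C)
    (ε : ℝ) (hε : 0 < ε) : ∃ r > 0, ∀ z ∈ C, ∀ ζ : Cn n, ‖ζ‖ ≤ r →
      u (z + ζ) ≤ u z + fderiv ℝ u z ζ + D2 u z ζ ζ / 2 + ε * ‖ζ‖ ^ 2 := by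
  have hd : ∀ y, DifferentiableAt ℝ u y := fun y => (hu.differentiable (by norm_num)).differentiableAt
  have hd2 : ∀ y, DifferentiableAt ℝ (fderiv ℝ u) y := fun y =>
    ((hu.fderiv_right (m := 1) (by norm_num)).differentiable (by norm_num)).differentiableAt
  have hcont : Continuous (fderiv ℝ (fderiv ℝ u)) :=
    ((hu.fderiv_right (m := 1) (by norm_num)).continuous_fderiv (by norm_num))
  have hr : {p : (Cn n →L[ℝ] Cn n →L[ℝ] ℝ) × (Cn n →L[ℝ] Cn n →L[ℝ] ℝ) | dist p.1 p.2 < ε} ∈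
      uniformity (Cn n →L[ℝ] Cn n →L[ℝ] ℝ) :=
    Metric.dist_mem_uniformity (α := Cn n →L[ℝ] Cn n →L[ℝ] ℝ) hε
  have huc := hC.uniformContinuousAt_of_continuousAt (fderiv ℝ (fderiv ℝ u))
    (fun a _ => hcont.continuousAt) hr
  obtain ⟨δ, hδ, hδ'⟩ := Metric.mem_uniformity_dist.1 huc
  refine ⟨δ / 2, by positivity, ?_⟩
  intro z hz ζ hζ
  have hB : ∀ τ ∈ Icc (0 : ℝ) 1, fderiv ℝ (fderiv ℝ u) (z + τ • ζ) ζ ζ ≤ D2 u z ζ ζ + ε * ‖ζ‖ ^ 2 := by
    intro τ hτ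
    have hdist : dist z (z + τ • ζ) < δ := by
      rw [dist_eq_norm]
      have : z - (z + τ • ζ) = -(τ • ζ) := by abel
      rw [this, norm_neg, norm_smul, Real.norm_eq_abs, abs_of_nonneg hτ.1]
      have := mul_le_mul_of_nonneg_right hτ.2 (norm_nonneg ζ)
      linarith
    have h1 : dist (fderiv ℝ (fderiv ℝ u) z) (fderiv ℝ (fderiv ℝ u) (z + τ • ζ)) < ε := by
      exact hδ' hdist hz
    rw [dist_comm] at h1
    have h1' : ‖fderiv ℝ (fderiv ℝ u) (z + τ • ζ) - fderiv ℝ (fderiv ℝ u) z‖ < ε :=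
      lt_of_eq_of_lt (dist_eq_norm (E := Cn n →L[ℝ] Cn n →L[ℝ] ℝ) _ _).symm h1
    have h2 : (fderiv ℝ (fderiv ℝ u) (z + τ • ζ) - fderiv ℝ (fderiv ℝ u) z) ζ ζ ≤ ε * ‖ζ‖ ^ 2 := by
      calc (fderiv ℝ (fderiv ℝ u) (z + τ • ζ) - fderiv ℝ (fderiv ℝ u) z) ζ ζ
          ≤ ‖(fderiv ℝ (fderiv ℝ u) (z + τ • ζ) - fderiv ℝ (fderiv ℝ u) z) ζ ζ‖ := le_abs_self _
        _ ≤ ‖fderiv ℝ (fderiv ℝ u) (z + τ • ζ) - fderiv ℝ (fderiv ℝ u) z‖ * ‖ζ‖ * ‖ζ‖ :=
            ContinuousLinearMap.le_opNorm₂ _ _ _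
        _ ≤ ε * ‖ζ‖ * ‖ζ‖ := by gcongr
        _ = ε * ‖ζ‖ ^ 2 := by ring
    rw [sub_apply, sub_apply] at h2
    unfold D2
    linarith
  -- first and second derivative along the segment
  set q : ℝ := D2 u z ζ ζ with hq
  set l : ℝ := fderiv ℝ u z ζ with hl
  have hline : ∀ τ : ℝ, HasDerivAt (fun τ : ℝ => z + τ • ζ) ζ τ := by
    intro τ
    simpa using ((hasDerivAt_id τ).smul_const ζ).const_add z
  set g : ℝ → ℝ := fun τ => u (z + τ • ζ) - u z - τ * l - τ ^ 2 * (q / 2 + ε * ‖ζ‖ ^ 2) with hg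
  set g1 : ℝ → ℝ := fun τ => fderiv ℝ u (z + τ • ζ) ζ - l - τ * (q + 2 * (ε * ‖ζ‖ ^ 2)) with hg1
  have hgd : ∀ τ, HasDerivAt g (g1 τ) τ := by
    intro τ
    have e1 : HasDerivAt (fun τ : ℝ => u (z + τ • ζ)) (fderiv ℝ u (z + τ • ζ) ζ) τ :=
      (hd (z + τ • ζ)).hasFDerivAt.comp_hasDerivAt τ (hline τ)
    have e2 : HasDerivAt (fun τ : ℝ => τ * l) l τ := by
      simpa using (hasDerivAt_id τ).mul_const l
    have e3 : HasDerivAt (fun τ : ℝ => τ ^ 2 * (q / 2 + ε * ‖ζ‖ ^ 2)) (τ * (q + 2 * (ε * ‖ζ‖ ^ 2))) τ := by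
      have := (hasDerivAt_pow 2 τ).mul_const (q / 2 + ε * ‖ζ‖ ^ 2)
      exact this.congr_deriv (by push_cast; ring)
    exact ((e1.sub_const (u z)).sub e2).sub e3
  have hg1d : ∀ τ, HasDerivAt g1 (fderiv ℝ (fderiv ℝ u) (z + τ • ζ) ζ ζ - (q + 2 * (ε * ‖ζ‖ ^ 2))) τ := by
    intro τ
    have e1 : HasDerivAt (fun τ : ℝ => fderiv ℝ u (z + τ • ζ)) (fderiv ℝ (fderiv ℝ u) (z + τ • ζ) ζ) τ :=
      (hd2 (z + τ • ζ)).hasFDerivAt.comp_hasDerivAt τ (hline τ)
    have e2 : HasDerivAt (fun τ : ℝ => fderiv ℝ u (z + τ • ζ) ζ) (fderiv ℝ (fderiv ℝ u) (z + τ • ζ) ζ ζ) τ := by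
      have := (ContinuousLinearMap.apply ℝ ℝ ζ).hasFDerivAt.comp_hasDerivAt τ e1
      exact this
    have e3 : HasDerivAt (fun τ : ℝ => τ * (q + 2 * (ε * ‖ζ‖ ^ 2))) (q + 2 * (ε * ‖ζ‖ ^ 2)) τ := by
      simpa using (hasDerivAt_id τ).mul_const (q + 2 * (ε * ‖ζ‖ ^ 2))
    exact (e2.sub_const l).sub e3
  have hanti1 : AntitoneOn g1 (Icc 0 1) := by
    apply antitoneOn_of_deriv_nonpos (convex_Icc 0 1)
      (fun τ _ => (hg1d τ).continuousAt.continuousWithinAt)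
      (fun τ _ => (hg1d τ).differentiableAt.differentiableWithinAt)
    intro τ hτ
    rw [(hg1d τ).deriv]
    rw [interior_Icc] at hτ
    have := hB τ ⟨hτ.1.le, hτ.2.le⟩
    have h0 : 0 ≤ ε * ‖ζ‖ ^ 2 := by positivity
    linarith
  have hg10 : g1 0 = 0 := by simp [hg1, hl]
  have hanti : AntitoneOn g (Icc 0 1) := by
    apply antitoneOn_of_deriv_nonpos (convex_Icc 0 1)
      (fun τ _ => (hgd τ).continuousAt.continuousWithinAt)
      (fun τ _ => (hgd τ).differentiableAt.differentiableWithinAt)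
    intro τ hτ
    rw [(hgd τ).deriv]
    rw [interior_Icc] at hτ
    have := hanti1 (left_mem_Icc.2 zero_le_one) ⟨hτ.1.le, hτ.2.le⟩ hτ.1.le
    rw [hg10] at this
    exact this
  have h := hanti (left_mem_Icc.2 zero_le_one) (right_mem_Icc.2 zero_le_one) zero_le_one
  have hg0 : g 0 = 0 := by simp [hg]
  rw [hg0] at h
  simp only [hg, one_smul, one_mul, one_pow] at h
  linarith

/-- rotation by a unimodular complex number -/
noncomputable def rot (c : ℂ) (hc : ‖c‖ = 1) : Cn n ≃ₗᵢ[ℝ] Cn n where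
  toLinearEquiv := (LinearEquiv.smulOfNeZero ℂ (Cn n) c (by
    rintro rfl; simp at hc)).restrictScalars ℝ
  norm_map' := fun x => by
    change ‖c • x‖ = ‖x‖
    rw [norm_smul, hc, one_mul]

lemma rot_apply (c : ℂ) (hc : ‖c‖ = 1) (x : Cn n) : rot c hc x = c • x := rfl

lemma rot_integral (Φ : Cn n → ℝ) (r : ℝ) (c : ℂ) (hc : ‖c‖ = 1) :
    ∫ ζ in closedBall (0 : Cn n) r, Φ (c • ζ) = ∫ ζ in closedBall (0 : Cn n) r, Φ ζ := by
  have hmp := (rot (n := n) c hc).measurePreserving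
  have h := hmp.setIntegral_preimage_emb (rot (n := n) c hc).toMeasurableEquiv.measurableEmbedding Φ
    (closedBall (0 : Cn n) r)
  have hpre : (rot (n := n) c hc) ⁻¹' (closedBall (0 : Cn n) r) = closedBall (0 : Cn n) r := by
    ext x
    simp
  rw [hpre] at h
  exact h

/-- integrating circle averages -/
lemma rot_avg (Φ lo : Cn n → ℝ) (hΦ : Continuous Φ) (hlo : Continuous lo) (r : ℝ)
    (h : ∀ ζ, lo ζ ≤ Real.circleAverage (fun w : ℂ => Φ (w • ζ)) 0 1) :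
    ∫ ζ in closedBall (0 : Cn n) r, lo ζ ≤ ∫ ζ in closedBall (0 : Cn n) r, Φ ζ := by
  have hcont : Continuous (fun p : Cn n × ℝ => Φ (circleMap 0 1 p.2 • p.1)) := by fun_prop
  have hswap : ∫ ζ in closedBall (0 : Cn n) r, ∫ θ in Ioc 0 (2 * Real.pi), Φ (circleMap 0 1 θ • ζ) =
      ∫ θ in Ioc 0 (2 * Real.pi), ∫ ζ in closedBall (0 : Cn n) r, Φ (circleMap 0 1 θ • ζ) := by
    apply integral_integral_swap
    have h1 : IntegrableOn (fun p : Cn n × ℝ => Φ (circleMap 0 1 p.2 • p.1))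
        (closedBall (0 : Cn n) r ×ˢ Icc 0 (2 * Real.pi)) :=
      hcont.continuousOn.integrableOn_compact ((isCompact_closedBall _ _).prod isCompact_Icc)
    have h2 := h1.mono_set (prod_mono_right Ioc_subset_Icc_self)
    rw [IntegrableOn, Measure.volume_eq_prod, ← Measure.prod_restrict] at h2
    exact h2
  have hpi := Real.pi_pos
  have hin : ∀ θ : ℝ, ∫ ζ in closedBall (0 : Cn n) r, Φ (circleMap 0 1 θ • ζ) =
      ∫ ζ in closedBall (0 : Cn n) r, Φ ζ := by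
    intro θ
    exact rot_integral Φ r _ (by simp)
  have hca : ∀ ζ, Real.circleAverage (fun w : ℂ => Φ (w • ζ)) 0 1 =
      (2 * Real.pi)⁻¹ * ∫ θ in Ioc 0 (2 * Real.pi), Φ (circleMap 0 1 θ • ζ) := by
    intro ζ
    rw [Real.circleAverage_def, smul_eq_mul, intervalIntegral.integral_of_le (by positivity)]
  have hcacont : Continuous (fun ζ => Real.circleAverage (fun w : ℂ => Φ (w • ζ)) 0 1) := by
    simp only [Real.circleAverage_def, smul_eq_mul]
    apply Continuous.mul continuous_const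
    apply intervalIntegral.continuous_parametric_intervalIntegral_of_continuous' (f := fun ζ θ => Φ (circleMap 0 1 θ • ζ))
    exact hcont
  calc ∫ ζ in closedBall (0 : Cn n) r, lo ζ
      ≤ ∫ ζ in closedBall (0 : Cn n) r, Real.circleAverage (fun w : ℂ => Φ (w • ζ)) 0 1 := by
        apply setIntegral_mono _ _ h
        · exact hlo.continuousOn.integrableOn_compact (isCompact_closedBall _ _)
        · exact hcacont.continuousOn.integrableOn_compact (isCompact_closedBall _ _)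
    _ = (2 * Real.pi)⁻¹ * ∫ ζ in closedBall (0 : Cn n) r, ∫ θ in Ioc 0 (2 * Real.pi), Φ (circleMap 0 1 θ • ζ) := by
        simp_rw [hca]
        rw [integral_const_mul]
    _ = (2 * Real.pi)⁻¹ * ∫ θ in Ioc 0 (2 * Real.pi), ∫ ζ in closedBall (0 : Cn n) r, Φ ζ := by
        rw [hswap]
        simp_rw [hin]
    _ = ∫ ζ in closedBall (0 : Cn n) r, Φ ζ := by
        rw [setIntegral_const]
        have : (volume : Measure ℝ).real (Ioc 0 (2 * Real.pi)) = 2 * Real.pi := by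
          rw [Measure.real, Real.volume_Ioc, sub_zero, ENNReal.toReal_ofReal (by positivity)]
        rw [this, smul_eq_mul, ← mul_assoc, inv_mul_cancel₀ (by positivity), one_mul]

/-- pointwise circle average inequality -/
lemma circle_lower (F : Cn n → ℂ) (z ζ : Cn n) (hF : Differentiable ℂ fun w : ℂ => F (z + w • ζ))
    (L : Cn n →L[ℝ] ℝ) (B : Cn n →L[ℝ] Cn n →L[ℝ] ℝ) (hB : ∀ x y, B x y = B y x) (σ ε : ℝ) :
    ‖F z‖ ^ 2 * Real.exp (-2 * σ * ((B ζ ζ + B (Complex.I • ζ) (Complex.I • ζ)) / 4 + ε * ‖ζ‖ ^ 2)) ≤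
      Real.circleAverage (fun w : ℂ => ‖F (z + w • ζ)‖ ^ 2 *
        Real.exp (-2 * σ * (L (w • ζ) + B (w • ζ) (w • ζ) / 2 + ε * ‖w • ζ‖ ^ 2))) 0 1 := by
  set ll : ℂ := (L ζ : ℂ) - Complex.I * (L (Complex.I • ζ) : ℝ) with hll
  set qq : ℂ := (((B ζ ζ - B (Complex.I • ζ) (Complex.I • ζ)) / 4 : ℝ) : ℂ) -
    Complex.I * ((B ζ (Complex.I • ζ) / 2 : ℝ) : ℂ) with hqq
  set c0 : ℝ := Real.exp (-2 * σ * ((B ζ ζ + B (Complex.I • ζ) (Complex.I • ζ)) / 4 + ε * ‖ζ‖ ^ 2)) with hc0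
  set G : ℂ → ℂ := fun w => (F (z + w • ζ) * Complex.exp (-σ * (ll * w + qq * w ^ 2))) ^ 2 with hG
  have hGd : Differentiable ℂ G := by
    apply Differentiable.pow
    apply hF.mul
    fun_prop
  have hmean : Real.circleAverage G 0 1 = G 0 :=
    DiffContOnCl.circleAverage (hGd.diffContOnCl)
  have hG0 : ‖G 0‖ = ‖F z‖ ^ 2 := by
    simp [hG]
  have hnorm : ‖Real.circleAverage G 0 1‖ ≤ Real.circleAverage (fun w => ‖G w‖) 0 1 := by
    rw [Real.circleAverage_def, Real.circleAverage_def, norm_smul, smul_eq_mul]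
    have hpi := Real.pi_pos
    rw [Real.norm_eq_abs, abs_of_pos (by positivity)]
    apply mul_le_mul_of_nonneg_left _ (by positivity)
    exact intervalIntegral.norm_integral_le_integral_norm (by positivity)
  have heq : EqOn (fun w : ℂ => ‖F (z + w • ζ)‖ ^ 2 *
        Real.exp (-2 * σ * (L (w • ζ) + B (w • ζ) (w • ζ) / 2 + ε * ‖w • ζ‖ ^ 2)))
      (fun w => c0 • ‖G w‖) (sphere 0 |1|) := by
    intro w hw
    have hw1 : ‖w‖ = 1 := by simpa using hw
    have hw2 : w.re ^ 2 + w.im ^ 2 = 1 := by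
      have := Complex.sq_norm w
      rw [hw1, Complex.normSq_apply] at this
      nlinarith
    have e1 : L (w • ζ) = (ll * w).re := by
      rw [smul_dec w ζ, map_add, map_smul, map_smul, hll]
      simp
      ring
    have e2 : B (w • ζ) (w • ζ) / 2 = (B ζ ζ + B (Complex.I • ζ) (Complex.I • ζ)) / 4 + (qq * w ^ 2).re := by
      rw [smul_dec w ζ]
      simp only [map_add, map_smul, add_apply, smul_apply, smul_eq_mul]
      rw [hB (Complex.I • ζ) ζ]
      have e3 : (qq * w ^ 2).re = (B ζ ζ - B (Complex.I • ζ) (Complex.I • ζ)) / 4 * (w.re ^ 2 - w.im ^ 2) +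
          B ζ (Complex.I • ζ) / 2 * (2 * w.re * w.im) := by
        rw [hqq, pow_two]
        simp only [Complex.mul_re, Complex.sub_re, Complex.ofReal_re, Complex.I_re, Complex.I_im,
          Complex.ofReal_im, Complex.sub_im, Complex.mul_im]
        ring
      rw [e3]
      linear_combination (B ζ ζ + B (Complex.I • ζ) (Complex.I • ζ)) / 4 * hw2
    have e4 : ‖w • ζ‖ = ‖ζ‖ := by rw [norm_smul, hw1, one_mul]
    simp only [smul_eq_mul]
    rw [e1, e2, e4, hG]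
    simp only
    rw [norm_pow, norm_mul, mul_pow, Complex.norm_exp, hc0, ← Real.exp_nat_mul]
    have e5 : (-(σ : ℂ) * (ll * w + qq * w ^ 2)).re = -σ * ((ll * w).re + (qq * w ^ 2).re) := by
      rw [← Complex.ofReal_neg, Complex.re_ofReal_mul, Complex.add_re]
    rw [e5]
    have e6 : Real.exp (-2 * σ * ((ll * w).re + ((B ζ ζ + B (Complex.I • ζ) (Complex.I • ζ)) / 4 +
        (qq * w ^ 2).re) + ε * ‖ζ‖ ^ 2)) =
        Real.exp (-2 * σ * ((B ζ ζ + B (Complex.I • ζ) (Complex.I • ζ)) / 4 + ε * ‖ζ‖ ^ 2)) *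
        Real.exp ((2 : ℕ) * (-σ * ((ll * w).re + (qq * w ^ 2).re))) := by
      rw [← Real.exp_add]
      congr 1
      push_cast
      ring
    rw [e6]
    ring
  rw [Real.circleAverage_congr_sphere heq, Real.circleAverage_fun_smul, smul_eq_mul,
    mul_comm (‖F z‖ ^ 2)]
  apply mul_le_mul_of_nonneg_left _ (Real.exp_pos _).le
  rw [← hG0, ← hmean]
  exact hnorm

end Pool.Agent.H805R2
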