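import Mathlib
import Pool.Agent.H805R2.Local1

set_option autoImplicit false

open MeasureTheory Metric Set Filter Topology
open scoped ENNReal NNReal ContDiff Pointwise

namespace Pool.Agent.H805R2

variable {n : ℕ}

lemma hess_continuous {u : Cn n → ℝ} (hu : ContDiff ℝ 2 u) : Continuous (hess u) := by
  have hcont : Continuous (fderiv ℝ (fderiv ℝ u)) :=
    ((hu.fderiv_right (m := 1) (by norm_num)).continuous_fderiv (by norm_num))
  apply continuous_matrix
  intro j k
  have h1 : (fun z => hess u z j k) = fun z => sesq (fderiv ℝ (fderiv ℝ u) z) (bas j) (bas k) := by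
    funext z; exact hess_eq_sesq hu z j k
  rw [h1]
  simp only [sesq]
  fun_prop

/-- scaling of a Gaussian over a ball -/
lemma scale_ball (A : Matrix (Fin n) (Fin n) ℂ) (σ R : ℝ) (hσ : 0 < σ) :
    ∫ ζ in closedBall (0 : Cn n) (R / √σ), Real.exp (-2 * σ * QF A ζ) =
      (σ ^ n)⁻¹ * ∫ ζ in closedBall (0 : Cn n) R, Real.exp (-2 * QF A ζ) := by
  have hs : 0 < √σ := Real.sqrt_pos.2 hσ
  have hQ : ∀ ζ : Cn n, QF A (√σ • ζ) = σ * QF A ζ := by
    intro ζ
    unfold QF Gram.qf
    have e1 : (fun j => star ((√σ • ζ) j)) = ((√σ : ℝ) : ℂ) • (fun j => star (ζ j)) := by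
      funext j
      simp
    rw [e1, star_smul, Matrix.mulVec_smul, smul_dotProduct, dotProduct_smul, smul_eq_mul, smul_eq_mul,
      Complex.star_def, Complex.conj_ofReal, ← mul_assoc, ← Complex.ofReal_mul,
      Real.mul_self_sqrt hσ.le, Complex.re_ofReal_mul]
    rfl
  have h := Measure.setIntegral_comp_smul_of_pos (volume : Measure (Cn n))
    (fun ζ => Real.exp (-2 * QF A ζ)) (closedBall (0 : Cn n) (R / √σ)) hs
  have hfr : Module.finrank ℝ (Cn n) = 2 * n := by
    rw [finrank_real_of_complex, finrank_euclideanSpace_fin]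
  have hball : √σ • closedBall (0 : Cn n) (R / √σ) = closedBall (0 : Cn n) R := by
    rw [smul_closedBall' hs.ne', smul_zero, Real.norm_eq_abs, abs_of_pos hs, mul_div_cancel₀ _ hs.ne']
  rw [hfr, hball, pow_mul, Real.sq_sqrt hσ.le, smul_eq_mul] at h
  rw [← h]
  congr 1
  funext ζ
  rw [hQ]
  congr 1
  ring

open scoped ComplexOrder in
/-- **Local Bergman kernel bound** -/
theorem local_bergman {u : Cn n → ℝ} (hu : ContDiff ℝ 2 u) {U C : Set (Cn n)} (hU : IsOpen U)
    (hC : IsCompact C) (hCU : C ⊆ U) (hpsh : ∀ z ∈ C, (hess u z).PosSemidef) (κ : ℝ) (hκ : 0 < κ) :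
    ∃ σ0 > 0, ∀ σ ≥ σ0, ∀ z ∈ C, ∀ F : Cn n → ℂ, Continuous F →
      (∀ ζ : Cn n, Differentiable ℂ fun w : ℂ => F (z + w • ζ)) →
      IntegrableOn (fun y => ‖F y‖ ^ 2 * Real.exp (-2 * σ * u y)) U →
      ‖F z‖ ^ 2 * Real.exp (-2 * σ * u z) ≤
        σ ^ n * ((2 / Real.pi) ^ n * (hess u z).det.re + κ) *
          ∫ y in U, ‖F y‖ ^ 2 * Real.exp (-2 * σ * u y) := by
  have hpi := Real.pi_pos
  set P : ℝ := (Real.pi / 2) ^ n with hP
  have hP0 : 0 < P := by positivity
  have hPinv : (2 / Real.pi) ^ n = P⁻¹ := by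
    rw [hP, ← inv_pow, inv_div]
  -- the determinant as a continuous function
  set D : ℝ × Cn n → ℝ := fun p => (hess u p.2 + (p.1 : ℂ) • (1 : Matrix (Fin n) (Fin n) ℂ)).det.re with hD
  have hDc : Continuous D := by
    have h1 := hess_continuous hu
    have h2 : Continuous fun p : ℝ × Cn n => hess u p.2 + (p.1 : ℂ) • (1 : Matrix (Fin n) (Fin n) ℂ) := by
      apply Continuous.add (h1.comp continuous_snd)
      exact (Complex.continuous_ofReal.comp continuous_fst).smul continuous_const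
    exact Complex.continuous_re.comp h2.matrix_det
  obtain ⟨M, hM⟩ := ((isCompact_Icc (a := (0 : ℝ)) (b := 1)).prod hC).exists_bound_of_continuousOn
    hDc.continuousOn
  set M' : ℝ := |M| + 1 with hM'
  have hM'0 : 0 < M' := by positivity
  -- choice of ε
  have hK0 : IsCompact (({0} : Set ℝ) ×ˢ C) := isCompact_singleton.prod hC
  set κ1 : ℝ := P * κ / 2 with hκ1
  have hκ10 : 0 < κ1 := by positivity
  have huc := hK0.uniformContinuousAt_of_continuousAt D (fun a _ => hDc.continuousAt)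
    (Metric.dist_mem_uniformity hκ10)
  obtain ⟨δ, hδ, hδ'⟩ := Metric.mem_uniformity_dist.1 huc
  set ε : ℝ := min (δ / 2) 1 with hε
  have hε0 : 0 < ε := by positivity
  have hε1 : ε ≤ 1 := min_le_right _ _
  have hDε : ∀ z ∈ C, D (ε, z) ≤ D (0, z) + κ1 := by
    intro z hz
    have hd : dist ((0 : ℝ), z) (ε, z) < δ := by
      rw [Prod.dist_eq, dist_self, max_lt_iff]
      refine ⟨?_, hδ⟩
      simp only [Real.dist_eq, zero_sub, abs_neg, abs_of_pos hε0]
      exact lt_of_le_of_lt (min_le_left _ _) (by linarith)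
    have h1 : dist (D (0, z)) (D (ε, z)) < κ1 := hδ' hd ⟨rfl, hz⟩
    rw [Real.dist_eq] at h1
    have := (abs_lt.1 h1).1
    linarith
  -- choice of R
  set τ : ℕ → ℝ := fun R : ℕ => ∫ ζ in (closedBall (0 : Cn n) R)ᶜ, Real.exp (-(2 * ε) * ‖ζ‖ ^ 2) with hτ
  have hτ0 : Tendsto τ atTop (𝓝 0) := gauss_tail ε hε0
  have hτnn : ∀ R, 0 ≤ τ R := fun R => integral_nonneg fun ζ => (Real.exp_pos _).le
  set η : ℝ := (κ / 2 * (P / M')) / (P⁻¹ * M' + κ / 2) with hη
  have hη0 : 0 < η := by positivity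
  obtain ⟨R, hR⟩ := (hτ0.eventually (gt_mem_nhds hη0)).exists
  -- Taylor and the ball
  obtain ⟨r1, hr1, htay⟩ := taylor_upper hu hC ε hε0
  obtain ⟨r2, hr2, hsub⟩ := hC.exists_cthickening_subset_open hU hCU
  set r0 := min r1 r2 with hr0
  have hr00 : 0 < r0 := lt_min hr1 hr2
  set σ0 : ℝ := ((R : ℝ) / r0) ^ 2 + 1 with hσ0
  refine ⟨σ0, by positivity, ?_⟩
  intro σ hσ z hz F hFc hFd hFi
  have hσpos : 0 < σ := lt_of_lt_of_le (by positivity) hσ
  have hs : 0 < √σ := Real.sqrt_pos.2 hσpos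
  have hrle : (R : ℝ) / √σ ≤ r0 := by
    rw [div_le_iff₀ hs, ← div_le_iff₀' hr00]
    apply Real.le_sqrt_of_sq_le
    linarith
  set r : ℝ := (R : ℝ) / √σ with hr
  have hrnn : 0 ≤ r := by positivity
  have hballU : closedBall z r ⊆ U := by
    refine Subset.trans ?_ hsub
    refine Subset.trans (closedBall_subset_closedBall (hrle.trans (min_le_right _ _))) ?_
    exact closedBall_subset_cthickening hz _
  -- the matrix
  set A : Matrix (Fin n) (Fin n) ℂ := hess u z + (ε : ℂ) • 1 with hA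
  have hAQ : ∀ ζ, QF A ζ = levi u z ζ + ε * ‖ζ‖ ^ 2 := by
    intro ζ
    rw [hA, QF_add_smul_one, QF_levi hu]
  have hlevi : ∀ ζ, 0 ≤ levi u z ζ := (hess_posSemidef_iff hu z).1 (hpsh z hz)
  have hApd : A.PosDef := by
    apply Matrix.PosDef.posSemidef_add (hpsh z hz)
    apply Matrix.PosDef.smul Matrix.PosDef.one
    exact_mod_cast hε0
  have hAdet : 0 < A.det.re := (Complex.pos_iff.1 hApd.det_pos).1
  have hAdetD : A.det.re = D (ε, z) := rfl
  have hAM : A.det.re ≤ M' := by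
    have h1 := hM (ε, z) ⟨⟨hε0.le, hε1⟩, hz⟩
    rw [Real.norm_eq_abs] at h1
    rw [hAdetD, hM']
    have h2 := le_abs_self (D (ε, z))
    have h3 := le_abs_self M
    linarith
  have hD0 : D (0, z) = (hess u z).det.re := by
    simp [hD]
  -- lower bound for the integral
  set I1 : ℝ := ∫ ζ in closedBall (0 : Cn n) R, Real.exp (-2 * QF A ζ) with hI1
  have hI1lo : P / A.det.re - η ≤ I1 := by
    have h1 := gauss_ball A hApd ε hε0 (fun ζ => by rw [hAQ]; have := hlevi ζ; linarith) R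
    have h2 : τ R ≤ η := hR.le
    simp only [hτ] at h2
    rw [hI1]
    linarith
  have hkey : 1 ≤ (P⁻¹ * (hess u z).det.re + κ) * I1 := by
    have e1 : P⁻¹ * A.det.re + κ / 2 ≤ P⁻¹ * (hess u z).det.re + κ := by
      have h1 := hDε z hz
      rw [← hAdetD, hD0] at h1
      have h2 : P⁻¹ * A.det.re ≤ P⁻¹ * ((hess u z).det.re + κ1) :=
        mul_le_mul_of_nonneg_left h1 (by positivity)
      have h3 : P⁻¹ * κ1 = κ / 2 := by rw [hκ1]; field_simp
      rw [mul_add, h3] at h2
      linarith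
    have hηP : η * (P⁻¹ * A.det.re + κ / 2) ≤ κ / 2 * (P / A.det.re) := by
      calc η * (P⁻¹ * A.det.re + κ / 2) ≤ η * (P⁻¹ * M' + κ / 2) := by gcongr
        _ = κ / 2 * (P / M') := by rw [hη]; field_simp
        _ ≤ κ / 2 * (P / A.det.re) := by gcongr
    have hI1pos : 0 ≤ I1 := integral_nonneg fun ζ => (Real.exp_pos _).le
    have e2 : 1 ≤ (P⁻¹ * A.det.re + κ / 2) * I1 := by
      have h1 : (P⁻¹ * A.det.re + κ / 2) * (P / A.det.re - η) ≤ (P⁻¹ * A.det.re + κ / 2) * I1 :=
        mul_le_mul_of_nonneg_left hI1lo (by positivity)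
      have h2 : (P⁻¹ * A.det.re + κ / 2) * (P / A.det.re - η) =
          1 + κ / 2 * (P / A.det.re) - η * (P⁻¹ * A.det.re + κ / 2) := by
        field_simp
      linarith
    calc (1 : ℝ) ≤ (P⁻¹ * A.det.re + κ / 2) * I1 := e2
      _ ≤ _ := mul_le_mul_of_nonneg_right e1 hI1pos
  -- the chain of inequalities
  set L : Cn n →L[ℝ] ℝ := fderiv ℝ u z with hL
  set B : Cn n →L[ℝ] Cn n →L[ℝ] ℝ := fderiv ℝ (fderiv ℝ u) z with hB
  have hBsymm : ∀ x y, B x y = B y x := by
    have hsymm : IsSymmSndFDerivAt ℝ u z := hu.contDiffAt.isSymmSndFDerivAt (by simp)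
    exact fun x y => hsymm.eq x y
  set Φ : Cn n → ℝ := fun ζ => ‖F (z + ζ)‖ ^ 2 * Real.exp (-2 * σ * (L ζ + B ζ ζ / 2 + ε * ‖ζ‖ ^ 2)) with hΦ
  have hΦc : Continuous Φ := by
    have h1 : Continuous fun ζ : Cn n => B ζ ζ := by fun_prop
    fun_prop
  have hstep1 : ‖F z‖ ^ 2 * ((σ ^ n)⁻¹ * I1) ≤ ∫ ζ in closedBall (0 : Cn n) r, Φ ζ := by
    have h1 : ∫ ζ in closedBall (0 : Cn n) r, ‖F z‖ ^ 2 * Real.exp (-2 * σ * QF A ζ) ≤
        ∫ ζ in closedBall (0 : Cn n) r, Φ ζ := by
      apply rot_avg Φ _ hΦc _ r _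
      · have h2 : Continuous fun ζ : Cn n => QF A ζ := by
          have : (fun ζ : Cn n => QF A ζ) = fun ζ => levi u z ζ + ε * ‖ζ‖ ^ 2 := by
            funext ζ; exact hAQ ζ
          rw [this]
          simp only [levi, D2]
          fun_prop
        fun_prop
      · intro ζ
        have h2 := circle_lower F z ζ (hFd ζ) L B hBsymm σ ε
        rw [hAQ]
        exact h2
    rw [integral_const_mul, scale_ball A σ R hσpos] at h1
    exact h1
  have hstep2 : Real.exp (-2 * σ * u z) * ∫ ζ in closedBall (0 : Cn n) r, Φ ζ ≤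
      ∫ y in U, ‖F y‖ ^ 2 * Real.exp (-2 * σ * u y) := by
    calc Real.exp (-2 * σ * u z) * ∫ ζ in closedBall (0 : Cn n) r, Φ ζ
        = ∫ ζ in closedBall (0 : Cn n) r, Real.exp (-2 * σ * u z) * Φ ζ := by rw [integral_const_mul]
      _ ≤ ∫ ζ in closedBall (0 : Cn n) r, ‖F (z + ζ)‖ ^ 2 * Real.exp (-2 * σ * u (z + ζ)) := by
          apply setIntegral_mono_on _ _ measurableSet_closedBall
          · intro ζ hζ
            have hζ' : ‖ζ‖ ≤ r := by simpa using hζ
            have h1 := htay z hz ζ (hζ'.trans (hrle.trans (min_le_left _ _)))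
            simp only [hΦ]
            rw [mul_left_comm]
            apply mul_le_mul_of_nonneg_left _ (by positivity)
            rw [← Real.exp_add]
            apply Real.exp_le_exp.2
            have h2 : u (z + ζ) ≤ u z + (L ζ + B ζ ζ / 2 + ε * ‖ζ‖ ^ 2) := by
              have : D2 u z ζ ζ = B ζ ζ := rfl
              rw [this] at h1
              linarith
            nlinarith
          · exact (hΦc.const_mul _).continuousOn.integrableOn_compact (isCompact_closedBall _ _)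
          · have hc : Continuous u := hu.continuous
            have : Continuous fun ζ : Cn n => ‖F (z + ζ)‖ ^ 2 * Real.exp (-2 * σ * u (z + ζ)) := by fun_prop
            exact this.continuousOn.integrableOn_compact (isCompact_closedBall _ _)
      _ = ∫ y in closedBall z r, ‖F y‖ ^ 2 * Real.exp (-2 * σ * u y) := by
          have hmp : MeasurePreserving (fun ζ : Cn n => z + ζ) volume volume :=
            measurePreserving_add_left volume z
          have h1 := hmp.setIntegral_preimage_emb (MeasurableEquiv.addLeft z).measurableEmbedding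
            (fun y => ‖F y‖ ^ 2 * Real.exp (-2 * σ * u y)) (closedBall z r)
          have h2 : (fun ζ : Cn n => z + ζ) ⁻¹' closedBall z r = closedBall (0 : Cn n) r := by
            ext ζ; simp [dist_eq_norm]
          rw [h2] at h1
          exact h1
      _ ≤ ∫ y in U, ‖F y‖ ^ 2 * Real.exp (-2 * σ * u y) := by
          apply setIntegral_mono_set hFi
          · exact Eventually.of_forall fun y => by positivity
          · exact Filter.Eventually.of_forall hballU
  rw [hPinv]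
  have hint0 : 0 ≤ ∫ y in U, ‖F y‖ ^ 2 * Real.exp (-2 * σ * u y) :=
    integral_nonneg fun y => by positivity
  have hdet0 : 0 ≤ (hess u z).det.re := (Complex.nonneg_iff.1 (hpsh z hz).det_nonneg).1
  have hc0 : 0 ≤ P⁻¹ * (hess u z).det.re + κ := by positivity
  have hcomb : ‖F z‖ ^ 2 * Real.exp (-2 * σ * u z) * ((σ ^ n)⁻¹ * I1) ≤
      ∫ y in U, ‖F y‖ ^ 2 * Real.exp (-2 * σ * u y) := by
    refine le_trans ?_ hstep2
    calc ‖F z‖ ^ 2 * Real.exp (-2 * σ * u z) * ((σ ^ n)⁻¹ * I1)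
        = Real.exp (-2 * σ * u z) * (‖F z‖ ^ 2 * ((σ ^ n)⁻¹ * I1)) := by ring
      _ ≤ _ := mul_le_mul_of_nonneg_left hstep1 (Real.exp_pos _).le
  calc ‖F z‖ ^ 2 * Real.exp (-2 * σ * u z)
      ≤ (‖F z‖ ^ 2 * Real.exp (-2 * σ * u z)) * ((P⁻¹ * (hess u z).det.re + κ) * I1) :=
        le_mul_of_one_le_right (by positivity) hkey
    _ = σ ^ n * (P⁻¹ * (hess u z).det.re + κ) *
        (‖F z‖ ^ 2 * Real.exp (-2 * σ * u z) * ((σ ^ n)⁻¹ * I1)) := by
        field_simp
    _ ≤ _ := mul_le_mul_of_nonneg_left hcomb (by positivity)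

end Pool.Agent.H805R2
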