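import Mathlib
import Pool.Agent.H805R2.IBP
import Pool.Agent.H805R2.Local2

set_option autoImplicit false
set_option maxHeartbeats 1000000

open MeasureTheory Metric Set Filter Topology
open scoped ENNReal NNReal ContDiff Interval

namespace Pool.Agent.H805R2

variable {n : ℕ}

lemma hess_add_smul (b c : Cn n → ℝ) (hb : ContDiff ℝ ∞ b) (hc : ContDiff ℝ ∞ c) (τ : ℝ) (z : Cn n) :
    hess (fun z => b z + τ * c z) z = hess b z + (τ : ℂ) • hess c z := by
  have hs : ContDiff ℝ ∞ (fun z => b z + τ * c z) := hb.add (contDiff_const.mul hc)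
  have h1 : toSm (fun z => b z + τ * c z) hs = toSm b hb + (τ : ℂ) • toSm c hc := by
    apply fn_ext
    intro y
    rw [fn_add, fn_smul, fn_toSm, fn_toSm, fn_toSm]
    push_cast; ring
  rw [← HR_map _ hs, ← HR_map _ hb, ← HR_map _ hc, h1]
  ext j k
  simp only [Matrix.map_apply, Matrix.add_apply, Matrix.smul_apply, HR, Matrix.of_apply, map_add,
    Derivation.map_smul, evz_apply, fn_add, fn_smul, smul_eq_mul]

open Polynomial in
lemma det_path (A B : Matrix (Fin n) (Fin n) ℂ) (τ : ℂ) :
    HasDerivAt (fun τ : ℂ => (A + τ • B).det) (((A + τ • B).adjugate * B).trace) τ := by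
  set M : Matrix (Fin n) (Fin n) ℂ[X] := A.map C + (X : ℂ[X]) • B.map C with hM
  have hev : ∀ s : ℂ, M.map (evalRingHom s) = A + s • B := by
    intro s
    ext i j
    simp [hM]
    exact mul_comm _ _
  have h1 : ∀ s : ℂ, M.det.eval s = (A + s • B).det := by
    intro s
    rw [← hev s, ← RingHom.mapMatrix_apply, ← RingHom.map_det]
    rfl
  have hd := deriv_det_adj (derivative' : Derivation ℂ ℂ[X] ℂ[X]) M
  have h2 : (derivative M.det).eval τ = ((A + τ • B).adjugate * B).trace := by
    have h3 : derivative M.det = ∑ j, ∑ k, M.adjugate k j * derivative (M j k) := hd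
    rw [h3, eval_finsetSum, Matrix.trace_mul_comm, Matrix.trace]
    apply Finset.sum_congr rfl
    intro j _
    rw [eval_finsetSum, Matrix.diag_apply, Matrix.mul_apply]
    apply Finset.sum_congr rfl
    intro k _
    rw [eval_mul, mul_comm]
    congr 1
    · simp [hM]
    · rw [← hev τ, ← RingHom.mapMatrix_apply, ← RingHom.map_adjugate]
      rfl
  have h4 := M.det.hasDerivAt τ
  rw [h2] at h4
  exact h4.congr_of_eventuallyEq (Eventually.of_forall fun s => (h1 s).symm)

lemma det_path_real (A B : Matrix (Fin n) (Fin n) ℂ) (τ : ℝ) :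
    HasDerivAt (fun τ : ℝ => (A + (τ : ℂ) • B).det.re) (((A + (τ : ℂ) • B).adjugate * B).trace.re) τ :=
  (det_path A B τ).real_of_complex

open scoped ComplexOrder in
lemma trace_adj_nonneg (P Q : Matrix (Fin n) (Fin n) ℂ) (hP : P.PosSemidef) (hQ : Q.PosSemidef) :
    0 ≤ ((P.adjugate * Q).trace).re := by
  have hd := det_path_real P Q 0
  simp only [Complex.ofReal_zero, zero_smul, add_zero] at hd
  have hmono : ∀ τ : ℝ, 0 < τ → P.det.re ≤ (P + (τ : ℂ) • Q).det.re := by
    intro τ hτ
    have hτQ : ((τ : ℂ) • Q).PosSemidef := hQ.smul (by exact_mod_cast hτ.le)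
    have hsum : (P + (τ : ℂ) • Q).PosSemidef := hP.add hτQ
    by_cases h : P.det = 0
    · rw [h, Complex.zero_re]
      exact (Complex.nonneg_iff.1 hsum.det_nonneg).1
    · have hPd : P.PosDef := (hP.posDef_iff_det_ne_zero).2 h
      have hsd : (P + (τ : ℂ) • Q).PosDef := hPd.add_posSemidef hτQ
      apply Gram.det_mono _ _ hsd hP
      intro c
      unfold Gram.qf
      rw [Matrix.add_mulVec, dotProduct_add, Complex.add_re]
      have := (Complex.nonneg_iff.1 (hτQ.dotProduct_mulVec_nonneg c)).1
      linarith
  rw [hasDerivAt_iff_tendsto_slope] at hd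
  have hd' := hd.mono_left (nhdsWithin_mono (0 : ℝ) (fun x (hx : x ∈ Ioi (0 : ℝ)) => ne_of_gt hx))
  apply ge_of_tendsto hd'
  filter_upwards [self_mem_nhdsWithin] with τ hτ
  rw [slope_def_field]
  apply div_nonneg _ (by simpa using le_of_lt hτ)
  simp only [Complex.ofReal_zero, zero_smul, add_zero]
  have := hmono τ hτ
  linarith

lemma ss_le : (2 : WithTop ℕ∞) ≤ (∞ : WithTop ℕ∞) := ENat.LEInfty.out

/-- the path formula -/
theorem path_formula (b c g : Cn n → ℝ) (hb : ContDiff ℝ ∞ b) (hc : ContDiff ℝ ∞ c) (hg : ContDiff ℝ ∞ g)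
    (hcs : HasCompactSupport c) :
    ∫ z, g z * ((hess (fun z => b z + c z) z).det.re - (hess b z).det.re) =
      ∫ τ in (0 : ℝ)..1, ∫ z, c z * (((hess b z + (τ : ℂ) • hess c z).adjugate * hess g z).trace).re := by
  have hbc := hess_continuous (hb.of_le ss_le)
  have hcc := hess_continuous (hc.of_le ss_le)
  have hgc := hess_continuous (hg.of_le ss_le)
  -- the integrand
  set Ψ : Cn n → ℝ → ℝ := fun z τ =>
    g z * (((hess b z + (τ : ℂ) • hess c z).adjugate * hess c z).trace).re with hΨ
  have hΨc : Continuous (fun p : Cn n × ℝ => Ψ p.1 p.2) := by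
    have h1 : Continuous fun p : Cn n × ℝ => hess b p.1 + (p.2 : ℂ) • hess c p.1 :=
      (hbc.comp continuous_fst).add
        ((Complex.continuous_ofReal.comp continuous_snd).smul (hcc.comp continuous_fst))
    have h2 : Continuous fun p : Cn n × ℝ =>
        ((hess b p.1 + (p.2 : ℂ) • hess c p.1).adjugate * hess c p.1).trace :=
      (h1.matrix_adjugate.matrix_mul (hcc.comp continuous_fst)).matrix_trace
    exact (hg.continuous.comp continuous_fst).mul (Complex.continuous_re.comp h2)
  have hhc : ∀ z, z ∉ tsupport c → hess c z = 0 := by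
    intro z hz
    have : c =ᶠ[𝓝 z] fun _ => 0 := notMem_tsupport_iff_eventuallyEq.1 hz
    have h2 : fderiv ℝ c =ᶠ[𝓝 z] fun _ => 0 := by
      have := this.fderiv (𝕜 := ℝ)
      refine this.trans (Eventually.of_forall fun y => ?_)
      exact fderiv_const_apply _
    have h3 : fderiv ℝ (fderiv ℝ c) z = 0 := by
      rw [h2.fderiv_eq]
      exact fderiv_const_apply _
    ext j k
    rw [hess_eq_sesq (hc.of_le ss_le), h3]
    simp [sesq]
  have hΨ0 : ∀ z, z ∉ tsupport c → ∀ τ, Ψ z τ = 0 := by
    intro z hz τ
    simp only [hΨ]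
    rw [hhc z hz]
    simp
  set K := tsupport c with hK
  have hKc : IsCompact K := hcs
  -- pointwise fundamental theorem of calculus
  have hftc : ∀ z, g z * ((hess (fun z => b z + c z) z).det.re - (hess b z).det.re) =
      ∫ τ in (0 : ℝ)..1, Ψ z τ := by
    intro z
    have h1 : ∫ τ in (0 : ℝ)..1, (((hess b z + (τ : ℂ) • hess c z).adjugate * hess c z).trace).re =
        (hess b z + ((1 : ℝ) : ℂ) • hess c z).det.re - (hess b z + ((0 : ℝ) : ℂ) • hess c z).det.re := by
      apply intervalIntegral.integral_eq_sub_of_hasDerivAt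
        (f := fun τ : ℝ => (hess b z + (τ : ℂ) • hess c z).det.re)
      · intro τ _
        exact det_path_real _ _ τ
      · apply Continuous.intervalIntegrable
        have h1 : Continuous fun τ : ℝ => hess b z + (τ : ℂ) • hess c z :=
          continuous_const.add (Complex.continuous_ofReal.smul continuous_const)
        exact Complex.continuous_re.comp ((h1.matrix_adjugate.matrix_mul continuous_const).matrix_trace)
    have h2 : hess (fun z => b z + c z) z = hess b z + ((1 : ℝ) : ℂ) • hess c z := by
      have := hess_add_smul b c hb hc 1 z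
      simpa using this
    rw [h2, hΨ]
    simp only
    rw [intervalIntegral.integral_const_mul, h1]
    simp
  simp_rw [hftc]
  -- swap the integrals
  have hres : ∀ f : Cn n → ℝ, (∀ z, z ∉ K → f z = 0) → ∫ z, f z = ∫ z in K, f z := by
    intro f hf
    exact (setIntegral_eq_integral_of_forall_compl_eq_zero hf).symm
  have hswap : ∫ z in K, ∫ τ in Ioc (0 : ℝ) 1, Ψ z τ = ∫ τ in Ioc (0 : ℝ) 1, ∫ z in K, Ψ z τ := by
    apply integral_integral_swap
    have h1 : IntegrableOn (fun p : Cn n × ℝ => Ψ p.1 p.2) (K ×ˢ Icc (0 : ℝ) 1) :=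
      hΨc.continuousOn.integrableOn_compact (hKc.prod isCompact_Icc)
    have h2 := h1.mono_set (prod_mono_right Ioc_subset_Icc_self)
    rw [IntegrableOn, Measure.volume_eq_prod, ← Measure.prod_restrict] at h2
    exact h2
  simp_rw [intervalIntegral.integral_of_le zero_le_one]
  rw [hres _ (fun z hz => by simp_rw [hΨ0 z hz]; simp), hswap]
  congr 1
  funext τ
  rw [← hres _ (fun z hz => hΨ0 z hz τ)]
  -- integrate by parts
  have hbτ : ContDiff ℝ ∞ (fun z => b z + τ * c z) := hb.add (contDiff_const.mul hc)
  have hibp := ibp (fun z => b z + τ * c z) c g hbτ hc hg hcs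
  simp_rw [hess_add_smul b c hb hc τ] at hibp
  have hi1 : Integrable fun z => (g z : ℂ) * ((hess b z + (τ : ℂ) • hess c z).adjugate * hess c z).trace := by
    apply Continuous.integrable_of_hasCompactSupport
    · have h1 : Continuous fun z : Cn n => hess b z + (τ : ℂ) • hess c z :=
        hbc.add (hcc.const_smul (τ : ℂ))
      exact (Complex.continuous_ofReal.comp hg.continuous).mul
        (h1.matrix_adjugate.matrix_mul hcc).matrix_trace
    · apply HasCompactSupport.of_support_subset_isCompact hKc
      intro z hz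
      by_contra h
      apply hz
      simp only
      rw [hhc z h]
      simp
  have hi2 : Integrable fun z => (c z : ℂ) * ((hess b z + (τ : ℂ) • hess c z).adjugate * hess g z).trace := by
    apply Continuous.integrable_of_hasCompactSupport
    · have h1 : Continuous fun z : Cn n => hess b z + (τ : ℂ) • hess c z :=
        hbc.add (hcc.const_smul (τ : ℂ))
      exact (Complex.continuous_ofReal.comp hc.continuous).mul
        (h1.matrix_adjugate.matrix_mul hgc).matrix_trace
    · apply HasCompactSupport.of_support_subset_isCompact hKc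
      intro z hz
      by_contra h
      apply hz
      simp only
      rw [image_eq_zero_of_notMem_tsupport h]
      simp
  have h5 := congrArg Complex.re hibp
  rw [← Complex.reCLM_apply, ← Complex.reCLM_apply, ← ContinuousLinearMap.integral_comp_comm _ hi1,
    ← ContinuousLinearMap.integral_comp_comm _ hi2] at h5
  simp only [Complex.reCLM_apply, Complex.re_ofReal_mul] at h5
  exact h5

end Pool.Agent.H805R2
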