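import Mathlib
import Pool.Agent.H805R2.Path

set_option autoImplicit false
set_option maxHeartbeats 1000000

open MeasureTheory Metric Set Filter Topology
open scoped NNReal ContDiff Interval

namespace Pool.Agent.H805R2

variable {n : ℕ}

/-- a smooth convex function which is `0` for `x ≤ 0` and `x - c` for `x ≥ 1` -/
noncomputable def sm (x : ℝ) : ℝ := ∫ t in (0 : ℝ)..x, Real.smoothTransition t

/-- the constant `c` in the description of `sm` -/
noncomputable def c0 : ℝ := 1 - sm 1

lemma sm_hasDeriv (x : ℝ) : HasDerivAt sm (Real.smoothTransition x) x :=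
  intervalIntegral.integral_hasDerivAt_right
    (Real.smoothTransition.continuous.intervalIntegrable _ _)
    (Real.smoothTransition.continuous.stronglyMeasurableAtFilter _ _)
    Real.smoothTransition.continuousAt

lemma sm_deriv : deriv sm = Real.smoothTransition := funext fun x => (sm_hasDeriv x).deriv

lemma sm_smooth : ContDiff ℝ ∞ sm := by
  rw [contDiff_infty_iff_deriv]
  refine ⟨fun x => (sm_hasDeriv x).differentiableAt, ?_⟩
  rw [sm_deriv]
  exact Real.smoothTransition.contDiff

lemma sm_of_nonpos {x : ℝ} (hx : x ≤ 0) : sm x = 0 := by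
  unfold sm
  rw [intervalIntegral.integral_symm]
  have : ∫ t in x..(0 : ℝ), Real.smoothTransition t = ∫ t in x..(0 : ℝ), (0 : ℝ) := by
    apply intervalIntegral.integral_congr
    intro t ht
    rw [uIcc_of_le hx] at ht
    exact Real.smoothTransition.zero_of_nonpos ht.2
  rw [this]
  simp

lemma sm_of_one_le {x : ℝ} (hx : 1 ≤ x) : sm x = x - c0 := by
  unfold c0 sm
  have h1 := intervalIntegral.integral_add_adjacent_intervals
    (Real.smoothTransition.continuous.intervalIntegrable (μ := volume) 0 1)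
    (Real.smoothTransition.continuous.intervalIntegrable (μ := volume) 1 x)
  have : ∫ t in (1 : ℝ)..x, Real.smoothTransition t = ∫ t in (1 : ℝ)..x, (1 : ℝ) := by
    apply intervalIntegral.integral_congr
    intro t ht
    rw [uIcc_of_le hx] at ht
    exact Real.smoothTransition.one_of_one_le ht.1
  rw [this] at h1
  simp at h1
  linarith

lemma sm_mono : Monotone sm := by
  apply monotone_of_deriv_nonneg (sm_smooth.differentiable (by simp))
  intro x
  rw [sm_deriv]
  exact Real.smoothTransition.nonneg x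

lemma sm_nonneg (x : ℝ) : 0 ≤ sm x := by
  rcases le_total x 0 with h | h
  · rw [sm_of_nonpos h]
  · have := sm_mono h
    rwa [sm_of_nonpos le_rfl] at this

lemma sm_sub_mono : Antitone fun x => sm x - x := by
  have hd : ∀ x : ℝ, HasDerivAt (fun x => sm x - x) (Real.smoothTransition x - 1) x := fun x =>
    (sm_hasDeriv x).sub (hasDerivAt_id x)
  apply antitone_of_deriv_nonpos (fun x => (hd x).differentiableAt)
  intro x
  rw [(hd x).deriv]
  have := Real.smoothTransition.le_one x
  linarith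

lemma sm_le_max (x : ℝ) : sm x ≤ max x 0 := by
  rcases le_total x 0 with h | h
  · rw [sm_of_nonpos h]
    exact le_max_right _ _
  · have := sm_sub_mono h
    simp only [sm_of_nonpos (le_refl (0 : ℝ))] at this
    have h2 := le_max_left x 0
    linarith

lemma c0_nonneg : 0 ≤ c0 := by
  have := sm_le_max 1
  unfold c0
  rw [max_eq_left zero_le_one] at this
  linarith

lemma c0_le_one : c0 ≤ 1 := by
  have := sm_nonneg 1
  unfold c0
  linarith

lemma le_sm (x : ℝ) : x - c0 ≤ sm x := by
  rcases le_total 1 x with h | h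
  · rw [sm_of_one_le h]
  · have := sm_sub_mono h
    simp only at this
    unfold c0
    linarith

/-- smooth gluing: a smooth version of `max a b` -/
noncomputable def glue (η : ℝ) (b a : Cn n → ℝ) (z : Cn n) : ℝ := b z + η * sm ((a z - b z) / η)

lemma glue_smooth (η : ℝ) {b a : Cn n → ℝ} (hb : ContDiff ℝ ∞ b) (ha : ContDiff ℝ ∞ a) :
    ContDiff ℝ ∞ (glue η b a) := by
  unfold glue
  exact hb.add (contDiff_const.mul (sm_smooth.comp ((ha.sub hb).div_const η)))

lemma glue_of_le {η : ℝ} (hη : 0 < η) {b a : Cn n → ℝ} {z : Cn n} (h : a z ≤ b z) : glue η b a z = b z := by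
  unfold glue
  rw [sm_of_nonpos, mul_zero, add_zero]
  exact div_nonpos_of_nonpos_of_nonneg (by linarith) hη.le

lemma glue_of_ge {η : ℝ} (hη : 0 < η) {b a : Cn n → ℝ} {z : Cn n} (h : b z + η ≤ a z) :
    glue η b a z = a z - c0 * η := by
  unfold glue
  rw [sm_of_one_le]
  · field_simp
    ring
  · rw [le_div_iff₀ hη]
    linarith

lemma le_glue_left {η : ℝ} (hη : 0 < η) (b a : Cn n → ℝ) (z : Cn n) : b z ≤ glue η b a z := by
  unfold glue
  have := mul_nonneg hη.le (sm_nonneg ((a z - b z) / η))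
  linarith

lemma le_glue_right {η : ℝ} (hη : 0 < η) (b a : Cn n → ℝ) (z : Cn n) : a z - c0 * η ≤ glue η b a z := by
  unfold glue
  have h := mul_le_mul_of_nonneg_left (le_sm ((a z - b z) / η)) hη.le
  rw [mul_sub, mul_div_cancel₀ _ hη.ne'] at h
  linarith

lemma glue_le {η : ℝ} (hη : 0 < η) (b a : Cn n → ℝ) (z : Cn n) : glue η b a z ≤ max (b z) (a z) := by
  unfold glue
  have h := mul_le_mul_of_nonneg_left (sm_le_max ((a z - b z) / η)) hη.le
  have h2 : η * max ((a z - b z) / η) 0 = max (a z - b z) 0 := by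
    rw [mul_max_of_nonneg _ _ hη.le, mul_div_cancel₀ _ hη.ne', mul_zero]
  rw [h2] at h
  rcases le_total (a z) (b z) with h3 | h3
  · rw [max_eq_right (by linarith : a z - b z ≤ 0)] at h
    rw [max_eq_left h3]
    linarith
  · rw [max_eq_left (by linarith : 0 ≤ a z - b z)] at h
    rw [max_eq_right h3]
    linarith

/-- second derivative of a composition -/
lemma D2_comp {Φ : ℝ → ℝ} (hΦ : ContDiff ℝ 2 Φ) {f : Cn n → ℝ} (hf : ContDiff ℝ 2 f) (z ξ ζ : Cn n) :
    D2 (fun y => Φ (f y)) z ξ ζ =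
      deriv Φ (f z) * D2 f z ξ ζ + deriv (deriv Φ) (f z) * (fderiv ℝ f z ξ * fderiv ℝ f z ζ) := by
  have hfd : ∀ y, DifferentiableAt ℝ f y := fun y => (hf.differentiable (by norm_num)).differentiableAt
  have hfd2 : DifferentiableAt ℝ (fderiv ℝ f) z :=
    ((hf.fderiv_right (m := 1) (by norm_num)).differentiable (by norm_num)).differentiableAt
  have hΦd : ∀ x, HasDerivAt Φ (deriv Φ x) x := fun x =>
    ((hΦ.differentiable (by norm_num)).differentiableAt).hasDerivAt
  have hΦ1 : ContDiff ℝ 1 (deriv Φ) := by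
    have h2 : ContDiff ℝ (1 + 1) Φ := by
      have : (1 + 1 : WithTop ℕ∞) = 2 := by norm_num
      rw [this]; exact hΦ
    exact (contDiff_succ_iff_deriv.1 h2).2.2
  have hΦd2 : HasDerivAt (deriv Φ) (deriv (deriv Φ) (f z)) (f z) :=
    ((hΦ1.differentiable (by norm_num)).differentiableAt).hasDerivAt
  have h1 : fderiv ℝ (fun y => Φ (f y)) = fun y => deriv Φ (f y) • fderiv ℝ f y := by
    funext y
    exact ((hΦd (f y)).comp_hasFDerivAt y (hfd y).hasFDerivAt).fderiv
  have h2 : HasFDerivAt (fun y => deriv Φ (f y)) (deriv (deriv Φ) (f z) • fderiv ℝ f z) z :=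
    hΦd2.comp_hasFDerivAt z (hfd z).hasFDerivAt
  have h3 : HasFDerivAt (fun y => deriv Φ (f y) • fderiv ℝ f y)
      (deriv Φ (f z) • fderiv ℝ (fderiv ℝ f) z + (deriv (deriv Φ) (f z) • fderiv ℝ f z).smulRight (fderiv ℝ f z)) z :=
    h2.smul hfd2.hasFDerivAt
  unfold D2
  rw [h1, h3.fderiv]
  simp only [add_apply, smul_apply, ContinuousLinearMap.smulRight_apply, smul_eq_mul]
  ring

lemma levi_comp {Φ : ℝ → ℝ} (hΦ : ContDiff ℝ 2 Φ) {f : Cn n → ℝ} (hf : ContDiff ℝ 2 f) (z ζ : Cn n) :
    levi (fun y => Φ (f y)) z ζ = deriv Φ (f z) * levi f z ζ + deriv (deriv Φ) (f z) *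
      ((fderiv ℝ f z ζ) ^ 2 + (fderiv ℝ f z (Complex.I • ζ)) ^ 2) / 4 := by
  unfold levi
  rw [D2_comp hΦ hf, D2_comp hΦ hf]
  ring

lemma D2_add {f g : Cn n → ℝ} (hf : ContDiff ℝ 2 f) (hg : ContDiff ℝ 2 g) (z ξ ζ : Cn n) :
    D2 (fun y => f y + g y) z ξ ζ = D2 f z ξ ζ + D2 g z ξ ζ := by
  have hfd : ∀ y, DifferentiableAt ℝ f y := fun y => (hf.differentiable (by norm_num)).differentiableAt
  have hgd : ∀ y, DifferentiableAt ℝ g y := fun y => (hg.differentiable (by norm_num)).differentiableAt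
  have hfd2 : DifferentiableAt ℝ (fderiv ℝ f) z :=
    ((hf.fderiv_right (m := 1) (by norm_num)).differentiable (by norm_num)).differentiableAt
  have hgd2 : DifferentiableAt ℝ (fderiv ℝ g) z :=
    ((hg.fderiv_right (m := 1) (by norm_num)).differentiable (by norm_num)).differentiableAt
  unfold D2
  have h1 : fderiv ℝ (fun y => f y + g y) = fun y => fderiv ℝ f y + fderiv ℝ g y := by
    funext y
    exact fderiv_fun_add (hfd y) (hgd y)
  rw [h1, fderiv_fun_add hfd2 hgd2]
  rfl

lemma levi_add {f g : Cn n → ℝ} (hf : ContDiff ℝ 2 f) (hg : ContDiff ℝ 2 g) (z ζ : Cn n) :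
    levi (fun y => f y + g y) z ζ = levi f z ζ + levi g z ζ := by
  unfold levi
  rw [D2_add hf hg, D2_add hf hg]
  ring

lemma D2_const_mul (c : ℝ) {f : Cn n → ℝ} (hf : ContDiff ℝ 2 f) (z ξ ζ : Cn n) :
    D2 (fun y => c * f y) z ξ ζ = c * D2 f z ξ ζ := by
  have h := D2_comp (Φ := fun x => c * x) (by fun_prop) hf z ξ ζ
  rw [h]
  have e1 : deriv (fun x : ℝ => c * x) = fun _ => c := by
    funext x
    rw [deriv_const_mul _ differentiableAt_id]
    simp
  rw [e1]
  simp

lemma levi_const_mul (c : ℝ) {f : Cn n → ℝ} (hf : ContDiff ℝ 2 f) (z ζ : Cn n) :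
    levi (fun y => c * f y) z ζ = c * levi f z ζ := by
  unfold levi
  rw [D2_const_mul c hf, D2_const_mul c hf]
  ring

lemma levi_sub {f g : Cn n → ℝ} (hf : ContDiff ℝ 2 f) (hg : ContDiff ℝ 2 g) (z ζ : Cn n) :
    levi (fun y => f y - g y) z ζ = levi f z ζ - levi g z ζ := by
  have h1 : (fun y => f y - g y) = fun y => f y + (-1) * g y := by funext y; ring
  rw [h1, levi_add hf (contDiff_const.mul hg), levi_const_mul _ hg]
  ring

lemma levi_const (c : ℝ) (z ζ : Cn n) : levi (fun _ => c) z ζ = 0 := by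
  unfold levi D2
  have : fderiv ℝ (fun _ : Cn n => c) = fun _ => 0 := by
    funext y
    exact fderiv_const_apply _
  rw [this]
  simp

/-- gluing preserves plurisubharmonicity -/
lemma glue_levi {η : ℝ} (hη : 0 < η) {b a : Cn n → ℝ} (hb : ContDiff ℝ ∞ b) (ha : ContDiff ℝ ∞ a)
    (z ζ : Cn n) (h1 : 0 ≤ levi b z ζ) (h2 : 0 ≤ levi a z ζ) : 0 ≤ levi (glue η b a) z ζ := by
  have hb2 := hb.of_le ss_le
  have ha2 := ha.of_le ss_le
  set Φ : ℝ → ℝ := fun x => η * sm (x / η) with hΦ
  have hΦs : ContDiff ℝ 2 Φ := by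
    have h : ContDiff ℝ 2 sm := sm_smooth.of_le ss_le
    exact contDiff_const.mul (h.comp (contDiff_id.div_const η))
  have hd1 : deriv Φ = fun x => Real.smoothTransition (x / η) := by
    funext x
    have h3 : HasDerivAt Φ (η * (Real.smoothTransition (x / η) * (1 / η))) x := by
      have h4 : HasDerivAt (fun x : ℝ => x / η) (1 / η) x := (hasDerivAt_id x).div_const η
      exact ((sm_hasDeriv (x / η)).comp x h4).const_mul η
    rw [h3.deriv]
    field_simp
  have hd2 : ∀ x, 0 ≤ deriv (deriv Φ) x := by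
    intro x
    rw [hd1]
    have hm : Monotone fun x => Real.smoothTransition (x / η) := by
      intro x y hxy
      exact Real.smoothTransition.monotone (div_le_div_of_nonneg_right hxy hη.le)
    exact hm.deriv_nonneg
  have hg : glue η b a = fun y => b y + Φ (a y - b y) := rfl
  have hcomp : ContDiff ℝ 2 (fun y => Φ (a y - b y)) := hΦs.comp (ha2.sub hb2)
  rw [hg, levi_add hb2 hcomp, levi_comp hΦs (ha2.sub hb2), levi_sub ha2 hb2, hd1]
  simp only
  have h5 := Real.smoothTransition.nonneg ((a z - b z) / η)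
  have h6 := Real.smoothTransition.le_one ((a z - b z) / η)
  have h7 := hd2 (a z - b z)
  rw [hd1] at h7
  have h8 : 0 ≤ deriv (fun x => Real.smoothTransition (x / η)) (a z - b z) *
      ((fderiv ℝ (fun y => a y - b y) z ζ) ^ 2 + (fderiv ℝ (fun y => a y - b y) z (Complex.I • ζ)) ^ 2) / 4 := by
    positivity
  nlinarith

end Pool.Agent.H805R2
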