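import Mathlib
import Pool.Agent.H805R2.Glue

set_option autoImplicit false
set_option maxHeartbeats 1000000

open MeasureTheory Metric Set Filter Topology
open scoped NNReal ContDiff Interval ComplexOrder

namespace Pool.Agent.H805R2

variable {n : ℕ}

lemma hess_congr {f g : Cn n → ℝ} {z : Cn n} (h : f =ᶠ[𝓝 z] g) : hess f z = hess g z := by
  ext j k
  simp only [hess, Matrix.of_apply]
  have h1 : (fun w => (f w : ℂ)) =ᶠ[𝓝 z] fun w => (g w : ℂ) := by
    filter_upwards [h] with w hw
    rw [hw]
  have h2 : (wdb k fun w => (f w : ℂ)) =ᶠ[𝓝 z] (wdb k fun w => (g w : ℂ)) := by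
    have h3 : fderiv ℝ (fun w => (f w : ℂ)) =ᶠ[𝓝 z] fderiv ℝ (fun w => (g w : ℂ)) := h1.fderiv
    filter_upwards [h3] with w hw
    simp only [wdb]
    rw [hw]
  simp only [wd]
  rw [h2.fderiv_eq]

lemma hess_const_zero (c : ℝ) (z : Cn n) : hess (fun _ => c) z = 0 := by
  have hc : ContDiff ℝ 2 (fun _ : Cn n => c) := contDiff_const
  ext j k
  rw [hess_eq_sesq hc]
  have : fderiv ℝ (fun _ : Cn n => c) = fun _ => 0 := by
    funext y
    exact fderiv_const_apply _
  rw [this, fderiv_fun_const]
  simp [sesq]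

lemma det_hess_nonneg {u : Cn n → ℝ} {z : Cn n} (h : (hess u z).PosSemidef) : 0 ≤ (hess u z).det.re :=
  (Complex.nonneg_iff.1 h.det_nonneg).1

lemma det_hess_continuous {u : Cn n → ℝ} (hu : ContDiff ℝ ∞ u) : Continuous fun z => (hess u z).det.re :=
  Complex.continuous_re.comp (hess_continuous (hu.of_le ss_le)).matrix_det

/-- no mass is created by a compactly supported perturbation -/
theorem stokes (b ψ : Cn n → ℝ) (hb : ContDiff ℝ ∞ b) (hψ : ContDiff ℝ ∞ ψ)
    (hcs : HasCompactSupport fun z => ψ z - b z) :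
    ∫ z, ((hess ψ z).det.re - (hess b z).det.re) = 0 := by
  have h := path_formula b (fun z => ψ z - b z) (fun _ => 1) hb (hψ.sub hb) contDiff_const hcs
  have e1 : (fun z => b z + (ψ z - b z)) = ψ := by funext z; ring
  simp_rw [e1, one_mul, hess_const_zero, mul_zero, Matrix.trace_zero, Complex.zero_re, mul_zero,
    integral_zero] at h
  simpa using h

/-- comparison -/
theorem compare (b ψ h : Cn n → ℝ) (hb : ContDiff ℝ ∞ b) (hψ : ContDiff ℝ ∞ ψ) (hh : ContDiff ℝ ∞ h)
    (hcs : HasCompactSupport fun z => ψ z - b z) (hpos : ∀ z, b z ≤ ψ z)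
    (hpb : ∀ z ∈ tsupport (fun z => ψ z - b z), (hess b z).PosSemidef)
    (hpψ : ∀ z ∈ tsupport (fun z => ψ z - b z), (hess ψ z).PosSemidef)
    (hph : ∀ z ∈ tsupport (fun z => ψ z - b z), (hess h z).PosSemidef) :
    0 ≤ ∫ z, h z * ((hess ψ z).det.re - (hess b z).det.re) := by
  have hc : ContDiff ℝ ∞ (fun z => ψ z - b z) := hψ.sub hb
  have hf := path_formula b (fun z => ψ z - b z) h hb hc hh hcs
  have e1 : (fun z => b z + (ψ z - b z)) = ψ := by funext z; ring
  rw [e1] at hf
  rw [hf]
  apply intervalIntegral.integral_nonneg zero_le_one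
  intro τ hτ
  apply integral_nonneg
  intro z
  simp only [Pi.zero_apply]
  by_cases hz : z ∈ tsupport (fun z => ψ z - b z)
  · apply mul_nonneg (by have := hpos z; linarith)
    apply trace_adj_nonneg _ _ _ (hph z hz)
    have e2 : hess b z + (τ : ℂ) • hess (fun z => ψ z - b z) z =
        ((1 - τ : ℝ) : ℂ) • hess b z + (τ : ℂ) • hess ψ z := by
      have h1 := hess_add_smul b (fun z => ψ z - b z) hb hc 1 z
      simp only [one_mul, Complex.ofReal_one, one_smul] at h1
      rw [e1] at h1
      rw [h1, smul_add]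
      push_cast
      module
    rw [e2]
    exact ((hpb z hz).smul (by exact_mod_cast (by linarith [hτ.2] : 0 ≤ 1 - τ))).add
      ((hpψ z hz).smul (by exact_mod_cast hτ.1))
  · rw [image_eq_zero_of_notMem_tsupport hz, zero_mul]

lemma hess_eq_off (b ψ : Cn n → ℝ) {z : Cn n} (hz : z ∉ tsupport fun z => ψ z - b z) :
    hess ψ z = hess b z := by
  apply hess_congr
  have : (fun z => ψ z - b z) =ᶠ[𝓝 z] fun _ => 0 := notMem_tsupport_iff_eventuallyEq.1 hz
  filter_upwards [this] with w hw
  linarith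

/-- local form of `stokes` -/
lemma stokes_on (b ψ : Cn n → ℝ) (hb : ContDiff ℝ ∞ b) (hψ : ContDiff ℝ ∞ ψ) (C : Set (Cn n))
    (hC : IsCompact C) (hsupp : ∀ z, z ∉ C → ψ z = b z) :
    ∫ z in C, (hess ψ z).det.re = ∫ z in C, (hess b z).det.re := by
  have hts : tsupport (fun z => ψ z - b z) ⊆ C := by
    apply closure_minimal _ hC.isClosed
    intro z hz
    by_contra h
    exact hz (by simp [hsupp z h])
  have hcs : HasCompactSupport fun z => ψ z - b z := hC.of_isClosed_subset (isClosed_tsupport _) hts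
  have h := stokes b ψ hb hψ hcs
  have h1 : ∫ z, ((hess ψ z).det.re - (hess b z).det.re) = ∫ z in C, ((hess ψ z).det.re - (hess b z).det.re) := by
    refine (setIntegral_eq_integral_of_forall_compl_eq_zero fun z hz => ?_).symm
    rw [hess_eq_off b ψ (fun h => hz (hts h)), sub_self]
  rw [h1, integral_sub] at h
  · linarith
  · exact (det_hess_continuous hψ).continuousOn.integrableOn_compact hC
  · exact (det_hess_continuous hb).continuousOn.integrableOn_compact hC

/-- local form of `compare` -/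
lemma compare_on (b ψ h : Cn n → ℝ) (hb : ContDiff ℝ ∞ b) (hψ : ContDiff ℝ ∞ ψ) (hh : ContDiff ℝ ∞ h)
    (C : Set (Cn n)) (hC : IsCompact C) (hsupp : ∀ z, z ∉ C → ψ z = b z) (hpos : ∀ z, b z ≤ ψ z)
    (hpb : ∀ z ∈ C, (hess b z).PosSemidef) (hpψ : ∀ z ∈ C, (hess ψ z).PosSemidef)
    (hph : ∀ z ∈ C, (hess h z).PosSemidef) :
    ∫ z in C, (-h z) * (hess ψ z).det.re ≤ ∫ z in C, (-h z) * (hess b z).det.re := by
  have hts : tsupport (fun z => ψ z - b z) ⊆ C := by
    apply closure_minimal _ hC.isClosed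
    intro z hz
    by_contra h
    exact hz (by simp [hsupp z h])
  have hcs : HasCompactSupport fun z => ψ z - b z := hC.of_isClosed_subset (isClosed_tsupport _) hts
  have h0 := compare b ψ h hb hψ hh hcs hpos (fun z hz => hpb z (hts hz)) (fun z hz => hpψ z (hts hz))
    (fun z hz => hph z (hts hz))
  have h1 : ∫ z, h z * ((hess ψ z).det.re - (hess b z).det.re) =
      ∫ z in C, h z * ((hess ψ z).det.re - (hess b z).det.re) := by
    refine (setIntegral_eq_integral_of_forall_compl_eq_zero fun z hz => ?_).symm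
    rw [hess_eq_off b ψ (fun h => hz (hts h)), sub_self, mul_zero]
  have h2 : ∫ z in C, h z * ((hess ψ z).det.re - (hess b z).det.re) =
      (∫ z in C, (-h z) * (hess b z).det.re) - ∫ z in C, (-h z) * (hess ψ z).det.re := by
    rw [← integral_sub]
    · congr 1
      funext z
      ring
    · exact (hh.continuous.neg.mul (det_hess_continuous hb)).continuousOn.integrableOn_compact hC
    · exact (hh.continuous.neg.mul (det_hess_continuous hψ)).continuousOn.integrableOn_compact hC
  rw [h1, h2] at h0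
  linarith

end Pool.Agent.H805R2
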