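import Mathlib
import Pool.Agent.H805R2.Base

set_option autoImplicit false

open MeasureTheory Metric Set Filter Topology
open scoped ContDiff ComplexOrder

namespace Pool.Agent.H805R2

/-- Plurisubharmonic functions on an open set `Ω` of `ℂⁿ`, with values in `[-∞, ∞)`: upper
semicontinuous, and for every closed complex disc `{a + ζ b : |ζ| ≤ 1} ⊆ Ω` the value at the centre
`a` is at most the mean over the boundary circle. The mean of an upper semicontinuous function is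
the infimum of the means of its continuous majorants, which is how it is expressed here. -/
def PSH {n : ℕ} (Ω : Set (Cn n)) (u : Cn n → EReal) : Prop :=
  UpperSemicontinuousOn u Ω ∧ (∀ z ∈ Ω, u z < ⊤) ∧
  ∀ a b : Cn n, (∀ ζ : ℂ, ‖ζ‖ ≤ 1 → a + ζ • b ∈ Ω) →
    ∀ φ : ℂ → ℝ, Continuous φ →
      (∀ ζ : ℂ, ‖ζ‖ = 1 → u (a + ζ • b) ≤ ((φ ζ : ℝ) : EReal)) →
        u a ≤ ((Real.circleAverage φ 0 1 : ℝ) : EReal)

/-- `Ω` is hyperconvex: there is a negative plurisubharmonic function `ρ` on `Ω` such that every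
sublevel set `{ρ < c}`, `c < 0`, is relatively compact in `Ω`. -/
def Hyperconvex {n : ℕ} (Ω : Set (Cn n)) : Prop :=
  ∃ ρ : Cn n → EReal, PSH Ω ρ ∧ (∀ z ∈ Ω, ρ z < 0) ∧
    ∀ c : ℝ, c < 0 → ∃ K : Set (Cn n), IsCompact K ∧ K ⊆ Ω ∧ ∀ z ∈ Ω, ρ z < (c : EReal) → z ∈ K

/-- The density of `(dd^c v)ⁿ` with respect to Lebesgue measure for a `C²` function `v`, where
`dd^c = (i/π)∂∂̄`: it is `n! (2/π)ⁿ det(∂²v/∂z_j∂z̄_k)`. -/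
noncomputable def maDensity {n : ℕ} (v : Cn n → ℝ) (z : Cn n) : ℝ :=
  (n.factorial : ℝ) * (2 / Real.pi) ^ n * (hess v z).det.re

/-- `μ` is the Monge-Ampère measure `(dd^c u)ⁿ` of the locally bounded plurisubharmonic function `u`
on `Ω` in the sense of Bedford and Taylor. -/
def IsMongeAmpere {n : ℕ} (Ω : Set (Cn n)) (u : Cn n → ℝ) (μ : Measure (Cn n)) : Prop :=
  (∀ K : Set (Cn n), IsCompact K → K ⊆ Ω → μ K < ⊤) ∧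
  ∀ U : Set (Cn n), IsOpen U → IsCompact (closure U) → closure U ⊆ Ω →
    ∃ v : ℕ → Cn n → ℝ,
      (∀ k, ContDiffOn ℝ ∞ (v k) U) ∧
      (∀ k, ∀ z ∈ U, (hess (v k) z).PosSemidef) ∧
      (∀ z ∈ U, Antitone fun k => v k z) ∧
      (∀ z ∈ U, Tendsto (fun k => v k z) atTop (𝓝 (u z))) ∧
      ∀ χ : Cn n → ℝ, Continuous χ → HasCompactSupport χ → tsupport χ ⊆ U →
        Tendsto (fun k => ∫ z, χ z * maDensity (v k) z) atTop (𝓝 (∫ z, χ z ∂μ))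

/-- `u ∈ 𝓔₀(Ω)` with `(dd^c u)ⁿ = ν`. -/
def IsE0 {n : ℕ} (Ω : Set (Cn n)) (u : Cn n → ℝ) (ν : Measure (Cn n)) : Prop :=
  PSH Ω (fun z => ((u z : ℝ) : EReal)) ∧
  (∃ M : ℝ, ∀ z ∈ Ω, -M ≤ u z) ∧ (∀ z ∈ Ω, u z ≤ 0) ∧
  (∀ w ∈ frontier Ω, Tendsto u (𝓝[Ω] w) (𝓝 0)) ∧
  IsMongeAmpere Ω u ν ∧ ν Ω < ⊤

/-- `φ ∈ 𝓕(Ω)` with `(dd^c φ)ⁿ = μ`. -/
def IsCegrellF {n : ℕ} (Ω : Set (Cn n)) (φ : Cn n → EReal) (μ : Measure (Cn n)) : Prop :=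
  PSH Ω φ ∧ μ Ω < ⊤ ∧
  ∃ (u : ℕ → Cn n → ℝ) (ν : ℕ → Measure (Cn n)),
    (∀ j, IsE0 Ω (u j) (ν j)) ∧
    (∀ z ∈ Ω, Antitone fun j => u j z) ∧
    (∀ z ∈ Ω, Tendsto (fun j => ((u j z : ℝ) : EReal)) atTop (𝓝 (φ z))) ∧
    (∃ M : ℝ, ∀ j, ν j Ω ≤ ENNReal.ofReal M) ∧
    ∀ χ : Cn n → ℝ, Continuous χ → HasCompactSupport χ → tsupport χ ⊆ Ω →
      Tendsto (fun j => ∫ z, χ z ∂(ν j)) atTop (𝓝 (∫ z, χ z ∂μ))

end Pool.Agent.H805R2
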