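import Mathlib
import Pool.Agent.H805R2.Defs
import Pool.Agent.H805R2.Compare

set_option autoImplicit false
set_option maxHeartbeats 1000000

open MeasureTheory Metric Set Filter Topology
open scoped ContDiff ComplexOrder

namespace Pool.Agent.H805R2

variable {n : ℕ}

/-- Dini's lemma, in the form needed -/
lemma dini_lt {E : Type*} [TopologicalSpace E] (v : ℕ → E → ℝ) (u g : E → ℝ) {K : Set E}
    (hK : IsCompact K) (hc : ∀ k, ContinuousOn (v k) K) (hanti : ∀ z ∈ K, Antitone fun k => v k z)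
    (hlim : ∀ z ∈ K, Tendsto (fun k => v k z) atTop (𝓝 (u z))) (hg : ContinuousOn g K)
    (h : ∀ z ∈ K, u z < g z) : ∃ k0, ∀ k ≥ k0, ∀ z ∈ K, v k z < g z := by
  have := hK.induction_on (p := fun S => ∃ k0, ∀ k ≥ k0, ∀ z ∈ S, z ∈ K → v k z < g z)
    ⟨0, fun k _ z hz => absurd hz (notMem_empty z)⟩
    (fun S T hST ⟨k0, hk0⟩ => ⟨k0, fun k hk z hz => hk0 k hk z (hST hz)⟩)
    (fun S T ⟨k0, hk0⟩ ⟨k1, hk1⟩ => ⟨max k0 k1, fun k hk z hz => by
      rcases hz with hz | hz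
      · exact hk0 k (le_trans (le_max_left _ _) hk) z hz
      · exact hk1 k (le_trans (le_max_right _ _) hk) z hz⟩)
    (by
      intro z hz
      obtain ⟨k, hk⟩ := ((hlim z hz).eventually (gt_mem_nhds (h z hz))).exists
      have hopen : ∀ᶠ y in 𝓝[K] z, v k y < g y := by
        have h1 : Tendsto (fun y => g y - v k y) (𝓝[K] z) (𝓝 (g z - v k z)) :=
          (hg z hz).sub (hc k z hz)
        have h2 := h1.eventually (lt_mem_nhds (by linarith : 0 < g z - v k z))
        filter_upwards [h2] with y hy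
        linarith
      refine ⟨{y | v k y < g y}, hopen, k, fun k' hk' y hy hyK => ?_⟩
      exact lt_of_le_of_lt (hanti y hyK hk') hy)
  obtain ⟨k0, hk0⟩ := this
  exact ⟨k0, fun k hk z hz => hk0 k hk z hz hz⟩

/-- smooth cutoff functions -/
lemma cutoff {K V : Set (Cn n)} (hK : IsCompact K) (hV : IsOpen V) (hKV : K ⊆ V) :
    ∃ χ : Cn n → ℝ, ContDiff ℝ ∞ χ ∧ HasCompactSupport χ ∧ tsupport χ ⊆ V ∧ (∀ z ∈ K, χ z = 1) ∧
      ∀ z, χ z ∈ Icc (0 : ℝ) 1 := by
  obtain ⟨L, hL, hKL, hLV⟩ := exists_compact_between hK hV hKV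
  obtain ⟨f, hf0, hf1, hf⟩ := exists_contMDiffMap_zero_one_of_isClosed (modelWithCornersSelf ℝ (Cn n)) (n := ⊤)
    (s := (interior L)ᶜ) (t := K) isOpen_interior.isClosed_compl hK.isClosed
    (disjoint_compl_left_iff_subset.2 hKL)
  have hts : tsupport (f : Cn n → ℝ) ⊆ L := by
    apply closure_minimal _ hL.isClosed
    intro z hz
    by_contra h
    apply hz
    exact hf0 (fun h' => h (interior_subset h'))
  refine ⟨f, f.contMDiff.contDiff, hL.of_isClosed_subset (isClosed_tsupport _) hts, hts.trans hLV,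
    fun z hz => hf1 hz, hf⟩

/-- product of a cutoff and a function smooth on an open set -/
lemma cutoff_mul_smooth {χ f : Cn n → ℝ} {V : Set (Cn n)} (hV : IsOpen V) (hχ : ContDiff ℝ ∞ χ)
    (hf : ContDiffOn ℝ ∞ f V) (hs : tsupport χ ⊆ V) : ContDiff ℝ ∞ fun z => χ z * f z := by
  rw [contDiff_iff_contDiffAt]
  intro z
  by_cases hz : z ∈ tsupport χ
  · exact hχ.contDiffAt.mul (hf.contDiffAt (hV.mem_nhds (hs hz)))
  · have : (fun z => χ z * f z) =ᶠ[𝓝 z] fun _ => 0 := by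
      filter_upwards [notMem_tsupport_iff_eventuallyEq.1 hz] with y hy
      rw [hy]
      simp
    exact contDiffAt_const.congr_of_eventuallyEq this

/-- global approximants -/
lemma extract {Ω : Set (Cn n)} (hΩ : IsOpen Ω) {u : Cn n → ℝ} {μ : Measure (Cn n)}
    (hMA : IsMongeAmpere Ω u μ) (hu0 : ∀ z ∈ Ω, u z ≤ 0) {K : Set (Cn n)} (hK : IsCompact K)
    (hKΩ : K ⊆ Ω) :
    ∃ (U : Set (Cn n)) (v : ℕ → Cn n → ℝ), IsOpen U ∧ K ⊆ U ∧ U ⊆ Ω ∧
      (∀ k, ContDiff ℝ ∞ (v k)) ∧ (∀ k, HasCompactSupport (v k)) ∧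
      (∀ k, ∀ z ∈ U, (hess (v k) z).PosSemidef) ∧
      (∀ k z, z ∉ Ω → v k z = 0) ∧ (∀ k, ∀ z ∈ Ω, u z ≤ v k z) ∧
      (∀ η > 0, ∃ k0, ∀ k ≥ k0, ∀ z, v k z < η) ∧
      (∀ z ∈ U, Antitone fun k => v k z) ∧
      (∀ z ∈ U, Tendsto (fun k => v k z) atTop (𝓝 (u z))) ∧
      ∀ χ : Cn n → ℝ, Continuous χ → HasCompactSupport χ → tsupport χ ⊆ U →
        Tendsto (fun k => ∫ z, χ z * maDensity (v k) z) atTop (𝓝 (∫ z, χ z ∂μ)) := by
  obtain ⟨K1, hK1, hKK1, hK1Ω⟩ := exists_compact_between hK hΩ hKΩ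
  obtain ⟨K2, hK2, hK12, hK2Ω⟩ := exists_compact_between hK1 hΩ hK1Ω
  set V := interior K2 with hVdef
  have hV : IsOpen V := isOpen_interior
  have hclV : closure V ⊆ K2 := closure_minimal interior_subset hK2.isClosed
  obtain ⟨w, hw1, hw2, hw3, hw4, hw5⟩ := hMA.2 V hV (hK2.of_isClosed_subset isClosed_closure hclV)
    (hclV.trans hK2Ω)
  obtain ⟨χ0, hχs, hχc, hχV, hχ1, hχ01⟩ := cutoff hK1 hV hK12
  have hVΩ : V ⊆ Ω := interior_subset.trans hK2Ω
  set U := interior K1 with hUdef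
  have hUV : U ⊆ V := interior_subset.trans hK12
  have hwu : ∀ k, ∀ z ∈ V, u z ≤ w k z := fun k z hz => (hw3 z hz).le_of_tendsto (hw4 z hz) k
  have heq : ∀ k, ∀ z ∈ U, χ0 z * w k z = w k z := fun k z hz => by
    rw [hχ1 z (interior_subset hz), one_mul]
  have hhess : ∀ k, ∀ z ∈ U, hess (fun z => χ0 z * w k z) z = hess (w k) z := by
    intro k z hz
    apply hess_congr
    filter_upwards [isOpen_interior.mem_nhds hz] with y hy
    exact heq k y hy
  have hzero : ∀ k z, z ∉ V → χ0 z * w k z = 0 := by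
    intro k z hz
    rw [image_eq_zero_of_notMem_tsupport (fun h => hz (hχV h)), zero_mul]
  refine ⟨U, fun k z => χ0 z * w k z, isOpen_interior, hKK1, hUV.trans hVΩ, ?_, ?_, ?_, ?_, ?_, ?_, ?_, ?_, ?_⟩
  · exact fun k => cutoff_mul_smooth hV hχs (hw1 k) hχV
  · exact fun k => hχc.mul_right
  · intro k z hz
    rw [hhess k z hz]
    exact hw2 k z (hUV hz)
  · exact fun k z hz => hzero k z (fun h => hz (hVΩ h))
  · intro k z hz
    simp only
    by_cases hzV : z ∈ V
    · have h1 := hwu k z hzV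
      have h2 := hχ01 z
      have h3 := hu0 z hz
      nlinarith [h2.1, h2.2, mul_le_mul_of_nonneg_left h1 h2.1]
    · rw [hzero k z hzV]
      exact hu0 z hz
  · intro η hη
    obtain ⟨k0, hk0⟩ := dini_lt w u (fun _ => η) (K := tsupport χ0) hχc
      (fun k => ((hw1 k).continuousOn).mono hχV) (fun z hz => hw3 z (hχV hz))
      (fun z hz => hw4 z (hχV hz)) continuousOn_const
      (fun z hz => lt_of_le_of_lt (hu0 z (hVΩ (hχV hz))) hη)
    refine ⟨k0, fun k hk z => ?_⟩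
    change χ0 z * w k z < η
    by_cases hz : z ∈ tsupport χ0
    · have h1 := hk0 k hk z hz
      have h2 := hχ01 z
      rcases le_total (w k z) 0 with h3 | h3
      · have := mul_nonpos_of_nonneg_of_nonpos h2.1 h3
        linarith
      · have := mul_le_mul_of_nonneg_right h2.2 h3
        linarith
    · rw [image_eq_zero_of_notMem_tsupport hz, zero_mul]
      exact hη
  · intro z hz
    simp only [heq _ z hz]
    exact hw3 z (hUV hz)
  · intro z hz
    simp only [heq _ z hz]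
    exact hw4 z (hUV hz)
  · intro χ hχc' hχcs hχU
    have h1 := hw5 χ hχc' hχcs (hχU.trans hUV)
    refine h1.congr fun k => ?_
    apply integral_congr_ae
    refine Eventually.of_forall fun z => ?_
    simp only
    by_cases hz : z ∈ tsupport χ
    · rw [maDensity, maDensity, hhess k z (hχU hz)]
    · rw [image_eq_zero_of_notMem_tsupport hz, zero_mul, zero_mul]

/-- boundary behaviour: outside a compact set `u > -θ` -/
lemma bdry_compact {Ω : Set (Cn n)} (hΩ : IsOpen Ω) (hb : Bornology.IsBounded Ω) {u : Cn n → ℝ}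
    (hu : ∀ w ∈ frontier Ω, Tendsto u (𝓝[Ω] w) (𝓝 0)) (θ : ℝ) (hθ : 0 < θ) :
    ∃ C : Set (Cn n), IsCompact C ∧ C ⊆ Ω ∧ ∀ z ∈ Ω, z ∉ C → -θ < u z := by
  refine ⟨closure {z | z ∈ Ω ∧ u z ≤ -θ}, ?_, ?_, ?_⟩
  · apply isCompact_of_isClosed_isBounded isClosed_closure
    exact (hb.subset fun z hz => hz.1).closure
  · intro w hw
    by_contra hwΩ
    have hwcl : w ∈ closure Ω := closure_mono (fun z hz => hz.1) hw
    have hwf : w ∈ frontier Ω := by
      rw [frontier, hΩ.interior_eq]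
      exact ⟨hwcl, hwΩ⟩
    have h1 := (hu w hwf).eventually (lt_mem_nhds (neg_lt_zero.2 hθ))
    rw [eventually_nhdsWithin_iff] at h1
    obtain ⟨t, ht, hto, hwt⟩ := _root_.eventually_nhds_iff.1 h1
    obtain ⟨z, hzt, hz⟩ := mem_closure_iff.1 hw t hto hwt
    have := ht z hzt hz.1
    linarith [hz.2]
  · intro z hz hzC
    by_contra h
    exact hzC (subset_closure ⟨hz, not_lt.1 h⟩)

end Pool.Agent.H805R2
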