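import Mathlib
import Pool.Agent.H805R2.Approx

set_option autoImplicit false
set_option maxHeartbeats 1000000

open MeasureTheory Metric Set Filter Topology
open scoped ContDiff ComplexOrder

namespace Pool.Agent.H805R2

variable {n : ℕ}

lemma hess_const_mul (c : ℝ) {f : Cn n → ℝ} (hf : ContDiff ℝ ∞ f) (z : Cn n) :
    hess (fun y => c * f y) z = (c : ℂ) • hess f z := by
  have h := hess_add_smul (fun _ => 0) f contDiff_const hf c z
  simp only [zero_add] at h
  rw [h, hess_const_zero, zero_add]

lemma hess_add_const (c : ℝ) {f : Cn n → ℝ} (hf : ContDiff ℝ ∞ f) (z : Cn n) :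
    hess (fun y => f y + c) z = hess f z := by
  have h := hess_add_smul f (fun _ => c) hf contDiff_const 1 z
  simp only [one_mul, Complex.ofReal_one, one_smul] at h
  rw [h, hess_const_zero, add_zero]

lemma psd_iff {f : Cn n → ℝ} (hf : ContDiff ℝ ∞ f) (z : Cn n) :
    (hess f z).PosSemidef ↔ ∀ ζ, 0 ≤ levi f z ζ := hess_posSemidef_iff (hf.of_le ss_le) z

lemma glue_psd {η : ℝ} (hη : 0 < η) {b a : Cn n → ℝ} (hb : ContDiff ℝ ∞ b) (ha : ContDiff ℝ ∞ a)
    (z : Cn n) (h1 : (hess b z).PosSemidef) (h2 : (hess a z).PosSemidef) :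
    (hess (glue η b a) z).PosSemidef := by
  rw [psd_iff (glue_smooth η hb ha)]
  rw [psd_iff hb] at h1
  rw [psd_iff ha] at h2
  exact fun ζ => glue_levi hη hb ha z ζ (h1 ζ) (h2 ζ)

lemma maDensity_nonneg {v : Cn n → ℝ} {z : Cn n} (h : (hess v z).PosSemidef) : 0 ≤ maDensity v z := by
  unfold maDensity
  have := det_hess_nonneg h
  have := Real.pi_pos
  positivity

lemma maDensity_continuous {v : Cn n → ℝ} (hv : ContDiff ℝ ∞ v) : Continuous (maDensity v) :=
  continuous_const.mul (det_hess_continuous hv)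

lemma setInt_le_cut {v χ : Cn n → ℝ} (hv : ContDiff ℝ ∞ v) (hχ : Continuous χ) (hχc : HasCompactSupport χ)
    {U C : Set (Cn n)} (hC : IsCompact C) (hχU : tsupport χ ⊆ U)
    (hpsd : ∀ z ∈ U, (hess v z).PosSemidef) (hχ0 : ∀ z, 0 ≤ χ z) (g : Cn n → ℝ) (hgC : ∀ z ∈ C, g z ≤ χ z)
    (hg : Continuous g) (hCU : C ⊆ U) :
    ∫ z in C, g z * maDensity v z ≤ ∫ z, χ z * maDensity v z := by
  have hi : Integrable fun z => χ z * maDensity v z :=
    (hχ.mul (maDensity_continuous hv)).integrable_of_hasCompactSupport hχc.mul_right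
  calc ∫ z in C, g z * maDensity v z ≤ ∫ z in C, χ z * maDensity v z := by
        apply setIntegral_mono_on _ hi.integrableOn hC.measurableSet
        · intro z hz
          exact mul_le_mul_of_nonneg_right (hgC z hz) (maDensity_nonneg (hpsd z (hCU hz)))
        · exact (hg.mul (maDensity_continuous hv)).continuousOn.integrableOn_compact hC
    _ ≤ ∫ z, χ z * maDensity v z := by
        apply setIntegral_le_integral hi
        refine Eventually.of_forall fun z => ?_
        simp only [Pi.zero_apply]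
        by_cases hz : z ∈ tsupport χ
        · exact mul_nonneg (hχ0 z) (maDensity_nonneg (hpsd z (hχU hz)))
        · rw [image_eq_zero_of_notMem_tsupport hz, zero_mul]

end Pool.Agent.H805R2
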