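import Mathlib
import Pool.Agent.H805R2.Defs

/-!
Sanity check for the definitions of `Defs.lean`: on the unit ball `B` of `ℂⁿ`, `n ≥ 1`, the ball is
hyperconvex and the function `|z|² - 1` belongs to `𝓕(B)`, with Monge-Ampere measure
`n! (2/π)ⁿ dVol`, of total mass `2ⁿ`; so here `λ = 2`.
-/

set_option autoImplicit false

open MeasureTheory Metric Set Filter Topology
open scoped ContDiff ComplexOrder

namespace Pool.Agent.H805R2

variable {n : ℕ}

lemma nsq_smooth : ContDiff ℝ ∞ (fun z : Cn n => ‖z‖ ^ 2 - 1) :=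
  (contDiff_norm_sq ℝ).sub contDiff_const

lemma nsq_fderiv (z h : Cn n) : fderiv ℝ (fun z : Cn n => ‖z‖ ^ 2 - 1) z h =
    2 * inner ℝ z h := by
  have h1 : HasFDerivAt (fun z : Cn n => ‖z‖ ^ 2 - 1) (2 • (innerSL ℝ z)) z :=
    (hasStrictFDerivAt_norm_sq z).hasFDerivAt.sub_const 1
  rw [h1.fderiv]
  simp [two_mul, two_smul]

lemma nsq_wdb (k : Fin n) : (wdb k fun w : Cn n => ((‖w‖ ^ 2 - 1 : ℝ) : ℂ)) = fun z => z k := by
  funext z
  have hd : DifferentiableAt ℝ (fun z : Cn n => ‖z‖ ^ 2 - 1) z :=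
    nsq_smooth.contDiffAt.differentiableAt (by simp)
  rw [wdb, fderiv_ofReal z _ hd, fderiv_ofReal z _ hd, nsq_fderiv, nsq_fderiv]
  have h1 : inner ℝ z (bas k) = (z k).re := by
    rw [bas, PiLp.inner_apply, Finset.sum_eq_single k]
    · simp [Complex.inner]
    · intro j _ hj
      simp [hj]
    · simp
  have h2 : inner ℝ z (Complex.I • bas k) = (z k).im := by
    rw [bas, PiLp.inner_apply, Finset.sum_eq_single k]
    · simp [Complex.inner]
    · intro j _ hj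
      simp [hj]
    · simp
  rw [h1, h2]
  push_cast
  conv_rhs => rw [← Complex.re_add_im (z k)]
  ring

lemma nsq_hess (z : Cn n) : hess (fun w : Cn n => ‖w‖ ^ 2 - 1) z = 1 := by
  ext j k
  rw [hess, Matrix.of_apply, nsq_wdb]
  have h1 : ∀ h : Cn n, fderiv ℝ (fun z : Cn n => z k) z h = h k := by
    intro h
    have : HasFDerivAt (fun z : Cn n => z k)
        ((EuclideanSpace.proj k : Cn n →L[ℂ] ℂ).restrictScalars ℝ) z :=
      ((EuclideanSpace.proj k : Cn n →L[ℂ] ℂ).restrictScalars ℝ).hasFDerivAt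
    rw [this.fderiv]
    rfl
  rw [wd, h1, h1]
  by_cases hjk : j = k
  · subst hjk
    simp [bas]
  · have hkj : k ≠ j := fun h => hjk h.symm
    simp [bas, hjk, hkj]

lemma nsq_density (z : Cn n) : maDensity (fun w : Cn n => ‖w‖ ^ 2 - 1) z =
    (n.factorial : ℝ) * (2 / Real.pi) ^ n := by
  rw [maDensity, nsq_hess, Matrix.det_one, Complex.one_re, mul_one]

/-- `‖z‖² - 1` is plurisubharmonic -/
lemma nsq_psh (Ω : Set (Cn n)) : PSH Ω (fun z => ((‖z‖ ^ 2 - 1 : ℝ) : EReal)) := by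
  refine ⟨?_, fun z _ => EReal.coe_lt_top _, ?_⟩
  · apply Continuous.upperSemicontinuous _ |>.upperSemicontinuousOn
    exact continuous_coe_real_ereal.comp nsq_smooth.continuous
  · intro a b _ φ hφ hle
    have h1 : ∀ ζ : ℂ, ‖ζ‖ = 1 → ‖a + ζ • b‖ ^ 2 - 1 ≤ φ ζ := fun ζ hζ => by
      exact EReal.coe_le_coe_iff.1 (hle ζ hζ)
    -- the average of `‖a + ζ b‖²`
    have h2 : ∀ ζ : ℂ, ‖ζ‖ = 1 → (‖a‖ ^ 2 - 1 + ‖b‖ ^ 2) + 2 * (ζ * inner ℂ a b).re ≤ φ ζ := by
      intro ζ hζ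
      refine le_trans (le_of_eq ?_) (h1 ζ hζ)
      have h3 := norm_add_sq (𝕜 := ℂ) a (ζ • b)
      rw [h3, inner_smul_right, norm_smul, hζ, one_mul]
      change _ = ‖a‖ ^ 2 + 2 * (ζ * inner ℂ a b).re + ‖b‖ ^ 2 - 1
      ring
    have h4 : Real.circleAverage (fun ζ : ℂ => (‖a‖ ^ 2 - 1 + ‖b‖ ^ 2) + 2 * (ζ * inner ℂ a b).re) 0 1
        ≤ Real.circleAverage φ 0 1 := by
      apply Real.circleAverage_mono
      · apply ContinuousOn.circleIntegrable'
        fun_prop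
      · exact hφ.continuousOn.circleIntegrable'
      · intro ζ hζ
        exact h2 ζ (by simpa using hζ)
    have h5 : Real.circleAverage (fun ζ : ℂ => (‖a‖ ^ 2 - 1 + ‖b‖ ^ 2) + 2 * (ζ * inner ℂ a b).re) 0 1
        = ‖a‖ ^ 2 - 1 + ‖b‖ ^ 2 := by
      have e1 : (fun ζ : ℂ => (‖a‖ ^ 2 - 1 + ‖b‖ ^ 2) + 2 * (ζ * inner ℂ a b).re) =
          fun ζ : ℂ => Complex.reCLM (((‖a‖ ^ 2 - 1 + ‖b‖ ^ 2 : ℝ) : ℂ) + 2 * (ζ * inner ℂ a b)) := by
        funext ζ
        simp only [Complex.reCLM_apply, Complex.add_re, Complex.ofReal_re]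
        simp
      have e2 : DiffContOnCl ℂ (fun ζ : ℂ => ((‖a‖ ^ 2 - 1 + ‖b‖ ^ 2 : ℝ) : ℂ) + 2 * (ζ * inner ℂ a b))
          (ball 0 |(1 : ℝ)|) := by
        apply Differentiable.diffContOnCl
        fun_prop
      have e3 := DiffContOnCl.circleAverage e2
      have e4 := Complex.reCLM.circleAverage_comp_comm (c := 0) (R := 1)
        (f := fun ζ : ℂ => ((‖a‖ ^ 2 - 1 + ‖b‖ ^ 2 : ℝ) : ℂ) + 2 * (ζ * inner ℂ a b)) (by
          apply ContinuousOn.circleIntegrable'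
          fun_prop)
      rw [e1]
      refine Eq.trans e4 ?_
      rw [e3]
      simp [← Complex.ofReal_pow]
    have h6 : ‖a‖ ^ 2 - 1 ≤ Real.circleAverage φ 0 1 := by
      rw [h5] at h4
      nlinarith [sq_nonneg ‖b‖]
    exact EReal.coe_le_coe_iff.2 h6

/-- the ball is hyperconvex -/
lemma ball_hyperconvex : Hyperconvex (ball (0 : Cn n) 1) := by
  refine ⟨_, nsq_psh _, ?_, ?_⟩
  · intro z hz
    rw [mem_ball_zero_iff] at hz
    have : ‖z‖ ^ 2 - 1 < 0 := by nlinarith [norm_nonneg z]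
    exact_mod_cast this
  · intro c hc
    refine ⟨closedBall 0 (Real.sqrt (1 + max c (-1))), isCompact_closedBall _ _, ?_, ?_⟩
    · apply closedBall_subset_ball
      rw [Real.sqrt_lt' one_pos]
      have : max c (-1) < 0 := max_lt hc (by norm_num)
      linarith
    · intro z _ hz
      have h1 : ‖z‖ ^ 2 - 1 < c := EReal.coe_lt_coe_iff.1 hz
      rw [mem_closedBall_zero_iff]
      apply Real.le_sqrt_of_sq_le
      have := le_max_left c (-1)
      linarith

/-- `(dd^c (|z|² - 1))ⁿ = n! (2/π)ⁿ dVol` -/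
lemma nsq_ma : IsMongeAmpere (ball (0 : Cn n) 1) (fun z => ‖z‖ ^ 2 - 1)
    (ENNReal.ofReal ((n.factorial : ℝ) * (2 / Real.pi) ^ n) • volume) := by
  refine ⟨?_, ?_⟩
  · intro K hK _
    rw [Measure.smul_apply, smul_eq_mul]
    exact ENNReal.mul_lt_top ENNReal.ofReal_lt_top hK.measure_lt_top
  · intro U _ _ _
    refine ⟨fun _ z => ‖z‖ ^ 2 - 1, fun _ => nsq_smooth.contDiffOn, ?_, fun _ _ => antitone_const,
      fun _ _ => tendsto_const_nhds, ?_⟩
    · intro _ z _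
      rw [nsq_hess]
      exact Matrix.PosSemidef.one
    · intro χ _ _ _
      have h0 : (0 : ℝ) ≤ (n.factorial : ℝ) * (2 / Real.pi) ^ n := by positivity
      rw [integral_smul_measure, ENNReal.toReal_ofReal h0, smul_eq_mul]
      have : ∀ z, χ z * maDensity (fun w : Cn n => ‖w‖ ^ 2 - 1) z =
          ((n.factorial : ℝ) * (2 / Real.pi) ^ n) * χ z := fun z => by
        rw [nsq_density, mul_comm]
      simp only [this, integral_const_mul]
      exact tendsto_const_nhds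

lemma nsq_mass (hn : 1 ≤ n) : (ENNReal.ofReal ((n.factorial : ℝ) * (2 / Real.pi) ^ n) •
    (volume : Measure (Cn n))) (ball 0 1) = ENNReal.ofReal (2 ^ n) := by
  have : Nonempty (Fin n) := ⟨⟨0, hn⟩⟩
  have hfin : Module.finrank ℝ (Cn n) = 2 * n := by
    rw [← Module.finrank_mul_finrank ℝ ℂ (Cn n), Complex.finrank_real_complex,
      finrank_euclideanSpace_fin]
  rw [Measure.smul_apply, smul_eq_mul, InnerProductSpace.volume_ball_of_dim_even hfin,
    ENNReal.ofReal_one, one_pow, one_mul, ← ENNReal.ofReal_mul (by positivity)]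
  congr 1
  have h1 : (n.factorial : ℝ) ≠ 0 := by positivity
  have h2 := Real.pi_pos.ne'
  rw [div_pow]
  field_simp

/-- **Non-vacuity**: the function `|z|² - 1` lies in `𝓕(B)` with total mass `2ⁿ`, i.e. `λ = 2`. -/
theorem example_F (hn : 1 ≤ n) : IsOpen (ball (0 : Cn n) 1) ∧ IsConnected (ball (0 : Cn n) 1) ∧
    Bornology.IsBounded (ball (0 : Cn n) 1) ∧ Hyperconvex (ball (0 : Cn n) 1) ∧
    IsCegrellF (ball (0 : Cn n) 1) (fun z => ((‖z‖ ^ 2 - 1 : ℝ) : EReal))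
      (ENNReal.ofReal ((n.factorial : ℝ) * (2 / Real.pi) ^ n) • volume) ∧
    (ENNReal.ofReal ((n.factorial : ℝ) * (2 / Real.pi) ^ n) • (volume : Measure (Cn n))) (ball 0 1) =
      ENNReal.ofReal (2 ^ n) := by
  have hE : IsE0 (ball (0 : Cn n) 1) (fun z => ‖z‖ ^ 2 - 1)
      (ENNReal.ofReal ((n.factorial : ℝ) * (2 / Real.pi) ^ n) • volume) := by
    refine ⟨nsq_psh _, ⟨1, fun z _ => by nlinarith [sq_nonneg ‖z‖]⟩, ?_, ?_, nsq_ma, ?_⟩
    · intro z hz
      rw [mem_ball_zero_iff] at hz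
      nlinarith [norm_nonneg z]
    · intro w hw
      have h1 : ‖w‖ = 1 := by
        have := frontier_ball_subset_sphere hw
        simpa using this
      have h2 : Tendsto (fun z : Cn n => ‖z‖ ^ 2 - 1) (𝓝 w) (𝓝 (‖w‖ ^ 2 - 1)) :=
        nsq_smooth.continuous.tendsto w
      rw [h1, one_pow, sub_self] at h2
      exact h2.mono_left nhdsWithin_le_nhds
    · rw [nsq_mass hn]; exact ENNReal.ofReal_lt_top
  refine ⟨isOpen_ball, ?_, isBounded_ball, ball_hyperconvex, ⟨nsq_psh _, ?_, fun _ z => ‖z‖ ^ 2 - 1,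
    fun _ => _, fun _ => hE, fun _ _ => antitone_const, fun _ _ => tendsto_const_nhds,
    ⟨2 ^ n, fun _ => (nsq_mass hn).le⟩, fun _ _ _ _ => tendsto_const_nhds⟩, nsq_mass hn⟩
  · exact (convex_ball (0 : Cn n) 1).isConnected ⟨0, mem_ball_self one_pos⟩
  · rw [nsq_mass hn]; exact ENNReal.ofReal_lt_top

end Pool.Agent.H805R2
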