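import Mathlib

set_option autoImplicit false

open Finset

namespace Pool.Agent.H805R2.Fek

/-- number of monomials of degree `≤ d` in `n` variables -/
def NN (n d : ℕ) : ℕ := Nat.choose (n + d) n

/-- `1/n` times the total degree of these monomials -/
def SS (n d : ℕ) : ℕ := Nat.choose (n + d) (n + 1)

lemma NN_pos (n d : ℕ) : 0 < NN n d := Nat.choose_pos (by omega)

lemma NN_zero (d : ℕ) : NN 0 d = 1 := by simp [NN]

lemma NN_zero_right (n : ℕ) : NN n 0 = 1 := by simp [NN]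

lemma SS_zero_right (n : ℕ) : SS n 0 = 0 := by simp [SS]

lemma NN_succ_mul (n d : ℕ) : NN (n + 1) d * (n + 1) = NN n d * (n + 1 + d) := by
  unfold NN
  have := Nat.add_one_mul_choose_eq (n + d) n
  have h2 : n + 1 + d = n + d + 1 := by ring
  rw [h2]
  linarith

lemma SS_mul (n d : ℕ) : SS n d * (n + 1) = d * NN n d := by
  unfold SS NN
  have := Nat.choose_succ_right_eq (n + d) n
  have h2 : n + d - n = d := by omega
  rw [h2] at this
  linarith

lemma SS_succ_mul (n d : ℕ) : SS (n + 1) d * ((n + 1) * (n + 2)) = NN n d * (d * (n + 1 + d)) := by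
  have h1 := SS_mul (n + 1) d
  have h2 := NN_succ_mul n d
  calc SS (n + 1) d * ((n + 1) * (n + 2)) = (SS (n + 1) d * (n + 1 + 1)) * (n + 1) := by ring
    _ = d * (NN (n + 1) d * (n + 1)) := by rw [h1]; ring
    _ = _ := by rw [h2]; ring

lemma NN_step (n d : ℕ) : NN (n + 1) (d + 1) = NN (n + 1) d + NN n (d + 1) := by
  unfold NN
  have : n + 1 + (d + 1) = (n + 1 + d) + 1 := by ring
  rw [this, Nat.choose_succ_succ]
  have h2 : n + 1 + d = n + (d + 1) := by ring
  rw [h2]
  ring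

lemma SS_step (n d : ℕ) : SS (n + 1) (d + 1) = SS (n + 1) d + NN (n + 1) d := by
  unfold NN SS
  have : n + 1 + (d + 1) = (n + 1 + d) + 1 := by ring
  rw [this, Nat.choose_succ_succ]
  ring

lemma SS_step' (n d : ℕ) : SS (n + 1) (d + 1) = SS (n + 1) d + SS n (d + 1) := by
  unfold SS
  have : n + 1 + (d + 1) = (n + 1 + d) + 1 := by ring
  rw [this, Nat.choose_succ_succ]
  have h2 : n + 1 + d = n + (d + 1) := by ring
  rw [h2]
  ring

lemma NN_sum (n d : ℕ) : ∑ k ∈ range (d + 1), NN n (d - k) = NN (n + 1) d := by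
  induction d with
  | zero => simp [NN]
  | succ d ih =>
    rw [sum_range_succ']
    simp only [Nat.add_sub_add_right, Nat.sub_zero]
    rw [ih, NN_step]

lemma sum_r (n d : ℕ) : ∑ k ∈ range (d + 1), SS n (d - k) = SS (n + 1) d := by
  induction d with
  | zero => simp [SS]
  | succ d ih =>
    rw [sum_range_succ']
    simp only [Nat.add_sub_add_right, Nat.sub_zero]
    rw [ih, SS_step']

lemma sum_p (n d : ℕ) : ∑ k ∈ range (d + 1), k * NN n (d - k) = SS (n + 1) d := by
  induction d with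
  | zero => simp [SS]
  | succ d ih =>
    rw [sum_range_succ']
    simp only [Nat.add_sub_add_right, Nat.sub_zero, zero_mul, add_zero]
    have : ∑ k ∈ range (d + 1), (k + 1) * NN n (d - k) =
        ∑ k ∈ range (d + 1), k * NN n (d - k) + ∑ k ∈ range (d + 1), NN n (d - k) := by
      rw [← sum_add_distrib]
      exact sum_congr rfl fun k _ => by ring
    rw [this, ih, NN_sum, SS_step]

lemma NN_half (n d e : ℕ) (h : d ≤ 2 * e) : NN n d ≤ 2 ^ n * NN n e := by
  induction n with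
  | zero => simp [NN]
  | succ n ih =>
    have h1 := NN_succ_mul n d
    have h2 := NN_succ_mul n e
    have h3 : NN (n + 1) d * (n + 1) ≤ (2 ^ (n + 1) * NN (n + 1) e) * (n + 1) := by
      rw [h1]
      calc NN n d * (n + 1 + d) ≤ (2 ^ n * NN n e) * (2 * (n + 1 + e)) := by
            apply Nat.mul_le_mul ih; omega
        _ = 2 ^ (n + 1) * (NN n e * (n + 1 + e)) := by ring
        _ = 2 ^ (n + 1) * NN (n + 1) e * (n + 1) := by rw [← h2]; ring
    exact Nat.le_of_mul_le_mul_right h3 (by omega)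

lemma NN_mono (n : ℕ) {d e : ℕ} (h : d ≤ e) : NN n d ≤ NN n e := by
  unfold NN
  exact Nat.choose_le_choose _ (by omega)

/-- the key numerical inequality -/
lemma gap (n d : ℕ) (hd : 1 ≤ d) : ∃ k0 ≤ d,
    (∑ k ∈ range (k0 + 1), (k * NN n (d - k) : ℕ) : ℝ) + (1 / 2) ^ n / (4 * (n + 2)) * (SS (n + 1) d : ℝ) ≤
      (∑ k ∈ range (k0 + 1), (SS n (d - k) : ℕ) : ℝ) := by
  refine ⟨d / (2 * (n + 2)), Nat.div_le_self _ _, ?_⟩
  set k0 := d / (2 * (n + 2)) with hk0
  have hk0' : k0 * (2 * (n + 2)) ≤ d := Nat.div_mul_le_self _ _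
  have hk1 : d < (k0 + 1) * (2 * (n + 2)) := by
    have := Nat.lt_div_mul_add (a := d) (b := 2 * (n + 2)) (by omega)
    rw [← hk0] at this
    linarith
  -- termwise bound
  have hterm : ∀ k ∈ range (k0 + 1),
      ((k * NN n (d - k) : ℕ) : ℝ) + (1 / 2) ^ n * (NN n d : ℝ) * d / (2 * (n + 1)) ≤ (SS n (d - k) : ℝ) := by
    intro k hk
    have hk2 : k ≤ k0 := by
      have := mem_range.1 hk
      omega
    have hk3 : k * (2 * (n + 2)) ≤ d := le_trans (Nat.mul_le_mul_right _ hk2) hk0'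
    have hk4 : 2 * k ≤ d := by nlinarith
    have hkd : k ≤ d := by omega
    have hS : (SS n (d - k) : ℝ) = ((d : ℝ) - k) * (NN n (d - k) : ℝ) / (n + 1) := by
      have := SS_mul n (d - k)
      have h' : (SS n (d - k) : ℝ) * (n + 1) = ((d - k : ℕ) : ℝ) * (NN n (d - k) : ℝ) := by
        exact_mod_cast this
      rw [Nat.cast_sub hkd] at h'
      field_simp
      linarith
    have hN : (NN n d : ℝ) ≤ 2 ^ n * (NN n (d - k) : ℝ) := by
      have := NN_half n d (d - k) (by omega)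
      exact_mod_cast this
    have hN' : (1 / 2 : ℝ) ^ n * (NN n d : ℝ) ≤ (NN n (d - k) : ℝ) := by
      rw [one_div, inv_pow, inv_mul_le_iff₀ (by positivity)]
      exact hN
    have hn1 : (0 : ℝ) < n + 1 := by positivity
    have hk5 : (k : ℝ) * (2 * (n + 2)) ≤ d := by exact_mod_cast hk3
    have hNpos : (0 : ℝ) ≤ (NN n (d - k) : ℝ) := by positivity
    rw [hS]
    have h1 : (1 / 2) ^ n * (NN n d : ℝ) * d / (2 * (n + 1)) ≤
        (NN n (d - k) : ℝ) * d / (2 * (n + 1)) := by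
      gcongr
    have h2 : (k : ℝ) * (NN n (d - k) : ℝ) + (NN n (d - k) : ℝ) * d / (2 * (n + 1)) ≤
        ((d : ℝ) - k) * (NN n (d - k) : ℝ) / (n + 1) := by
      have h3 : (k : ℝ) + d / (2 * (n + 1)) ≤ ((d : ℝ) - k) / (n + 1) := by
        rw [← sub_nonneg]
        have : ((d : ℝ) - k) / (n + 1) - ((k : ℝ) + d / (2 * (n + 1))) =
            (d - k * (2 * (n + 2))) / (2 * (n + 1)) := by
          field_simp
          ring
        rw [this]
        apply div_nonneg _ (by positivity)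
        linarith
      calc (k : ℝ) * (NN n (d - k) : ℝ) + (NN n (d - k) : ℝ) * d / (2 * (n + 1))
          = (NN n (d - k) : ℝ) * ((k : ℝ) + d / (2 * (n + 1))) := by ring
        _ ≤ (NN n (d - k) : ℝ) * (((d : ℝ) - k) / (n + 1)) := by gcongr
        _ = _ := by ring
    push_cast
    linarith
  have hsum := Finset.sum_le_sum hterm
  rw [Finset.sum_add_distrib, Finset.sum_const, card_range, nsmul_eq_mul] at hsum
  have hS1 : (SS (n + 1) d : ℝ) * ((n + 1) * (n + 2)) = (NN n d : ℝ) * (d * (n + 1 + d)) := by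
    exact_mod_cast SS_succ_mul n d
  have hk6 : (d : ℝ) ≤ ((k0 : ℝ) + 1) * (2 * (n + 2)) := by exact_mod_cast hk1.le
  have hd' : (1 : ℝ) ≤ d := by exact_mod_cast hd
  have hS2 : (SS (n + 1) d : ℝ) = (NN n d : ℝ) * (d * (n + 1 + d)) / ((n + 1) * (n + 2)) := by
    field_simp
    linarith
  have hN0 : (0 : ℝ) ≤ (NN n d : ℝ) := by positivity
  have e1 : (1 / 2 : ℝ) ^ n / (4 * (n + 2)) * ((NN n d : ℝ) * (d * (n + 1 + d)) / ((n + 1) * (n + 2)))
      = ((1 / 2) ^ n * (NN n d : ℝ) * d / (2 * (n + 1))) * ((n + 1 + d) / (2 * (n + 2) * (n + 2))) := by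
    field_simp
    ring
  have key : (1 / 2 : ℝ) ^ n / (4 * (n + 2)) * (SS (n + 1) d : ℝ) ≤
      ((k0 + 1 : ℕ) : ℝ) * ((1 / 2) ^ n * (NN n d : ℝ) * d / (2 * (n + 1))) := by
    rw [hS2, e1, mul_comm ((k0 + 1 : ℕ) : ℝ)]
    push_cast
    gcongr
    rw [div_le_iff₀ (by positivity)]
    nlinarith
  linarith

end Pool.Agent.H805R2.Fek
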