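import Mathlib

set_option autoImplicit false

open MeasureTheory Metric Set Filter Topology
open scoped ENNReal NNReal

namespace Pool.Agent.H805R2.Fek

lemma lint_ball (r : ℝ) (hr : 0 < r) :
    ∫⁻ z in ball (0 : ℂ) r, ENNReal.ofReal (‖z‖⁻¹) = ENNReal.ofReal (2 * Real.pi * r) := by
  have hint : IntegrableOn (fun z : ℂ => ‖z‖⁻¹) (ball (0 : ℂ) r) := by
    have := (integrableOn_fun_norm_addHaar (E := ℂ) (volume : Measure ℂ)
      (f := fun y : ℝ => y⁻¹) (r := r)).2
    apply this
    have h1 : IntegrableOn (fun _ : ℝ => (1 : ℝ)) (Ioo 0 r) := by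
      simp
    refine h1.congr_fun (fun y hy => ?_) measurableSet_Ioo
    simp only [Complex.finrank_real_complex, smul_eq_mul]
    norm_num
    rw [mul_inv_cancel₀ hy.1.ne']
  rw [← ofReal_integral_eq_lintegral_ofReal hint (ae_of_all _ fun z => by positivity)]
  congr 1
  have h2 : ∫ z in ball (0 : ℂ) r, ‖z‖⁻¹ = ∫ z : ℂ, (fun y : ℝ => (Iio r).indicator (fun y => y⁻¹) y) ‖z‖ := by
    rw [← integral_indicator measurableSet_ball]
    congr 1
    ext z
    simp [indicator]
  rw [h2, integral_fun_norm_addHaar (volume : Measure ℂ) (fun y : ℝ => (Iio r).indicator (fun y => y⁻¹) y)]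
  have h3 : ∫ y in Ioi (0 : ℝ), y ^ (Module.finrank ℝ ℂ - 1) • (Iio r).indicator (fun y => y⁻¹) y = r := by
    have : ∀ y ∈ Ioi (0 : ℝ), y ^ (Module.finrank ℝ ℂ - 1) • (Iio r).indicator (fun y => y⁻¹) y
        = (Iio r).indicator (fun _ => (1 : ℝ)) y := by
      intro y hy
      rw [Complex.finrank_real_complex]
      by_cases h : y ∈ Iio r
      · rw [indicator_of_mem h, indicator_of_mem h]
        simp only [smul_eq_mul]
        norm_num
        exact mul_inv_cancel₀ (ne_of_gt hy)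
      · rw [indicator_of_notMem h, indicator_of_notMem h]
        simp
    rw [setIntegral_congr_fun measurableSet_Ioi this, integral_indicator measurableSet_Iio,
      Measure.restrict_restrict measurableSet_Iio]
    have : Iio r ∩ Ioi 0 = Ioo 0 r := by ext; simp [and_comm]
    rw [this]
    simp [hr.le]
  rw [h3]
  have h4 : (volume : Measure ℂ).real (ball 0 1) = Real.pi := by
    rw [Measure.real, Complex.volume_ball]
    simp
  rw [h4, Complex.finrank_real_complex]
  simp only [smul_eq_mul, nsmul_eq_mul]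
  push_cast
  ring

/-- potential estimate -/
lemma lint_inv (E : Set ℂ) (hE : MeasurableSet E) (τ : ℂ) (A : ℝ) (hA : 0 < A)
    (hvol : volume E = ENNReal.ofReal A) :
    ∫⁻ z in E, ENNReal.ofReal (‖z - τ‖⁻¹) ≤ ENNReal.ofReal ((2 * Real.pi + 1) * √A) := by
  have hs : 0 < √A := Real.sqrt_pos.2 hA
  have h1 : ∫⁻ z in E, ENNReal.ofReal (‖z - τ‖⁻¹) ≤
      (∫⁻ z in ball τ √A, ENNReal.ofReal (‖z - τ‖⁻¹)) + ∫⁻ _ in E, ENNReal.ofReal ((√A)⁻¹) := by
    rw [← lintegral_indicator hE, ← lintegral_indicator measurableSet_ball,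
      ← lintegral_indicator hE, ← lintegral_add_left]
    · apply lintegral_mono
      intro z
      by_cases hz : z ∈ E
      · simp only [indicator_of_mem hz]
        by_cases hb : z ∈ ball τ √A
        · rw [indicator_of_mem hb]
          exact le_self_add
        · rw [indicator_of_notMem hb, zero_add]
          apply ENNReal.ofReal_le_ofReal
          rw [mem_ball, dist_eq_norm, not_lt] at hb
          exact inv_anti₀ hs hb
      · simp only [indicator_of_notMem hz]
        exact zero_le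
    · apply Measurable.indicator _ measurableSet_ball
      fun_prop
  refine h1.trans ?_
  have h2 : ∫⁻ z in ball τ √A, ENNReal.ofReal (‖z - τ‖⁻¹) = ENNReal.ofReal (2 * Real.pi * √A) := by
    rw [← lint_ball _ hs]
    have : MeasurePreserving (fun z : ℂ => z - τ) volume volume :=
      measurePreserving_sub_right volume τ
    have h3 := this.setLIntegral_comp_preimage (s := ball 0 √A) measurableSet_ball
      (f := fun z => ENNReal.ofReal (‖z‖⁻¹)) (by fun_prop)
    rw [← h3]
    congr 2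
    ext z
    simp [dist_eq_norm]
  rw [h2, lintegral_const, Measure.restrict_apply_univ, hvol, ← ENNReal.ofReal_mul (by positivity),
    ← ENNReal.ofReal_add (by positivity) (by positivity)]
  apply ENNReal.ofReal_le_ofReal
  have : (√A)⁻¹ * A = √A := by
    rw [inv_mul_eq_div, Real.div_sqrt]
  rw [this]
  linarith

/-- a point of `E` far from finitely many given points, in the mean -/
lemma exists_far (E : Set ℂ) (hE : MeasurableSet E) (A : ℝ) (hA : 0 < A)
    (hvol : volume E = ENNReal.ofReal A) (k : ℕ) (t : ℕ → ℂ) :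
    ∃ z ∈ E, (A / 64) ^ k ≤ ∏ i ∈ Finset.range k, ‖z - t i‖ ^ 2 := by
  rcases Nat.eq_zero_or_pos k with rfl | hk
  · have hne : E.Nonempty := by
      rw [nonempty_iff_ne_empty]
      rintro rfl
      simp at hvol
      linarith
    obtain ⟨z, hz⟩ := hne
    exact ⟨z, hz, by simp⟩
  by_contra hcon
  push Not at hcon
  have hs : 0 < √A := Real.sqrt_pos.2 hA
  have hk' : (0 : ℝ) < k := by exact_mod_cast hk
  -- pointwise inequality off the finite set
  have hpt : ∀ z ∈ E, z ∉ (t '' (Finset.range k : Set ℕ)) →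
      8 / √A ≤ (k : ℝ)⁻¹ * ∑ i ∈ Finset.range k, ‖z - t i‖⁻¹ := by
    intro z hz hzt
    have hpos : ∀ i ∈ Finset.range k, 0 < ‖z - t i‖ := by
      intro i hi
      rw [norm_pos_iff, sub_ne_zero]
      rintro rfl
      exact hzt ⟨i, by simpa using hi, rfl⟩
    have hamgm : ∏ i ∈ Finset.range k, ‖z - t i‖⁻¹ ≤
        ((k : ℝ)⁻¹ * ∑ i ∈ Finset.range k, ‖z - t i‖⁻¹) ^ k := by
      have h := Real.geom_mean_le_arith_mean (Finset.range k) (fun _ => (1 : ℝ))
        (fun i => ‖z - t i‖⁻¹) (fun _ _ => zero_le_one) (by simpa using hk')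
        (fun i hi => (inv_pos.2 (hpos i hi)).le)
      simp only [Real.rpow_one, Finset.sum_const, Finset.card_range, nsmul_eq_mul, mul_one,
        one_mul] at h
      have hP : 0 ≤ ∏ i ∈ Finset.range k, ‖z - t i‖⁻¹ :=
        Finset.prod_nonneg fun i hi => (inv_pos.2 (hpos i hi)).le
      calc ∏ i ∈ Finset.range k, ‖z - t i‖⁻¹
          = ((∏ i ∈ Finset.range k, ‖z - t i‖⁻¹) ^ ((k : ℝ)⁻¹)) ^ k := by
            rw [← Real.rpow_natCast, ← Real.rpow_mul hP, inv_mul_cancel₀ hk'.ne', Real.rpow_one]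
        _ ≤ _ := by
            apply pow_le_pow_left₀ (Real.rpow_nonneg hP _)
            rw [inv_mul_eq_div]
            exact h
    have h1 : (64 / A) ^ k < (∏ i ∈ Finset.range k, ‖z - t i‖⁻¹) ^ 2 := by
      have h2 := hcon z hz
      rw [← Finset.prod_pow]
      have h3 : ∏ i ∈ Finset.range k, (‖z - t i‖⁻¹) ^ 2 = (∏ i ∈ Finset.range k, ‖z - t i‖ ^ 2)⁻¹ := by
        rw [← Finset.prod_inv_distrib]
        exact Finset.prod_congr rfl fun i _ => by rw [inv_pow]
      have h4 : 0 < ∏ i ∈ Finset.range k, ‖z - t i‖ ^ 2 :=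
        Finset.prod_pos fun i hi => pow_pos (hpos i hi) 2
      rw [h3]
      have h5 : (64 / A) ^ k = ((A / 64) ^ k)⁻¹ := by
        rw [← inv_pow, inv_div]
      rw [h5]
      exact inv_strictAnti₀ h4 h2
    by_contra hlt
    push Not at hlt
    have hnn : 0 ≤ (k : ℝ)⁻¹ * ∑ i ∈ Finset.range k, ‖z - t i‖⁻¹ := by positivity
    have h6 : (∏ i ∈ Finset.range k, ‖z - t i‖⁻¹) ^ 2 ≤ (64 / A) ^ k := by
      calc (∏ i ∈ Finset.range k, ‖z - t i‖⁻¹) ^ 2
          ≤ (((k : ℝ)⁻¹ * ∑ i ∈ Finset.range k, ‖z - t i‖⁻¹) ^ k) ^ 2 := by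
            apply pow_le_pow_left₀ _ hamgm
            exact Finset.prod_nonneg fun i hi => (inv_pos.2 (hpos i hi)).le
        _ ≤ ((8 / √A) ^ k) ^ 2 := by
            gcongr
        _ = (64 / A) ^ k := by
            rw [← pow_mul, mul_comm, pow_mul, div_pow, Real.sq_sqrt hA.le]
            norm_num
    linarith
  -- integrate
  have hnull : volume (t '' (Finset.range k : Set ℕ)) = 0 := by
    apply Set.Countable.measure_zero
    exact (Finset.countable_toSet _).image _
  have hI : ∫⁻ _ in E, ENNReal.ofReal (8 / √A) ≤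
      ∫⁻ z in E, ENNReal.ofReal ((k : ℝ)⁻¹ * ∑ i ∈ Finset.range k, ‖z - t i‖⁻¹) := by
    apply lintegral_mono_ae
    rw [ae_restrict_iff' hE]
    have : ∀ᵐ z : ℂ, z ∉ (t '' (Finset.range k : Set ℕ)) := measure_eq_zero_iff_ae_notMem.1 hnull
    filter_upwards [this] with z hz hzE
    exact ENNReal.ofReal_le_ofReal (hpt z hzE hz)
  have hJ : ∫⁻ z in E, ENNReal.ofReal ((k : ℝ)⁻¹ * ∑ i ∈ Finset.range k, ‖z - t i‖⁻¹) ≤
      ENNReal.ofReal ((2 * Real.pi + 1) * √A) := by
    calc ∫⁻ z in E, ENNReal.ofReal ((k : ℝ)⁻¹ * ∑ i ∈ Finset.range k, ‖z - t i‖⁻¹)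
        = ∫⁻ z in E, ENNReal.ofReal ((k : ℝ)⁻¹) * ∑ i ∈ Finset.range k, ENNReal.ofReal (‖z - t i‖⁻¹) := by
          congr 1
          ext z
          rw [ENNReal.ofReal_mul (by positivity), ENNReal.ofReal_sum_of_nonneg (by intros; positivity)]
      _ = ENNReal.ofReal ((k : ℝ)⁻¹) * ∑ i ∈ Finset.range k, ∫⁻ z in E, ENNReal.ofReal (‖z - t i‖⁻¹) := by
          rw [lintegral_const_mul _ (by fun_prop), lintegral_finsetSum _ (fun i _ => by fun_prop)]
      _ ≤ ENNReal.ofReal ((k : ℝ)⁻¹) * ∑ i ∈ Finset.range k, ENNReal.ofReal ((2 * Real.pi + 1) * √A) := by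
          gcongr with i _
          exact lint_inv E hE (t i) A hA hvol
      _ = ENNReal.ofReal ((2 * Real.pi + 1) * √A) := by
          rw [Finset.sum_const, Finset.card_range, nsmul_eq_mul, ← mul_assoc,
            ← ENNReal.ofReal_natCast k, ← ENNReal.ofReal_mul (by positivity),
            inv_mul_cancel₀ hk'.ne', ENNReal.ofReal_one, one_mul]
  have hK := hI.trans hJ
  rw [lintegral_const, Measure.restrict_apply_univ, hvol, ← ENNReal.ofReal_mul (by positivity),
    ENNReal.ofReal_le_ofReal_iff (by positivity)] at hK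
  have h8 : 8 / √A * A = 8 * √A := by
    rw [div_mul_eq_mul_div, mul_div_assoc, Real.div_sqrt]
  rw [h8] at hK
  have := Real.pi_lt_d2
  nlinarith

/-- successive choice of points -/
lemma exists_seq (E : ℕ → Set ℂ) (hE : ∀ k, MeasurableSet (E k)) (A : ℕ → ℝ) (hA : ∀ k, 0 < A k)
    (hvol : ∀ k, volume (E k) = ENNReal.ofReal (A k)) (m : ℕ) :
    ∃ t : ℕ → ℂ, ∀ k < m, t k ∈ E k ∧ (A k / 64) ^ k ≤ ∏ i ∈ Finset.range k, ‖t k - t i‖ ^ 2 := by
  induction m with
  | zero => exact ⟨0, by simp⟩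
  | succ m ih =>
    obtain ⟨t, ht⟩ := ih
    obtain ⟨z, hz, hz'⟩ := exists_far (E m) (hE m) (A m) (hA m) (hvol m) m t
    refine ⟨Function.update t m z, ?_⟩
    intro k hk
    have hprod : ∀ w : ℂ, ∀ j ≤ m, ∏ i ∈ Finset.range j, ‖w - Function.update t m z i‖ ^ 2 =
        ∏ i ∈ Finset.range j, ‖w - t i‖ ^ 2 := by
      intro w j hj
      apply Finset.prod_congr rfl
      intro i hi
      rw [Function.update_of_ne]
      have := Finset.mem_range.1 hi
      omega
    rcases Nat.lt_succ_iff_lt_or_eq.1 hk with h | rfl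
    · rw [Function.update_of_ne h.ne, hprod _ k h.le]
      exact ht k h
    · rw [Function.update_self, hprod _ k le_rfl]
      exact ⟨hz, hz'⟩

end Pool.Agent.H805R2.Fek
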