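import Mathlib

set_option autoImplicit false

open MeasureTheory Metric Set Filter Topology
open scoped ENNReal NNReal

namespace Pool.Agent.H805R2.Fek

lemma summable_zgeom (r : ℝ) (h0 : 0 ≤ r) (h1 : r < 1) : Summable fun m : ℤ => r ^ m.natAbs := by
  apply Summable.of_nat_of_neg
  · simpa using summable_geometric_of_lt_one h0 h1
  · simpa using summable_geometric_of_lt_one h0 h1

/-- choice of two dyadic levels -/
lemma levels (κ : ℝ) (hκ : 0 < κ) : ∃ c > 0, ∀ (v : ℝ) (w : ℤ → ℝ) (F : Finset ℤ),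
    0 < v → (∀ m, 0 ≤ w m) → v / 4 ≤ ∑ m ∈ F, w m → ∀ q : ℝ, 0 ≤ q → q ≤ 1 →
    ∃ m1 m2 : ℤ, m1 ≤ m2 ∧ 0 < w m1 ∧ 0 < w m2 ∧
      c * v ≤ w m2 ^ q * w m1 ^ (1 - q) * (2 : ℝ) ^ (κ * ((m2 : ℝ) - m1)) := by
  set r : ℝ := (2 : ℝ) ^ (-κ) with hr
  have hr0 : 0 < r := Real.rpow_pos_of_pos two_pos _
  have hr1 : r < 1 := Real.rpow_lt_one_of_one_lt_of_neg one_lt_two (by linarith)
  set T : ℝ := ∑' m : ℤ, r ^ m.natAbs with hT
  have hT0 : 0 ≤ T := tsum_nonneg fun m => by positivity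
  refine ⟨1 / (8 * (T + 1)), by positivity, ?_⟩
  intro v w F hv hw hF q hq0 hq1
  set c : ℝ := 1 / (8 * (T + 1)) with hc
  have hFne : F.Nonempty := by
    rw [Finset.nonempty_iff_ne_empty]
    rintro rfl
    simp at hF
    linarith
  obtain ⟨ms, hms, hmax⟩ := F.exists_max_image w hFne
  have hW : 0 < w ms := by
    rcases (hw ms).lt_or_eq with h | h
    · exact h
    · exfalso
      have : ∑ m ∈ F, w m ≤ 0 := Finset.sum_nonpos fun m hm => by
        have := hmax m hm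
        linarith
      linarith
  by_contra hcon
  push Not at hcon
  -- bound on each level
  have hlev : ∀ m ∈ F, w m ≤ c * v * r ^ (m - ms).natAbs := by
    intro m hm
    rcases (hw m).lt_or_eq with hpos | h0
    swap
    · rw [← h0]; positivity
    rcases le_total ms m with hle | hle
    · have h1 := hcon ms m hle hW hpos
      have h2 : w m ≤ w m ^ q * w ms ^ (1 - q) := by
        calc w m = w m ^ q * w m ^ (1 - q) := by
              rw [← Real.rpow_add hpos]; simp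
          _ ≤ _ := by
              apply mul_le_mul_of_nonneg_left _ (Real.rpow_nonneg hpos.le _)
              exact Real.rpow_le_rpow hpos.le (hmax m hm) (by linarith)
      have h3 : r ^ (m - ms).natAbs * (2 : ℝ) ^ (κ * ((m : ℝ) - ms)) = 1 := by
        rw [hr, ← Real.rpow_natCast, ← Real.rpow_mul two_pos.le, ← Real.rpow_add two_pos]
        have : (((m - ms).natAbs : ℕ) : ℝ) = (m : ℝ) - ms := by
          rw [Nat.cast_natAbs, abs_of_nonneg (by omega)]
          push_cast; ring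
        rw [this]
        rw [show -κ * ((m : ℝ) - ms) + κ * ((m : ℝ) - ms) = 0 by ring, Real.rpow_zero]
      have hR : 0 < r ^ (m - ms).natAbs := by positivity
      calc w m ≤ w m ^ q * w ms ^ (1 - q) := h2
        _ = (w m ^ q * w ms ^ (1 - q) * (2 : ℝ) ^ (κ * ((m : ℝ) - ms))) * r ^ (m - ms).natAbs := by
            rw [mul_assoc, mul_comm ((2 : ℝ) ^ (κ * ((m : ℝ) - ms))), h3, mul_one]
        _ ≤ _ := by
            apply mul_le_mul_of_nonneg_right h1.le hR.le
    · have h1 := hcon m ms hle hpos hW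
      have h2 : w m ≤ w ms ^ q * w m ^ (1 - q) := by
        calc w m = w m ^ q * w m ^ (1 - q) := by
              rw [← Real.rpow_add hpos]; simp
          _ ≤ _ := by
              apply mul_le_mul_of_nonneg_right _ (Real.rpow_nonneg hpos.le _)
              exact Real.rpow_le_rpow hpos.le (hmax m hm) hq0
      have h3 : r ^ (m - ms).natAbs * (2 : ℝ) ^ (κ * ((ms : ℝ) - m)) = 1 := by
        rw [hr, ← Real.rpow_natCast, ← Real.rpow_mul two_pos.le, ← Real.rpow_add two_pos]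
        have : (((m - ms).natAbs : ℕ) : ℝ) = (ms : ℝ) - m := by
          rw [Nat.cast_natAbs, abs_of_nonpos (by omega)]
          push_cast; ring
        rw [this]
        rw [show -κ * ((ms : ℝ) - m) + κ * ((ms : ℝ) - m) = 0 by ring, Real.rpow_zero]
      have hR : 0 < r ^ (m - ms).natAbs := by positivity
      calc w m ≤ w ms ^ q * w m ^ (1 - q) := h2
        _ = (w ms ^ q * w m ^ (1 - q) * (2 : ℝ) ^ (κ * ((ms : ℝ) - m))) * r ^ (m - ms).natAbs := by
            rw [mul_assoc, mul_comm ((2 : ℝ) ^ (κ * ((ms : ℝ) - m))), h3, mul_one]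
        _ ≤ _ := by
            apply mul_le_mul_of_nonneg_right h1.le hR.le
  have hsum : ∑ m ∈ F, w m ≤ c * v * T := by
    calc ∑ m ∈ F, w m ≤ ∑ m ∈ F, c * v * r ^ (m - ms).natAbs := Finset.sum_le_sum hlev
      _ = c * v * ∑ m ∈ F, r ^ (m - ms).natAbs := by rw [Finset.mul_sum]
      _ ≤ c * v * T := by
          apply mul_le_mul_of_nonneg_left _ (by positivity)
          have hs : Summable fun m : ℤ => r ^ (m - ms).natAbs :=
            (Equiv.subRight ms).summable_iff.2 (summable_zgeom r hr0.le hr1)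
          have ht : ∑' m : ℤ, r ^ (m - ms).natAbs = T :=
            (Equiv.subRight ms).tsum_eq (fun m : ℤ => r ^ m.natAbs)
          rw [← ht]
          exact hs.sum_le_tsum F (fun m _ => by positivity)
  have h5 : c * v * T < v / 4 := by
    rw [hc, one_div, inv_mul_eq_div, div_mul_eq_mul_div, div_lt_div_iff₀ (by positivity) (by norm_num)]
    nlinarith
  linarith

lemma slice_levels (κ : ℝ) (hκ : 0 < κ) : ∃ c > 0, ∀ (n : ℕ) (K : Set (Fin (n + 1) → ℂ)),
    MeasurableSet K → ∀ v : ℝ, 0 < v → volume K = ENNReal.ofReal v →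
    ∀ q : ℝ, 0 ≤ q → q ≤ 1 →
    ∃ (E1 E2 : Set ℂ) (A1 A2 h1 h2 : ℝ), MeasurableSet E1 ∧ MeasurableSet E2 ∧
      0 < A1 ∧ 0 < A2 ∧ 0 < h1 ∧ h1 ≤ h2 ∧
      volume E1 = ENNReal.ofReal A1 ∧ volume E2 = ENNReal.ofReal A2 ∧
      (∀ t ∈ E1, ∃ a, h1 ≤ a ∧
        volume {y : Fin n → ℂ | (Fin.cons t y : Fin (n + 1) → ℂ) ∈ K} = ENNReal.ofReal a) ∧
      (∀ t ∈ E2, ∃ a, h2 ≤ a ∧
        volume {y : Fin n → ℂ | (Fin.cons t y : Fin (n + 1) → ℂ) ∈ K} = ENNReal.ofReal a) ∧
      c * v ≤ (A2 * h2) ^ q * (A1 * h1) ^ (1 - q) * (h2 / h1) ^ κ := by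
  obtain ⟨c, hc, H⟩ := levels κ hκ
  refine ⟨c, hc, ?_⟩
  intro n K hK v hv hvol q hq0 hq1
  -- slice function
  set a : ℂ → ℝ≥0∞ := fun t => volume {y : Fin n → ℂ | (Fin.cons t y : Fin (n + 1) → ℂ) ∈ K} with ha
  set e := MeasurableEquiv.piFinSuccAbove (fun _ : Fin (n + 1) => ℂ) 0 with he
  have hmp : MeasurePreserving e volume volume :=
    volume_preserving_piFinSuccAbove (fun _ : Fin (n + 1) => ℂ) 0
  set K' : Set (ℂ × (Fin n → ℂ)) := e.symm ⁻¹' K with hK'
  have hK'm : MeasurableSet K' := e.symm.measurable hK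
  have hsl : ∀ t, Prod.mk t ⁻¹' K' = {y : Fin n → ℂ | (Fin.cons t y : Fin (n + 1) → ℂ) ∈ K} := by
    intro t
    ext y
    simp only [hK', mem_preimage, Set.mem_ofPred_eq]
    have : e.symm (t, y) = (Fin.cons t y : Fin (n + 1) → ℂ) := by
      rw [he]
      exact Fin.insertNth_zero' t y
    rw [this]
  have ham : Measurable a := by
    have := measurable_measure_prodMk_left (ν := (volume : Measure (Fin n → ℂ))) hK'm
    simpa only [hsl] using this
  have hint : ∫⁻ t, a t = ENNReal.ofReal v := by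
    have h1 : volume K' = ENNReal.ofReal v := by
      rw [← hvol, hK']
      exact hmp.symm.measure_preimage hK.nullMeasurableSet
    rw [← h1]
    have h2 := Measure.prod_apply (μ := (volume : Measure ℂ)) (ν := (volume : Measure (Fin n → ℂ))) hK'm
    rw [Measure.volume_eq_prod, h2]
    apply lintegral_congr
    intro t
    rw [hsl]
  -- levels
  set E : ℤ → Set ℂ := fun m => a ⁻¹' (Ico ((2 : ℝ≥0∞) ^ m) ((2 : ℝ≥0∞) ^ (m + 1))) with hE
  have hEm : ∀ m, MeasurableSet (E m) := fun m => ham measurableSet_Ico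
  have h2m0 : ∀ m : ℤ, (2 : ℝ≥0∞) ^ m ≠ 0 := fun m => (ENNReal.zpow_pos (by norm_num) (by norm_num) m).ne'
  have h2mt : ∀ m : ℤ, (2 : ℝ≥0∞) ^ m ≠ ⊤ := fun m => (ENNReal.zpow_lt_top (by norm_num) (by norm_num) m).ne
  have h2r : ∀ m : ℤ, (2 : ℝ≥0∞) ^ m = ENNReal.ofReal ((2 : ℝ) ^ m) := by
    intro m
    have h22 : (2 : ℝ≥0∞) = ((2 : ℝ≥0) : ℝ≥0∞) := by simp
    rw [h22, ← ENNReal.coe_zpow two_ne_zero, ENNReal.ofReal, ENNReal.coe_inj]
    apply NNReal.eq
    rw [Real.coe_toNNReal _ (by positivity)]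
    simp
  have hdisj : Pairwise (Function.onFun Disjoint E) := by
    intro m m' hmm
    apply Disjoint.preimage
    rw [Set.disjoint_left]
    intro x hx hx'
    have h12 : (1 : ℝ≥0∞) ≤ 2 := by norm_num
    rcases lt_or_gt_of_ne hmm with h | h
    · have : (2 : ℝ≥0∞) ^ (m + 1) ≤ 2 ^ m' := ENNReal.zpow_le_of_le h12 (by omega)
      exact absurd (lt_of_lt_of_le hx.2 (this.trans hx'.1)) (lt_irrefl _)
    · have : (2 : ℝ≥0∞) ^ (m' + 1) ≤ 2 ^ m := ENNReal.zpow_le_of_le h12 (by omega)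
      exact absurd (lt_of_lt_of_le hx'.2 (this.trans hx.1)) (lt_irrefl _)
  have hfin : ∀ᵐ t, a t < ⊤ := ae_lt_top ham (by rw [hint]; exact ENNReal.ofReal_ne_top)
  have hle1 : ∫⁻ t, a t ≤ ∑' m : ℤ, (2 : ℝ≥0∞) ^ (m + 1) * volume (E m) := by
    calc ∫⁻ t, a t ≤ ∫⁻ t in ⋃ m, E m, a t := by
          rw [← lintegral_indicator (MeasurableSet.iUnion hEm)]
          apply lintegral_mono_ae
          filter_upwards [hfin] with t ht
          by_cases h : t ∈ ⋃ m, E m
          · rw [indicator_of_mem h]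
          · rw [indicator_of_notMem h]
            by_contra h0
            apply h
            obtain ⟨m, hm⟩ := ENNReal.exists_mem_Ico_zpow (x := a t) (y := 2)
              (fun h' => h0 (le_of_eq h')) ht.ne (by norm_num) (by norm_num)
            exact mem_iUnion.2 ⟨m, hm⟩
      _ = ∑' m : ℤ, ∫⁻ t in E m, a t := lintegral_iUnion hEm hdisj _
      _ ≤ ∑' m : ℤ, (2 : ℝ≥0∞) ^ (m + 1) * volume (E m) := by
          apply ENNReal.tsum_le_tsum
          intro m
          calc ∫⁻ t in E m, a t ≤ ∫⁻ _ in E m, (2 : ℝ≥0∞) ^ (m + 1) := by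
                apply setLIntegral_mono' (hEm m)
                intro t ht
                exact ht.2.le
            _ = _ := by rw [setLIntegral_const]
  have hEfin : ∀ m, (2 : ℝ≥0∞) ^ m * volume (E m) ≤ ENNReal.ofReal v := by
    intro m
    rw [← hint]
    calc (2 : ℝ≥0∞) ^ m * volume (E m) = ∫⁻ _ in E m, (2 : ℝ≥0∞) ^ m := by rw [setLIntegral_const]
      _ ≤ ∫⁻ t in E m, a t := setLIntegral_mono' (hEm m) fun t ht => ht.1
      _ ≤ ∫⁻ t, a t := setLIntegral_le_lintegral _ _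
  have hEtop : ∀ m, volume (E m) ≠ ⊤ := by
    intro m h
    have := hEfin m
    rw [h, ENNReal.mul_top (h2m0 m)] at this
    exact absurd this (by simp)
  set A : ℤ → ℝ := fun m => (volume (E m)).toReal with hA
  have hAv : ∀ m, volume (E m) = ENNReal.ofReal (A m) := fun m => (ENNReal.ofReal_toReal (hEtop m)).symm
  have hA0 : ∀ m, 0 ≤ A m := fun m => ENNReal.toReal_nonneg
  set w : ℤ → ℝ := fun m => A m * (2 : ℝ) ^ m with hw
  have hw0 : ∀ m, 0 ≤ w m := fun m => mul_nonneg (hA0 m) (by positivity)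
  have hterm : ∀ m, (2 : ℝ≥0∞) ^ (m + 1) * volume (E m) = ENNReal.ofReal (2 * w m) := by
    intro m
    rw [h2r, hAv, ← ENNReal.ofReal_mul (by positivity)]
    congr 1
    rw [zpow_add_one₀ (by norm_num : (2 : ℝ) ≠ 0), hw]
    ring
  obtain ⟨F, hF⟩ : ∃ F : Finset ℤ, v / 4 ≤ ∑ m ∈ F, w m := by
    have h1 : ENNReal.ofReal (v / 2) < ∑' m : ℤ, (2 : ℝ≥0∞) ^ (m + 1) * volume (E m) := by
      refine lt_of_lt_of_le ?_ hle1
      rw [hint]
      exact (ENNReal.ofReal_lt_ofReal_iff hv).2 (by linarith)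
    rw [ENNReal.tsum_eq_iSup_sum, lt_iSup_iff] at h1
    obtain ⟨F, hF⟩ := h1
    refine ⟨F, ?_⟩
    simp only [hterm] at hF
    rw [← ENNReal.ofReal_sum_of_nonneg (fun m _ => by have := hw0 m; positivity)] at hF
    have hF' := (ENNReal.ofReal_lt_ofReal_iff_of_nonneg (by positivity)).1 hF
    rw [← Finset.mul_sum] at hF'
    linarith
  obtain ⟨m1, m2, hm, hw1, hw2, hfinal⟩ := H v w F hv hw0 hF q hq0 hq1
  have hApos : ∀ m, 0 < w m → 0 < A m := by
    intro m h
    rcases (hA0 m).lt_or_eq with h' | h'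
    · exact h'
    · rw [hw] at h; simp only [← h', zero_mul] at h; exact absurd h (lt_irrefl _)
  have hslice : ∀ m, ∀ t ∈ E m, ∃ b, (2 : ℝ) ^ m ≤ b ∧
        volume {y : Fin n → ℂ | (Fin.cons t y : Fin (n + 1) → ℂ) ∈ K} = ENNReal.ofReal b := by
    intro m t ht
    have hat : a t ≠ ⊤ := (lt_of_lt_of_le ht.2 le_top).ne
    refine ⟨(a t).toReal, ?_, (ENNReal.ofReal_toReal hat).symm⟩
    rw [← ENNReal.ofReal_le_iff_le_toReal hat, ← h2r]
    exact ht.1
  refine ⟨E m1, E m2, A m1, A m2, (2 : ℝ) ^ m1, (2 : ℝ) ^ m2, hEm m1, hEm m2, hApos m1 hw1,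
    hApos m2 hw2, by positivity, zpow_le_zpow_right₀ one_le_two hm, hAv m1, hAv m2,
    hslice m1, hslice m2, ?_⟩
  refine hfinal.trans (le_of_eq ?_)
  congr 1
  rw [← Real.rpow_intCast, ← Real.rpow_intCast, ← Real.rpow_sub two_pos, ← Real.rpow_mul two_pos.le,
    mul_comm κ]

end Pool.Agent.H805R2.Fek
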