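import Mathlib
import Pool.Agent.H805R2.Comb

set_option autoImplicit false

open Finset Polynomial

namespace Pool.Agent.H805R2.Fek

/-- index type of the monomials of degree `≤ d` in `n` variables -/
def Idx : ℕ → ℕ → Type
  | 0, _ => Unit
  | n + 1, d => Σ k : Fin (d + 1), Idx n (d - k)

/-- exponents -/
def ex : ∀ (n d : ℕ), Idx n d → Fin n → ℕ
  | 0, _, _ => Fin.elim0
  | n + 1, d, a => Fin.cons (a.1 : ℕ) (ex n (d - a.1) a.2)

noncomputable instance instFintypeIdx : ∀ (n d : ℕ), Fintype (Idx n d)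
  | 0, _ => inferInstanceAs (Fintype Unit)
  | n + 1, d =>
    haveI : ∀ k : Fin (d + 1), Fintype (Idx n (d - k)) := fun k => instFintypeIdx n (d - k)
    inferInstanceAs (Fintype (Σ k : Fin (d + 1), Idx n (d - k)))

noncomputable instance instDecEqIdx (n d : ℕ) : DecidableEq (Idx n d) := Classical.decEq _

lemma card_Idx (n d : ℕ) : Fintype.card (Idx n d) = NN n d := by
  induction n generalizing d with
  | zero =>
    rw [NN_zero]
    exact Fintype.card_unit
  | succ n ih =>
    have h : Fintype.card (Idx (n + 1) d) = ∑ k : Fin (d + 1), Fintype.card (Idx n (d - k)) :=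
      Fintype.card_sigma
    rw [h, ← NN_sum, ← Fin.sum_univ_eq_sum_range (fun k => NN n (d - k))]
    exact sum_congr rfl fun k _ => ih _

lemma ex_inj (n d : ℕ) : Function.Injective (ex n d) := by
  induction n generalizing d with
  | zero =>
    intro a b _
    exact (rfl : (a : Unit) = b)
  | succ n ih =>
    rintro ⟨k, a⟩ ⟨l, b⟩ h
    have h1 : (k : ℕ) = l := congrFun h 0
    obtain rfl : k = l := Fin.ext h1
    have h2 : ex n (d - k) a = ex n (d - k) b := by
      funext i
      exact congrFun h i.succ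
    rw [ih _ h2]

lemma ex_lift (n : ℕ) {d d' : ℕ} (hd : d ≤ d') (a : Idx n d) : ∃ a' : Idx n d', ex n d' a' = ex n d a := by
  induction n generalizing d d' with
  | zero => exact ⟨(() : Unit), by funext i; exact i.elim0⟩
  | succ n ih =>
    obtain ⟨k, a⟩ := a
    obtain ⟨a', ha'⟩ := ih (d := d - k) (d' := d' - k) (by omega) a
    refine ⟨⟨⟨k, by omega⟩, a'⟩, ?_⟩
    change (Fin.cons (k : ℕ) (ex n (d' - k) a') : Fin (n + 1) → ℕ) = Fin.cons (k : ℕ) (ex n (d - k) a)
    rw [ha']

/-- monomial with exponents `e` -/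
def mon {n : ℕ} (e : Fin n → ℕ) (z : Fin n → ℂ) : ℂ := ∏ i, z i ^ e i

lemma mon_cons {n : ℕ} (k : ℕ) (e : Fin n → ℕ) (t : ℂ) (z : Fin n → ℂ) :
    mon (Fin.cons k e : Fin (n + 1) → ℕ) (Fin.cons t z) = t ^ k * mon e z := by
  simp [mon, Fin.prod_univ_succ]

/-- the generalised Vandermonde matrix -/
def Vm (n d : ℕ) (x : Idx n d → (Fin n → ℂ)) : Matrix (Idx n d) (Idx n d) ℂ :=
  Matrix.of fun β α => mon (ex n d α) (x β)

lemma det_idx (n d : ℕ) (M : Matrix (Idx (n + 1) d) (Idx (n + 1) d) ℂ)
    (h : M.BlockTriangular (Sigma.fst : (Σ k : Fin (d + 1), Idx n (d - k)) → Fin (d + 1))) :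
    M.det = ∏ k : Fin (d + 1), (Matrix.of fun a b : Idx n (d - k) => M ⟨k, a⟩ ⟨k, b⟩).det := by
  rw [h.det_fintype]
  apply Finset.prod_congr rfl
  intro k _
  let e : Idx n (d - k) ≃ {a : Idx (n + 1) d //
      (Sigma.fst : (Σ k : Fin (d + 1), Idx n (d - k)) → Fin (d + 1)) a = k} :=
    Equiv.ofBijective (fun a => ⟨⟨k, a⟩, rfl⟩) (by
    constructor
    · intro a b hab
      have := congrArg Subtype.val hab
      exact eq_of_heq (Sigma.mk.inj this).2
    · rintro ⟨⟨l, a⟩, hl⟩
      simp only at hl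
      subst hl
      exact ⟨a, rfl⟩)
  rw [← Matrix.det_submatrix_equiv_self e]
  rfl

/-- factorisation of the Vandermonde determinant along slices -/
lemma det_factor (n d : ℕ) (t : ℕ → ℂ) (y : ∀ k : Fin (d + 1), Idx n (d - k) → (Fin n → ℂ)) :
    (Vm (n + 1) d (fun β => Fin.cons (t β.1) (y β.1 β.2))).det =
      ∏ k : Fin (d + 1), ((∏ i ∈ range k, (t k - t i)) ^ (NN n (d - k)) * (Vm n (d - k) (y k)).det) := by
  classical
  -- Newton polynomials
  let P : ℕ → ℂ[X] := fun l => ∏ i ∈ range l, (X - C (t i))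
  have hPm : ∀ l, (P l).Monic := fun l => monic_prod_of_monic _ _ fun i _ => monic_X_sub_C _
  have hPd : ∀ l, (P l).natDegree = l := by
    intro l
    rw [natDegree_prod_of_monic _ _ fun i _ => monic_X_sub_C _]
    simp
  have hP0 : ∀ k l : ℕ, k < l → (P l).eval (t k) = 0 := by
    intro k l hkl
    simp only [P, eval_prod]
    apply prod_eq_zero (mem_range.2 hkl)
    simp
  have hPe : ∀ k : ℕ, (P k).eval (t k) = ∏ i ∈ range k, (t k - t i) := by
    intro k
    simp only [P, eval_prod]
    simp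
  let Cm : Matrix (Idx (n + 1) d) (Idx (n + 1) d) ℂ := Matrix.of fun γ α =>
    if ex n (d - γ.1) γ.2 = ex n (d - α.1) α.2 then (P α.1).coeff γ.1 else 0
  let L : Matrix (Idx (n + 1) d) (Idx (n + 1) d) ℂ := Matrix.of fun β α =>
    (P α.1).eval (t β.1) * mon (ex n (d - α.1) α.2) (y β.1 β.2)
  have hmul : Vm (n + 1) d (fun β => Fin.cons (t β.1) (y β.1 β.2)) * Cm = L := by
    ext β α
    rw [Matrix.mul_apply]
    simp only [Vm, Cm, L, Matrix.of_apply]
    have hsig : ∀ f : Idx (n + 1) d → ℂ, ∑ γ, f γ = ∑ k : Fin (d + 1), ∑ a : Idx n (d - k), f ⟨k, a⟩ :=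
      fun f => Fintype.sum_sigma f
    rw [hsig]
    have hin : ∀ k : Fin (d + 1), ∑ a : Idx n (d - k),
        mon (ex (n + 1) d ⟨k, a⟩) (Fin.cons (t β.1) (y β.1 β.2)) *
          (if ex n (d - k) a = ex n (d - α.1) α.2 then (P α.1).coeff k else 0) =
        (P α.1).coeff k * t β.1 ^ (k : ℕ) * mon (ex n (d - α.1) α.2) (y β.1 β.2) := by
      intro k
      by_cases hk : (k : ℕ) ≤ α.1
      · obtain ⟨a', ha'⟩ := ex_lift n (d := d - α.1) (d' := d - k) (by omega) α.2
        rw [Finset.sum_eq_single a']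
        · rw [if_pos ha']
          have : ex (n + 1) d ⟨k, a'⟩ = Fin.cons (k : ℕ) (ex n (d - k) a') := rfl
          rw [this, mon_cons, ha']
          ring
        · intro b _ hb
          rw [if_neg, mul_zero]
          intro h
          exact hb (ex_inj _ _ (h.trans ha'.symm))
        · intro h
          exact absurd (mem_univ _) h
      · have h0 : (P α.1).coeff k = 0 := by
          apply coeff_eq_zero_of_natDegree_lt
          rw [hPd]
          omega
        rw [h0]
        simp
    rw [Finset.sum_congr rfl fun k _ => hin k, ← Finset.sum_mul]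
    congr 1
    rw [eval_eq_sum_range' (n := d + 1) (by rw [hPd]; omega), ← Fin.sum_univ_eq_sum_range]
  have hC : Cm.det = 1 := by
    have hb : Cm.BlockTriangular (Sigma.fst : (Σ k : Fin (d + 1), Idx n (d - k)) → Fin (d + 1)) := by
      intro γ α h
      simp only [Cm, Matrix.of_apply]
      rw [coeff_eq_zero_of_natDegree_lt, ite_self]
      rw [hPd]
      exact h
    rw [det_idx n d Cm hb]
    apply Finset.prod_eq_one
    intro k _
    have : (Matrix.of fun a b : Idx n (d - k) => Cm ⟨k, a⟩ ⟨k, b⟩) = 1 := by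
      ext a b
      simp only [Cm, Matrix.of_apply]
      rw [Matrix.one_apply]
      by_cases hab : a = b
      · rw [if_pos (by rw [hab]), if_pos hab]
        have := hPm k
        rw [Monic, leadingCoeff, hPd] at this
        exact this
      · rw [if_neg, if_neg hab]
        intro h
        exact hab (ex_inj _ _ h)
    rw [this, Matrix.det_one]
  have hL : L.det = ∏ k : Fin (d + 1),
      ((∏ i ∈ range k, (t k - t i)) ^ (NN n (d - k)) * (Vm n (d - k) (y k)).det) := by
    have hb : L.transpose.BlockTriangular (Sigma.fst : (Σ k : Fin (d + 1), Idx n (d - k)) → Fin (d + 1)) := by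
      intro γ α h
      simp only [L, Matrix.transpose_apply, Matrix.of_apply]
      rw [hP0 _ _ h, zero_mul]
    rw [← Matrix.det_transpose]
    rw [det_idx n d L.transpose hb]
    apply Finset.prod_congr rfl
    intro k _
    have : (Matrix.of fun a b : Idx n (d - k) => L.transpose ⟨k, a⟩ ⟨k, b⟩) =
        (∏ i ∈ range k, (t k - t i)) • (Vm n (d - k) (y k)).transpose := by
      ext a b
      simp only [L, Vm, Matrix.of_apply, Matrix.transpose_apply, Matrix.smul_apply, smul_eq_mul]
      rw [hPe]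
    rw [this, Matrix.det_smul, Matrix.det_transpose, card_Idx]
  rw [← hL, ← hmul, Matrix.det_mul, hC, mul_one]

end Pool.Agent.H805R2.Fek
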