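import Mathlib
import Pool.Agent.H805R2.Pts
import Pool.Agent.H805R2.Slice
import Pool.Agent.H805R2.Vdm

set_option autoImplicit false

open MeasureTheory Metric Set Filter Topology
open scoped ENNReal NNReal

namespace Pool.Agent.H805R2.Fek

lemma pow_split (A2 A1 h2 h1 cn : ℝ) (P : ℕ → ℕ) (R : ℕ → ℕ) (k0 d : ℕ) (hk : k0 ≤ d) :
    ∏ k ∈ Finset.range (d + 1), ((if k ≤ k0 then A2 else A1) / 64) ^ (P k) *
        (cn * (if k ≤ k0 then h2 else h1)) ^ (R k) =
      (A2 / 64) ^ (∑ k ∈ Finset.range (k0 + 1), P k) * (cn * h2) ^ (∑ k ∈ Finset.range (k0 + 1), R k) *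
      ((A1 / 64) ^ (∑ k ∈ Finset.Ico (k0 + 1) (d + 1), P k) *
        (cn * h1) ^ (∑ k ∈ Finset.Ico (k0 + 1) (d + 1), R k)) := by
  rw [← Finset.prod_range_mul_prod_Ico _ (show k0 + 1 ≤ d + 1 by omega)]
  congr 1
  · rw [← Finset.prod_pow_eq_pow_sum, ← Finset.prod_pow_eq_pow_sum, ← Finset.prod_mul_distrib]
    apply Finset.prod_congr rfl
    intro k hk'
    have : k ≤ k0 := by have := Finset.mem_range.1 hk'; omega
    rw [if_pos this, if_pos this]
  · rw [← Finset.prod_pow_eq_pow_sum, ← Finset.prod_pow_eq_pow_sum, ← Finset.prod_mul_distrib]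
    apply Finset.prod_congr rfl
    intro k hk'
    have : ¬ k ≤ k0 := by have := (Finset.mem_Ico.1 hk').1; omega
    rw [if_neg this, if_neg this]

lemma numeric (A1 A2 h1 h2 c' cn v κ : ℝ) (hA1 : 0 < A1) (hA2 : 0 < A2) (hh1 : 0 < h1) (hh : h1 ≤ h2)
    (hc' : 0 < c') (hcn : 0 < cn) (hv : 0 < v) (hκ : 0 < κ)
    (P1 P2 R1 R2 S : ℕ) (hP : P1 + P2 = S) (hR : R1 + R2 = S)
    (hgap : (P1 : ℝ) + κ * S ≤ R1) (q : ℝ) (hq : q = (P1 : ℝ) / S)
    (hmain : c' * v ≤ (A2 * h2) ^ q * (A1 * h1) ^ (1 - q) * (h2 / h1) ^ κ) :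
    (cn * c' / 64 * v) ^ S ≤ (A2 / 64) ^ P1 * (cn * h2) ^ R1 * ((A1 / 64) ^ P2 * (cn * h1) ^ R2) := by
  rcases Nat.eq_zero_or_pos S with hS | hS
  · subst hS
    obtain ⟨rfl, rfl⟩ : P1 = 0 ∧ P2 = 0 := by omega
    obtain ⟨rfl, rfl⟩ : R1 = 0 ∧ R2 = 0 := by omega
    simp
  have hS' : (0 : ℝ) < S := by exact_mod_cast hS
  have hh2 : 0 < h2 := hh1.trans_le hh
  have hPR : P1 ≤ R1 := by
    have : (P1 : ℝ) ≤ R1 := by nlinarith [mul_pos hκ hS']
    exact_mod_cast this
  obtain ⟨D, hD⟩ : ∃ D, R1 = P1 + D := ⟨R1 - P1, by omega⟩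
  have hP2 : P2 = R2 + D := by omega
  have hgap' : κ * S ≤ D := by
    rw [hD] at hgap
    push_cast at hgap
    linarith
  have h1' : (c' * v) ^ S ≤ (A2 * h2) ^ P1 * (A1 * h1) ^ P2 * (h2 / h1) ^ D := by
    calc (c' * v) ^ S ≤ ((A2 * h2) ^ q * (A1 * h1) ^ (1 - q) * (h2 / h1) ^ κ) ^ S :=
          pow_le_pow_left₀ (by positivity) hmain S
      _ = (A2 * h2) ^ (q * S) * (A1 * h1) ^ ((1 - q) * S) * (h2 / h1) ^ (κ * S) := by
          rw [mul_pow, mul_pow, ← Real.rpow_natCast, ← Real.rpow_natCast, ← Real.rpow_natCast,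
            ← Real.rpow_mul (by positivity), ← Real.rpow_mul (by positivity),
            ← Real.rpow_mul (by positivity)]
      _ ≤ (A2 * h2) ^ (q * S) * (A1 * h1) ^ ((1 - q) * S) * (h2 / h1) ^ (D : ℝ) := by
          apply mul_le_mul_of_nonneg_left _ (by positivity)
          apply Real.rpow_le_rpow_of_exponent_le _ hgap'
          rw [le_div_iff₀ hh1]
          linarith
      _ = (A2 * h2) ^ P1 * (A1 * h1) ^ P2 * (h2 / h1) ^ D := by
          have e1 : q * S = (P1 : ℝ) := by rw [hq]; field_simp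
          have e2 : (1 - q) * S = (P2 : ℝ) := by
            have : (P1 : ℝ) + P2 = S := by exact_mod_cast hP
            linarith
          rw [e1, e2, Real.rpow_natCast, Real.rpow_natCast, Real.rpow_natCast]
  have h2' : (A2 * h2) ^ P1 * (A1 * h1) ^ P2 * (h2 / h1) ^ D = A2 ^ P1 * A1 ^ P2 * h2 ^ R1 * h1 ^ R2 := by
    rw [hD, hP2, mul_pow, mul_pow, div_pow, pow_add, pow_add, pow_add]
    field_simp
  have h3' : (A2 / 64) ^ P1 * (cn * h2) ^ R1 * ((A1 / 64) ^ P2 * (cn * h1) ^ R2) =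
      (cn / 64) ^ S * (A2 ^ P1 * A1 ^ P2 * h2 ^ R1 * h1 ^ R2) := by
    have e1 : (cn / 64 : ℝ) ^ S = cn ^ R1 * cn ^ R2 * ((1 / 64) ^ P1 * (1 / 64) ^ P2) := by
      rw [← pow_add, ← pow_add, hP, hR, div_pow, div_pow]
      ring
    rw [e1, mul_pow, mul_pow, div_pow, div_pow, div_pow, div_pow]
    ring
  calc (cn * c' / 64 * v) ^ S = (cn / 64) ^ S * (c' * v) ^ S := by
        rw [← mul_pow]; congr 1; ring
    _ ≤ (cn / 64) ^ S * (A2 ^ P1 * A1 ^ P2 * h2 ^ R1 * h1 ^ R2) := by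
        apply mul_le_mul_of_nonneg_left _ (by positivity)
        rw [← h2']
        exact h1'
    _ = _ := h3'.symm

/-- **Lower bound for the Vandermonde determinant in terms of volume.** -/
theorem fekete (n : ℕ) : ∃ c : ℝ, 0 < c ∧ ∀ (K : Set (Fin n → ℂ)), MeasurableSet K →
    ∀ v : ℝ, 0 < v → volume K = ENNReal.ofReal v → ∀ d : ℕ,
    ∃ x : Idx n d → (Fin n → ℂ), (∀ β, x β ∈ K) ∧ (c * v) ^ (SS n d) ≤ ‖(Vm n d x).det‖ ^ 2 := by
  induction n with
  | zero =>
    refine ⟨1, one_pos, ?_⟩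
    intro K hK v hv hvol d
    have hne : K.Nonempty := by
      rw [nonempty_iff_ne_empty]
      rintro rfl
      simp at hvol
      linarith
    obtain ⟨z, hz⟩ := hne
    have hKu : K = univ := by
      ext y
      simp only [mem_univ, iff_true]
      rw [Subsingleton.elim y z]
      exact hz
    have hv1 : v = 1 := by
      rw [hKu] at hvol
      have : (volume : Measure (Fin 0 → ℂ)) univ = 1 := by
        rw [volume_pi, Measure.pi_of_empty]
        simp
      rw [this] at hvol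
      have := congrArg ENNReal.toReal hvol
      rw [ENNReal.toReal_ofReal hv.le] at this
      simpa using this.symm
    refine ⟨fun _ => z, fun _ => hz, ?_⟩
    have : (Vm 0 d fun _ => z) = 1 := by
      ext α β
      have : α = β := (rfl : (α : Unit) = β)
      subst this
      simp [Vm, mon]
    rw [this, hv1]
    simp
  | succ n ih =>
    obtain ⟨cn, hcn, ih⟩ := ih
    set κ : ℝ := (1 / 2) ^ n / (4 * (n + 2)) with hκdef
    have hκ : 0 < κ := by positivity
    obtain ⟨c', hc', hsl⟩ := slice_levels κ hκ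
    refine ⟨cn * c' / 64, by positivity, ?_⟩
    intro K hK v hv hvol d
    -- the splitting index
    obtain ⟨k0, hk0, hgap⟩ : ∃ k0 ≤ d,
        (∑ k ∈ Finset.range (k0 + 1), (k * NN n (d - k) : ℕ) : ℝ) + κ * (SS (n + 1) d : ℝ) ≤
          (∑ k ∈ Finset.range (k0 + 1), (SS n (d - k) : ℕ) : ℝ) := by
      rcases Nat.eq_zero_or_pos d with rfl | hd
      · exact ⟨0, le_rfl, by simp [SS]⟩
      · exact gap n d hd
    set P1 := ∑ k ∈ Finset.range (k0 + 1), k * NN n (d - k) with hP1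
    set P2 := ∑ k ∈ Finset.Ico (k0 + 1) (d + 1), k * NN n (d - k) with hP2
    set R1 := ∑ k ∈ Finset.range (k0 + 1), SS n (d - k) with hR1
    set R2 := ∑ k ∈ Finset.Ico (k0 + 1) (d + 1), SS n (d - k) with hR2
    have hP : P1 + P2 = SS (n + 1) d := by
      rw [← sum_p, hP1, hP2, Finset.sum_range_add_sum_Ico _ (by omega)]
    have hR : R1 + R2 = SS (n + 1) d := by
      rw [← sum_r, hR1, hR2, Finset.sum_range_add_sum_Ico _ (by omega)]
    have hgap' : (P1 : ℝ) + κ * (SS (n + 1) d : ℕ) ≤ R1 := by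
      rw [hP1, hR1]
      push_cast
      push_cast at hgap
      exact hgap
    set q : ℝ := (P1 : ℝ) / (SS (n + 1) d : ℕ) with hq
    have hq0 : 0 ≤ q := by positivity
    have hq1 : q ≤ 1 := by
      apply div_le_one_of_le₀ _ (by positivity)
      exact_mod_cast (by omega : P1 ≤ SS (n + 1) d)
    obtain ⟨E1, E2, A1, A2, h1, h2, hE1, hE2, hA1, hA2, hh1, hh, hv1, hv2, hs1, hs2, hmain⟩ :=
      hsl n K hK v hv hvol q hq0 hq1
    have hh2 : 0 < h2 := hh1.trans_le hh
    -- first coordinates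
    obtain ⟨t, ht⟩ := exists_seq (fun k => if k ≤ k0 then E2 else E1)
      (fun k => by split_ifs; exacts [hE2, hE1])
      (fun k => if k ≤ k0 then A2 else A1) (fun k => by split_ifs; exacts [hA2, hA1])
      (fun k => by split_ifs; exacts [hv2, hv1]) (d + 1)
    -- slices
    have hslice : ∀ k : Fin (d + 1), ∃ y : Idx n (d - k) → (Fin n → ℂ),
        (∀ β, (Fin.cons (t k) (y β) : Fin (n + 1) → ℂ) ∈ K) ∧
        (cn * (if (k : ℕ) ≤ k0 then h2 else h1)) ^ (SS n (d - k)) ≤ ‖(Vm n (d - k) y).det‖ ^ 2 := by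
      intro k
      have hmem := (ht k k.2).1
      have hmeas : MeasurableSet {y : Fin n → ℂ | (Fin.cons (t k) y : Fin (n + 1) → ℂ) ∈ K} := by
        apply measurableSet_preimage _ hK
        have : Continuous fun y : Fin n → ℂ => (Fin.cons (t k) y : Fin (n + 1) → ℂ) := by
          apply Continuous.finCons
          · exact continuous_const
          · exact continuous_id
        exact this.measurable
      obtain ⟨a, ha, hva⟩ : ∃ a, (if (k : ℕ) ≤ k0 then h2 else h1) ≤ a ∧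
          volume {y : Fin n → ℂ | (Fin.cons (t k) y : Fin (n + 1) → ℂ) ∈ K} = ENNReal.ofReal a := by
        by_cases hk : (k : ℕ) ≤ k0
        · simp only [if_pos hk] at hmem ⊢
          exact hs2 _ hmem
        · simp only [if_neg hk] at hmem ⊢
          exact hs1 _ hmem
      have hpos : 0 < (if (k : ℕ) ≤ k0 then h2 else h1) := by split_ifs <;> assumption
      obtain ⟨y, hy, hy'⟩ := ih _ hmeas a (hpos.trans_le ha) hva (d - k)
      refine ⟨y, hy, le_trans ?_ hy'⟩
      apply pow_le_pow_left₀ (by positivity)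
      gcongr
    choose y hyK hy using hslice
    refine ⟨fun β => Fin.cons (t β.1) (y β.1 β.2), fun β => hyK β.1 β.2, ?_⟩
    rw [det_factor, norm_prod, ← Finset.prod_pow]
    have hle : ∏ k : Fin (d + 1), (((if (k : ℕ) ≤ k0 then A2 else A1) / 64) ^ ((k : ℕ) * NN n (d - k)) *
        (cn * (if (k : ℕ) ≤ k0 then h2 else h1)) ^ (SS n (d - k))) ≤
        ∏ k : Fin (d + 1), ‖(∏ i ∈ Finset.range k, (t k - t i)) ^ NN n (d - k) *
          (Vm n (d - k) (y k)).det‖ ^ 2 := by
      apply Finset.prod_le_prod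
      · intro k _
        have e1 : 0 < (if (k : ℕ) ≤ k0 then h2 else h1) := by split_ifs <;> assumption
        have e2 : 0 < (if (k : ℕ) ≤ k0 then A2 else A1) := by split_ifs <;> assumption
        positivity
      · intro k _
        have e1 : 0 < (if (k : ℕ) ≤ k0 then h2 else h1) := by split_ifs <;> assumption
        have e2 : 0 < (if (k : ℕ) ≤ k0 then A2 else A1) := by split_ifs <;> assumption
        have e3 : ‖(∏ i ∈ Finset.range k, (t k - t i)) ^ NN n (d - k) *
            (Vm n (d - k) (y k)).det‖ ^ 2 = (‖∏ i ∈ Finset.range k, (t k - t i)‖ ^ NN n (d - k)) ^ 2 *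
            ‖(Vm n (d - k) (y k)).det‖ ^ 2 := by
          rw [norm_mul, mul_pow, norm_pow]
        rw [e3, pow_mul]
        apply mul_le_mul _ (hy k) (by positivity) (by positivity)
        calc (((if (k : ℕ) ≤ k0 then A2 else A1) / 64) ^ (k : ℕ)) ^ NN n (d - k)
            ≤ (∏ i ∈ Finset.range k, ‖t k - t i‖ ^ 2) ^ NN n (d - k) :=
              pow_le_pow_left₀ (by positivity) (ht k k.2).2 _
          _ = (‖∏ i ∈ Finset.range k, (t k - t i)‖ ^ NN n (d - k)) ^ 2 := by
              rw [Finset.prod_pow, norm_prod, ← pow_mul, ← pow_mul, mul_comm]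
    refine le_trans ?_ hle
    rw [Finset.prod_range (fun k => ((if k ≤ k0 then A2 else A1) / 64) ^ (k * NN n (d - k)) *
        (cn * (if k ≤ k0 then h2 else h1)) ^ (SS n (d - k))) |>.symm]
    rw [pow_split A2 A1 h2 h1 cn (fun k => k * NN n (d - k)) (fun k => SS n (d - k)) k0 d hk0]
    exact numeric A1 A2 h1 h2 c' cn v κ hA1 hA2 hh1 hh hc' hcn hv hκ P1 P2 R1 R2 (SS (n + 1) d)
      hP hR hgap' q hq hmain

end Pool.Agent.H805R2.Fek
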