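import Mathlib
import Pool.Agent.H805R2.Fekete
import Pool.Agent.H805R2.Base

set_option autoImplicit false

open MeasureTheory Metric Set Filter Topology
open scoped ENNReal NNReal ContDiff

namespace Pool.Agent.H805R2

open Fek

/-- the (rescaled) monomials -/
noncomputable def monE (n d : ℕ) (δ : ℝ) (z0 z : Cn n) (α : Idx n d) : ℂ :=
  mon (ex n d α) (fun j => ((δ⁻¹ : ℝ) : ℂ) * (z j - z0 j))

/-- comparison of the Lebesgue measures on `EuclideanSpace` and on the product -/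
lemma vol_compare (n : ℕ) : ∃ a : ℝ, 0 < a ∧ ∀ K : Set (Cn n), MeasurableSet K →
    (volume : Measure (Fin n → ℂ)) ((fun y : Fin n → ℂ => (WithLp.toLp 2 y : Cn n)) ⁻¹' K) =
      ENNReal.ofReal a * (volume : Measure (Cn n)) K := by
  let e : (Fin n → ℂ) ≃L[ℂ] Cn n := (PiLp.continuousLinearEquiv 2 ℂ (fun _ : Fin n => ℂ)).symm
  have he : (e : (Fin n → ℂ) → Cn n) = fun y => WithLp.toLp 2 y := rfl
  have hhaar : (Measure.map e (volume : Measure (Fin n → ℂ))).IsAddHaarMeasure :=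
    e.isAddHaarMeasure_map _
  obtain ⟨c, hc⟩ : ∃ c : ℝ≥0, Measure.map e (volume : Measure (Fin n → ℂ)) = c • (volume : Measure (Cn n)) :=
    ⟨_, Measure.isAddLeftInvariant_eq_smul _ _⟩
  have hc0 : c ≠ 0 := by
    rintro rfl
    rw [zero_smul] at hc
    have h1 : Measure.map e (volume : Measure (Fin n → ℂ)) univ ≠ 0 := by
      exact (isOpen_univ.measure_pos _ univ_nonempty).ne'
    rw [hc] at h1
    simp at h1
  refine ⟨c, by positivity, ?_⟩
  intro K hK
  have h : Measure.map e (volume : Measure (Fin n → ℂ)) K = (c • (volume : Measure (Cn n))) K := by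
    rw [hc]
  rw [Measure.map_apply e.continuous.measurable hK] at h
  rw [← he, h, Measure.smul_apply, ENNReal.ofReal_coe_nnreal]
  rfl

/-- the lower bound for Vandermonde determinants, in `EuclideanSpace` -/
theorem feketeE (n : ℕ) : ∃ c : ℝ, 0 < c ∧ ∀ (K : Set (Cn n)), MeasurableSet K →
    ∀ v : ℝ, 0 < v → volume K = ENNReal.ofReal v → ∀ (δ : ℝ), 0 < δ → ∀ (z0 : Cn n) (d : ℕ),
    ∃ x : Idx n d → Cn n, (∀ β, x β ∈ K) ∧
      (c * v / δ ^ (2 * n)) ^ (SS n d) ≤ ‖(Matrix.of fun β α => monE n d δ z0 (x β) α).det‖ ^ 2 := by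
  obtain ⟨c, hc, H⟩ := fekete n
  obtain ⟨a, ha, Ha⟩ := vol_compare n
  refine ⟨c * a, by positivity, ?_⟩
  intro K hK v hv hvol δ hδ z0 d
  -- the rescaled set
  set ψ : Cn n → Cn n := fun y => z0 + δ • y with hψ
  have hψm : Measurable ψ := by fun_prop
  set K1 : Set (Cn n) := ψ ⁻¹' K with hK1
  have hK1m : MeasurableSet K1 := hψm hK
  have hfr : Module.finrank ℝ (Cn n) = 2 * n := by
    rw [finrank_real_of_complex, finrank_euclideanSpace_fin]
  have hvK1 : volume K1 = ENNReal.ofReal (v / δ ^ (2 * n)) := by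
    have h1 : K1 = (δ • ·) ⁻¹' ((fun y => z0 + y) ⁻¹' K) := rfl
    rw [h1, Measure.addHaar_preimage_smul _ hδ.ne', measure_preimage_add, hvol, hfr,
      ← ENNReal.ofReal_mul (abs_nonneg _), abs_of_pos (by positivity), inv_mul_eq_div]
  set K2 : Set (Fin n → ℂ) := (fun y : Fin n → ℂ => (WithLp.toLp 2 y : Cn n)) ⁻¹' K1 with hK2
  have hK2m : MeasurableSet K2 := by
    apply measurableSet_preimage _ hK1m
    exact (PiLp.continuous_toLp 2 _).measurable
  have hvK2 : volume K2 = ENNReal.ofReal (a * (v / δ ^ (2 * n))) := by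
    rw [hK2, Ha K1 hK1m, hvK1, ← ENNReal.ofReal_mul ha.le]
  obtain ⟨y, hy, hdet⟩ := H K2 hK2m (a * (v / δ ^ (2 * n))) (by positivity) hvK2 d
  refine ⟨fun β => ψ (WithLp.toLp 2 (y β)), fun β => hy β, ?_⟩
  have hm : (Matrix.of fun β α => monE n d δ z0 (ψ (WithLp.toLp 2 (y β))) α) = Vm n d y := by
    ext β α
    simp only [Matrix.of_apply, monE, Vm, hψ]
    congr 1
    funext j
    simp only [PiLp.add_apply, PiLp.smul_apply, add_sub_cancel_left, Complex.real_smul]
    rw [← mul_assoc, ← Complex.ofReal_mul, inv_mul_cancel₀ hδ.ne', Complex.ofReal_one, one_mul]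
  rw [hm]
  have e1 : c * a * v / δ ^ (2 * n) = c * (a * (v / δ ^ (2 * n))) := by ring
  rw [e1]
  exact hdet

/-- asymptotics -/
lemma NN_lower (n d : ℕ) : (d + 1) ^ n ≤ n.factorial * NN n d := by
  induction n with
  | zero => simp [NN]
  | succ n ih =>
    have h := NN_succ_mul n d
    calc (d + 1) ^ (n + 1) = (d + 1) ^ n * (d + 1) := pow_succ _ _
      _ ≤ (n.factorial * NN n d) * (n + 1 + d) := Nat.mul_le_mul ih (by omega)
      _ = n.factorial * (NN n d * (n + 1 + d)) := by ring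
      _ = n.factorial * (NN (n + 1) d * (n + 1)) := by rw [h]
      _ = (n + 1).factorial * NN (n + 1) d := by rw [Nat.factorial_succ]; ring

lemma NN_upper (n d : ℕ) : NN n d ≤ (d + 1) ^ n := by
  induction n with
  | zero => simp [NN]
  | succ n ih =>
    have h := NN_succ_mul n d
    have h2 : NN (n + 1) d * (n + 1) ≤ (d + 1) ^ (n + 1) * (n + 1) := by
      rw [h]
      calc NN n d * (n + 1 + d) ≤ (d + 1) ^ n * ((n + 1) * (d + 1)) := by
            apply Nat.mul_le_mul ih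
            nlinarith
        _ = _ := by ring
    exact Nat.le_of_mul_le_mul_right h2 (by omega)

lemma sum_pow_le (n d : ℕ) : (∑ k ∈ Finset.range d, ((k : ℝ) + 1) ^ n) * (n + 1) ≤ ((d : ℝ) + 1) ^ (n + 1) := by
  induction d with
  | zero => simp
  | succ d ih =>
    rw [Finset.sum_range_succ, add_mul]
    have h : ((d : ℝ) + 1) ^ (n + 1) + ((d : ℝ) + 1) ^ n * (n + 1) ≤ ((d : ℝ) + 1 + 1) ^ (n + 1) := by
      have hx : (0 : ℝ) < (d : ℝ) + 1 := by positivity
      have h1 := one_add_mul_le_pow (a := 1 / ((d : ℝ) + 1))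
        (le_trans (by norm_num : (-2 : ℝ) ≤ 0) (by positivity)) (n + 1)
      have h2 : ((d : ℝ) + 1 + 1) ^ (n + 1) = ((d : ℝ) + 1) ^ (n + 1) * (1 + 1 / ((d : ℝ) + 1)) ^ (n + 1) := by
        rw [← mul_pow]
        congr 1
        field_simp
      rw [h2]
      have h3 : ((d : ℝ) + 1) ^ (n + 1) * (1 + ((n + 1 : ℕ) : ℝ) * (1 / ((d : ℝ) + 1))) =
          ((d : ℝ) + 1) ^ (n + 1) + ((d : ℝ) + 1) ^ n * (n + 1) := by
        rw [pow_succ]
        push_cast
        field_simp
      rw [← h3]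
      exact mul_le_mul_of_nonneg_left h1 (by positivity)
    push_cast
    linarith

end Pool.Agent.H805R2
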