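import Mathlib
import Pool.Agent.H805R2.Mat

set_option autoImplicit false

open Matrix MeasureTheory
open scoped ComplexOrder MatrixOrder Matrix.Norms.L2Operator

namespace Pool.Agent.H805R2.Gram

lemma jensen_exp {X : Type*} [MeasurableSpace X] (μ : Measure X) (p v : X → ℝ)
    (hp : Integrable p μ) (hp0 : ∀ z, 0 ≤ p z) (hp1 : ∫ z, p z ∂μ = 1) (hv : Measurable v) (V : ℝ)
    (hV : ∀ z, |v z| ≤ V) :
    2 * ∫ z, v z * p z ∂μ ≤ Real.log (∫ z, p z * Real.exp (2 * v z) ∂μ) := by
  set a := 2 * ∫ z, v z * p z ∂μ with ha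
  have hi1 : Integrable (fun z => v z * p z) μ := by
    apply hp.bdd_mul hv.aestronglyMeasurable (c := V)
    exact Filter.Eventually.of_forall fun z => by rw [Real.norm_eq_abs]; exact hV z
  have hi2 : Integrable (fun z => p z * Real.exp (2 * v z)) μ := by
    have : Integrable (fun z => Real.exp (2 * v z) * p z) μ := by
      apply hp.bdd_mul (by fun_prop) (c := Real.exp (2 * V))
      refine Filter.Eventually.of_forall fun z => ?_
      rw [Real.norm_eq_abs, abs_of_pos (Real.exp_pos _)]
      apply Real.exp_le_exp.2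
      have := (abs_le.1 (hV z)).2
      linarith
    simpa only [mul_comm] using this
  have hle : Real.exp a ≤ ∫ z, p z * Real.exp (2 * v z) ∂μ := by
    have h1 : ∫ z, (Real.exp a * (1 - a) * p z + 2 * Real.exp a * (v z * p z)) ∂μ = Real.exp a := by
      rw [integral_add (hp.const_mul _) (hi1.const_mul _), integral_const_mul, integral_const_mul, hp1]
      have : ∫ z, v z * p z ∂μ = a / 2 := by rw [ha]; ring
      rw [this]; ring
    rw [← h1]
    apply integral_mono ((hp.const_mul _).add (hi1.const_mul _)) hi2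
    intro z
    have h2 : Real.exp a * (1 + (2 * v z - a)) ≤ Real.exp (2 * v z) := by
      have h3 : Real.exp (2 * v z) = Real.exp a * Real.exp (2 * v z - a) := by
        rw [← Real.exp_add]; ring_nf
      rw [h3]
      apply mul_le_mul_of_nonneg_left _ (Real.exp_pos _).le
      have := Real.add_one_le_exp (2 * v z - a)
      linarith
    have h4 := mul_le_mul_of_nonneg_left h2 (hp0 z)
    change Real.exp a * (1 - a) * p z + 2 * Real.exp a * (v z * p z) ≤ p z * Real.exp (2 * v z)
    linarith
  rw [Real.le_log_iff_exp_le ((Real.exp_pos a).trans_le hle)]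
  exact hle

variable {ι : Type*} [Fintype ι] [DecidableEq ι]

lemma bergman_pointwise (G C : Matrix ι ι ℂ) (h1 : Cᴴ * G * C = 1) (m : ι → ℂ) (wz K : ℝ)
    (hK : 0 ≤ K)
    (h : ∀ c : ι → ℂ, ‖∑ j, c j * m j‖ ^ 2 * wz ≤ K * (qf G c).re) :
    (∑ i, ‖∑ j, C j i * m j‖ ^ 2) * wz ≤ K := by
  set a : ι → ℂ := fun i => star (∑ j, C j i * m j) with ha
  set S : ℝ := ∑ i, ‖∑ j, C j i * m j‖ ^ 2 with hS
  have hS0 : 0 ≤ S := Finset.sum_nonneg fun i _ => by positivity
  have haa : ∀ i, a i * (∑ j, C j i * m j) = ((‖∑ j, C j i * m j‖ ^ 2 : ℝ) : ℂ) := by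
    intro i
    simp only [ha]
    rw [Complex.star_def, ← Complex.normSq_eq_conj_mul_self, Complex.normSq_eq_norm_sq]
  have e1 : ∑ j, (C *ᵥ a) j * m j = (S : ℂ) := by
    simp only [mulVec, dotProduct, Finset.sum_mul]
    rw [Finset.sum_comm, hS]
    push_cast
    apply Finset.sum_congr rfl
    intro i _
    have := haa i
    rw [Finset.mul_sum] at this
    push_cast at this
    rw [← this]
    apply Finset.sum_congr rfl
    intro j _
    ring
  have e2 : qf G (C *ᵥ a) = (S : ℂ) := by
    have : qf G (C *ᵥ a) = star a ⬝ᵥ ((Cᴴ * G * C) *ᵥ a) := by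
      unfold qf
      rw [star_mulVec, ← mulVec_mulVec, ← mulVec_mulVec, ← dotProduct_mulVec]
    rw [this, h1, one_mulVec, hS]
    simp only [dotProduct, Pi.star_apply]
    push_cast
    apply Finset.sum_congr rfl
    intro i _
    have := haa i
    push_cast at this
    rw [← this, ha]
    simp only [star_star]
    ring
  have h2 := h (C *ᵥ a)
  rw [e1, e2, Complex.norm_real, Complex.ofReal_re, Real.norm_eq_abs, abs_of_nonneg hS0] at h2
  rcases hS0.lt_or_eq with h3 | h3
  · have : S * (S * wz) ≤ S * K := by nlinarith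
    exact le_of_mul_le_mul_left this h3
  · rw [← h3, zero_mul]; exact hK

variable {X : Type*} [MeasurableSpace X]

/-- Gram matrix -/
noncomputable def gram (μ : Measure X) (m : X → ι → ℂ) (w : X → ℝ) : Matrix ι ι ℂ :=
  Matrix.of fun α β => ∫ z, star (m z α) * m z β * (w z : ℂ) ∂μ

section
variable (μ : Measure X) [IsFiniteMeasure μ] (m : X → ι → ℂ) (w : X → ℝ)
  (hm : ∀ α, Measurable fun z => m z α) (hmb : ∀ᵐ z ∂μ, ∀ α, ‖m z α‖ ≤ 1)
  (hw : Measurable w) (W : ℝ) (hwW : ∀ z, |w z| ≤ W)

include hm hmb hw hwW in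
omit [Fintype ι] [DecidableEq ι] in
lemma gram_entry_integrable (α β : ι) :
    Integrable (fun z => star (m z α) * m z β * (w z : ℂ)) μ := by
  refine Integrable.mono' (g := fun _ => 1 * 1 * W) (integrable_const _) ?_ ?_
  · have h1 := hm α
    have h2 := hm β
    apply Measurable.aestronglyMeasurable
    have h3 : Measurable fun z => star (m z α) := continuous_star.measurable.comp h1
    fun_prop
  · filter_upwards [hmb] with z hz
    rw [norm_mul, norm_mul, norm_star, Complex.norm_real, Real.norm_eq_abs]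
    gcongr
    · exact hz α
    · exact hz β
    · exact hwW z

include hm hmb hw hwW in
omit [DecidableEq ι] in
lemma qf_gram (c : ι → ℂ) :
    qf (gram μ m w) c = ((∫ z, ‖∑ β, c β * m z β‖ ^ 2 * w z ∂μ : ℝ) : ℂ) := by
  have hint := gram_entry_integrable μ m w hm hmb hw W hwW
  have h1 : ∀ z, ((‖∑ β, c β * m z β‖ ^ 2 * w z : ℝ) : ℂ) =
      ∑ α, ∑ β, star (c α) * c β * (star (m z α) * m z β * (w z : ℂ)) := by
    intro z
    push_cast
    have : ((‖∑ β, c β * m z β‖ : ℝ) : ℂ) ^ 2 = star (∑ β, c β * m z β) * (∑ β, c β * m z β) := by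
      rw [Complex.star_def, ← Complex.normSq_eq_conj_mul_self, Complex.normSq_eq_norm_sq]
      push_cast; ring
    rw [this, star_sum, Finset.sum_mul_sum, Finset.sum_mul]
    apply Finset.sum_congr rfl
    intro α _
    rw [Finset.sum_mul]
    apply Finset.sum_congr rfl
    intro β _
    rw [star_mul']
    ring
  rw [← integral_complex_ofReal]
  simp_rw [h1]
  rw [integral_finsetSum _ (fun α _ => integrable_finsetSum _ fun β _ => (hint α β).const_mul _)]
  simp only [qf, gram, dotProduct, mulVec, Matrix.of_apply, Pi.star_apply]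
  apply Finset.sum_congr rfl
  intro α _
  rw [integral_finsetSum _ (fun β _ => (hint α β).const_mul _), Finset.mul_sum]
  apply Finset.sum_congr rfl
  intro β _
  rw [integral_const_mul]
  ring

omit [Fintype ι] [DecidableEq ι] [IsFiniteMeasure μ] in
lemma gram_isHermitian : (gram μ m w).IsHermitian := by
  ext α β
  simp only [gram, conjTranspose_apply, Matrix.of_apply]
  rw [Complex.star_def, ← integral_conj]
  apply integral_congr_ae
  refine Filter.Eventually.of_forall fun z => ?_
  simp only [Complex.star_def, map_mul, Complex.conj_conj, Complex.conj_ofReal]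
  ring

include hm hmb hw hwW in
omit [DecidableEq ι] in
lemma qf_integrable (c : ι → ℂ) :
    Integrable (fun z => ‖∑ β, c β * m z β‖ ^ 2 * w z) μ := by
  have hcm : ∀ᵐ z ∂μ, ‖∑ β, c β * m z β‖ ≤ ∑ β, ‖c β‖ := by
    filter_upwards [hmb] with z hz
    refine (norm_sum_le _ _).trans (Finset.sum_le_sum fun β _ => ?_)
    rw [norm_mul]
    have := hz β
    have h2 := norm_nonneg (c β)
    nlinarith
  refine Integrable.mono' (g := fun _ => (∑ β, ‖c β‖) ^ 2 * W) (integrable_const _) ?_ ?_
  · apply Measurable.aestronglyMeasurable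
    have : ∀ β, Measurable fun z => m z β := hm
    fun_prop
  · filter_upwards [hcm] with z hz
    rw [Real.norm_eq_abs, abs_mul, abs_of_nonneg (by positivity : 0 ≤ ‖∑ β, c β * m z β‖ ^ 2)]
    gcongr
    exact hwW z

end

omit [MeasurableSpace X] in
lemma exp_bd (v : X → ℝ) (V σ : ℝ) (hV : ∀ z, |v z| ≤ V) (z : X) :
    |Real.exp (-2 * σ * v z)| ≤ Real.exp (2 * |σ| * V) := by
  rw [abs_of_pos (Real.exp_pos _)]
  apply Real.exp_le_exp.2
  have h1 : -2 * σ * v z ≤ |2 * σ * v z| := by
    have := neg_abs_le (2 * σ * v z)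
    linarith
  refine h1.trans ?_
  rw [abs_mul, abs_mul, abs_two]
  exact mul_le_mul_of_nonneg_left (hV z) (by positivity)

/-- The main step: growth of the determinant of the Gram matrix. -/
lemma step (μ : Measure X) [IsFiniteMeasure μ] (m : X → ι → ℂ) (v : X → ℝ)
    (hm : ∀ α, Measurable fun z => m z α) (hmb : ∀ᵐ z ∂μ, ∀ α, ‖m z α‖ ≤ 1)
    (hv : Measurable v) (V : ℝ) (hV : ∀ z, |v z| ≤ V) (σ : ℝ)
    (hpd : (gram μ m (fun z => Real.exp (-2 * σ * v z))).PosDef)
    (A : Set X) (hA : MeasurableSet A) (t τ : ℝ) (ht : 0 ≤ t) (hτ : 0 ≤ τ)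
    (K : X → ℝ) (hK0 : ∀ z, 0 ≤ K z) (hKi : IntegrableOn K A μ)
    (hvA : ∀ z ∈ A, -t ≤ v z) (hvA' : ∀ᵐ z ∂μ, z ∉ A → -τ ≤ v z)
    (hK : ∀ z ∈ A, ∀ c : ι → ℂ, ‖∑ j, c j * m z j‖ ^ 2 * Real.exp (-2 * σ * v z) ≤
      K z * (qf (gram μ m (fun z => Real.exp (-2 * σ * v z))) c).re) :
    Real.log (gram μ m (fun z => Real.exp (-2 * σ * v z))).det.re -
      Real.log (gram μ m (fun z => Real.exp (-2 * (σ - 1) * v z))).det.re ≤
      2 * t * ∫ z in A, K z ∂μ + 2 * τ * Fintype.card ι := by
  set w : ℝ → X → ℝ := fun s z => Real.exp (-2 * s * v z) with hw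
  have hwm : ∀ s, Measurable (w s) := fun s => by fun_prop
  have hwb : ∀ s z, |w s z| ≤ Real.exp (2 * |s| * V) := fun s z => exp_bd v V s hV z
  set G := gram μ m (w σ) with hG
  set Q := gram μ m (w (σ - 1)) with hQ
  obtain ⟨C, x, h1, h2⟩ := simul_diag G Q hpd (gram_isHermitian μ m _)
  obtain ⟨hC, h3⟩ := det_rel G Q C x h1 h2
  -- the orthonormal functions
  set p : ι → X → ℝ := fun i z => ‖∑ β, C β i * m z β‖ ^ 2 * w σ z with hp
  have hpi : ∀ i, Integrable (p i) μ := fun i =>
    qf_integrable μ m (w σ) hm hmb (hwm σ) _ (hwb σ) (fun β => C β i)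
  have hp0 : ∀ i z, 0 ≤ p i z := fun i z => mul_nonneg (by positivity) (Real.exp_pos _).le
  have hp1 : ∀ i, ∫ z, p i z ∂μ = 1 := by
    intro i
    have e1 := diag_entry G C i
    rw [h1, one_apply_eq, hG, qf_gram μ m (w σ) hm hmb (hwm σ) _ (hwb σ)] at e1
    exact_mod_cast e1.symm
  have hx : ∀ i, x i = ∫ z, p i z * Real.exp (2 * v z) ∂μ := by
    intro i
    have e1 := diag_entry Q C i
    rw [h2, diagonal_apply_eq, hQ, qf_gram μ m (w (σ - 1)) hm hmb (hwm _) _ (hwb _)] at e1
    have e2 : x i = ∫ z, ‖∑ β, C β i * m z β‖ ^ 2 * w (σ - 1) z ∂μ := by exact_mod_cast e1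
    rw [e2]
    apply integral_congr_ae
    refine Filter.Eventually.of_forall fun z => ?_
    have e4 : Real.exp (-2 * (σ - 1) * v z) = Real.exp (-2 * σ * v z) * Real.exp (2 * v z) := by
      rw [← Real.exp_add]; congr 1; ring
    simp only [hp, hw]
    rw [e4]
    ring
  have hlog : ∀ i, 2 * ∫ z, v z * p i z ∂μ ≤ Real.log (x i) := by
    intro i
    rw [hx i]
    exact jensen_exp μ (p i) v (hpi i) (hp0 i) (hp1 i) hv V hV
  have hxpos : ∀ i, 0 < x i := by
    intro i
    rw [hx i]
    have h0 : 0 ≤ x i := by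
      rw [hx i]
      exact integral_nonneg fun z => mul_nonneg (hp0 i z) (Real.exp_pos _).le
    have hle : Real.exp (-2 * V) * ∫ z, p i z ∂μ ≤ ∫ z, p i z * Real.exp (2 * v z) ∂μ := by
      rw [← integral_const_mul]
      apply integral_mono_of_nonneg
      · exact Filter.Eventually.of_forall fun z => mul_nonneg (Real.exp_pos _).le (hp0 i z)
      · have : Integrable (fun z => Real.exp (2 * v z) * p i z) μ := by
          apply (hpi i).bdd_mul (by fun_prop) (c := Real.exp (2 * V))
          refine Filter.Eventually.of_forall fun z => ?_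
          rw [Real.norm_eq_abs, abs_of_pos (Real.exp_pos _)]
          apply Real.exp_le_exp.2
          have := (abs_le.1 (hV z)).2
          linarith
        simpa only [mul_comm] using this
      · refine Filter.Eventually.of_forall fun z => ?_
        simp only
        rw [mul_comm]
        apply mul_le_mul_of_nonneg_left _ (hp0 i z)
        apply Real.exp_le_exp.2
        have := (abs_le.1 (hV z)).1
        linarith
    rw [hp1 i, mul_one] at hle
    exact (Real.exp_pos _).trans_le hle
  -- determinant identity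
  have hGp : 0 < G.det := hpd.det_pos
  obtain ⟨hGre, hGim⟩ := Complex.pos_iff.1 hGp
  have hdet : Q.det.re = G.det.re * ∏ i, x i := by
    rw [h3, ← Complex.ofReal_prod, Complex.re_mul_ofReal]
  have hlogdet : Real.log Q.det.re = Real.log G.det.re + ∑ i, Real.log (x i) := by
    rw [hdet, Real.log_mul hGre.ne' (Finset.prod_pos fun i _ => hxpos i).ne',
      Real.log_prod fun i _ => (hxpos i).ne']
  have hvp : ∀ i, Integrable (fun z => v z * p i z) μ := by
    intro i
    apply (hpi i).bdd_mul hv.aestronglyMeasurable (c := V)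
    exact Filter.Eventually.of_forall fun z => by rw [Real.norm_eq_abs]; exact hV z
  -- Bergman function
  set B : X → ℝ := fun z => ∑ i, p i z with hB
  have hBi : Integrable B μ := integrable_finsetSum _ fun i _ => hpi i
  have hB0 : ∀ z, 0 ≤ B z := fun z => Finset.sum_nonneg fun i _ => hp0 i z
  have hB1 : ∫ z, B z ∂μ = Fintype.card ι := by
    rw [hB, integral_finsetSum _ fun i _ => hpi i]
    simp [hp1]
  have hBK : ∀ z ∈ A, B z ≤ K z := by
    intro z hz
    have := bergman_pointwise G C h1 (m z) (w σ z) (K z) (hK0 z) (hK z hz)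
    rw [Finset.sum_mul] at this
    exact this
  have hsum : Real.log G.det.re - Real.log Q.det.re ≤ ∫ z, -2 * v z * B z ∂μ := by
    have e1 : ∫ z, -2 * v z * B z ∂μ = - ∑ i, 2 * ∫ z, v z * p i z ∂μ := by
      rw [← Finset.mul_sum, ← integral_finsetSum _ fun i _ => hvp i, ← neg_mul, ← integral_const_mul]
      apply integral_congr_ae
      refine Filter.Eventually.of_forall fun z => ?_
      simp only [hB]
      rw [mul_assoc, Finset.mul_sum]
    rw [e1, hlogdet]
    have := Finset.sum_le_sum fun i (_ : i ∈ Finset.univ) => hlog i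
    linarith
  refine hsum.trans ?_
  have hvBi : Integrable (fun z => -2 * v z * B z) μ := by
    have : Integrable (fun z => (-2 * v z) * B z) μ := by
      apply hBi.bdd_mul (by fun_prop) (c := 2 * V)
      refine Filter.Eventually.of_forall fun z => ?_
      rw [Real.norm_eq_abs, abs_mul]
      have := hV z
      norm_num
      exact this
    exact this
  rw [← integral_add_compl hA hvBi]
  apply add_le_add
  · rw [← integral_const_mul]
    apply integral_mono_ae hvBi.integrableOn (hKi.const_mul _)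
    refine (ae_restrict_iff' hA).2 (Filter.Eventually.of_forall fun z hz => ?_)
    have h5 := hvA z hz
    have h6 := hBK z hz
    have h7 := hB0 z
    nlinarith
  · calc ∫ z in Aᶜ, -2 * v z * B z ∂μ ≤ ∫ z in Aᶜ, 2 * τ * B z ∂μ := by
          apply integral_mono_ae hvBi.integrableOn (hBi.const_mul _).integrableOn
          refine (ae_restrict_iff' hA.compl).2 ?_
          filter_upwards [hvA'] with z hz hz2
          have h5 := hz hz2
          have h7 := hB0 z
          nlinarith
      _ ≤ ∫ z, 2 * τ * B z ∂μ := by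
          apply setIntegral_le_integral (hBi.const_mul _)
          exact Filter.Eventually.of_forall fun z => mul_nonneg (by positivity) (hB0 z)
      _ = 2 * τ * Fintype.card ι := by rw [integral_const_mul, hB1]

end Pool.Agent.H805R2.Gram
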