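import Mathlib
import Pool.Agent.H805R2.FekE
import Pool.Agent.H805R2.Gram
import Pool.Agent.H805R2.Local2

set_option autoImplicit false

open MeasureTheory Metric Set Filter Topology
open scoped ENNReal NNReal ContDiff ComplexOrder

namespace Pool.Agent.H805R2

open Fek Gram

variable {n : ℕ}

lemma monE_continuous (d : ℕ) (δ : ℝ) (z0 : Cn n) (α : Idx n d) :
    Continuous fun z => monE n d δ z0 z α := by
  unfold monE mon
  fun_prop

lemma monE_line (d : ℕ) (δ : ℝ) (z0 z ζ : Cn n) (α : Idx n d) :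
    Differentiable ℂ fun w : ℂ => monE n d δ z0 (z + w • ζ) α := by
  unfold monE mon
  simp only [PiLp.add_apply, PiLp.smul_apply, smul_eq_mul]
  fun_prop

lemma monE_bound (d : ℕ) (δ : ℝ) (hδ : 0 < δ) (z0 z : Cn n) (hz : ∀ j, ‖z j - z0 j‖ ≤ δ) (α : Idx n d) :
    ‖monE n d δ z0 z α‖ ≤ 1 := by
  unfold monE mon
  rw [norm_prod]
  apply Finset.prod_le_one
  · intro i _; positivity
  · intro i _
    rw [norm_pow]
    apply pow_le_one₀ (norm_nonneg _)
    rw [norm_mul, Complex.norm_real, Real.norm_eq_abs, abs_of_pos (inv_pos.2 hδ), inv_mul_le_iff₀ hδ,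
      mul_one]
    exact hz i

/-- polynomials -/
noncomputable def polyE (d : ℕ) (δ : ℝ) (z0 : Cn n) (c : Idx n d → ℂ) (z : Cn n) : ℂ :=
  ∑ β, c β * monE n d δ z0 z β

lemma polyE_continuous (d : ℕ) (δ : ℝ) (z0 : Cn n) (c : Idx n d → ℂ) : Continuous (polyE d δ z0 c) := by
  unfold polyE
  have := fun β => monE_continuous d δ z0 β
  fun_prop

lemma polyE_line (d : ℕ) (δ : ℝ) (z0 : Cn n) (c : Idx n d → ℂ) (z ζ : Cn n) :
    Differentiable ℂ fun w : ℂ => polyE d δ z0 c (z + w • ζ) := by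
  unfold polyE
  have := fun β => monE_line d δ z0 z ζ β
  fun_prop

/-- sub-mean value property on balls -/
lemma mean_ball (F : Cn n → ℂ) (hF : Continuous F) (x : Cn n)
    (hl : ∀ ζ, Differentiable ℂ fun w : ℂ => F (x + w • ζ)) (ρ : ℝ) :
    (volume : Measure (Cn n)).real (closedBall 0 ρ) * ‖F x‖ ^ 2 ≤ ∫ y in closedBall x ρ, ‖F y‖ ^ 2 := by
  have h1 : ∫ _ in closedBall (0 : Cn n) ρ, ‖F x‖ ^ 2 ≤ ∫ ζ in closedBall (0 : Cn n) ρ, ‖F (x + ζ)‖ ^ 2 := by
    apply rot_avg (fun ζ => ‖F (x + ζ)‖ ^ 2) (fun _ => ‖F x‖ ^ 2) (by fun_prop) continuous_const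
    intro ζ
    have := circle_lower F x ζ (hl ζ) 0 0 (fun _ _ => rfl) 0 0
    simpa using this
  rw [setIntegral_const, smul_eq_mul] at h1
  refine h1.trans (le_of_eq ?_)
  have hmp : MeasurePreserving (fun ζ : Cn n => x + ζ) volume volume :=
    measurePreserving_add_left volume x
  have h3 := hmp.setIntegral_preimage_emb (MeasurableEquiv.addLeft x).measurableEmbedding
    (fun y => ‖F y‖ ^ 2) (closedBall x ρ)
  have h2 : (fun ζ : Cn n => x + ζ) ⁻¹' closedBall x ρ = closedBall (0 : Cn n) ρ := by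
    ext ζ; simp [dist_eq_norm]
  rw [h2] at h3
  exact h3

section
variable (U : Set (Cn n)) (hU : IsOpen U) (hUb : Bornology.IsBounded U) (δ : ℝ) (hδ : 0 < δ)
  (z0 : Cn n) (hUδ : ∀ z ∈ U, ∀ j, ‖z j - z0 j‖ ≤ δ) (u : Cn n → ℝ) (hu : ContDiff ℝ 2 u)
  (V : ℝ) (hV : ∀ z, |u z| ≤ V) (d : ℕ)

include hU hδ hUδ in
lemma ae_bd : ∀ᵐ z ∂(volume.restrict U : Measure (Cn n)), ∀ α : Idx n d, ‖monE n d δ z0 z α‖ ≤ 1 := by
  rw [ae_restrict_iff' hU.measurableSet]
  exact Eventually.of_forall fun z hz α => monE_bound d δ hδ z0 z (hUδ z hz) α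

/-- the Gram matrix of the monomials -/
noncomputable def GG (σ : ℝ) : Matrix (Idx n d) (Idx n d) ℂ :=
  gram (volume.restrict U) (monE n d δ z0) (fun z => Real.exp (-2 * σ * u z))

include hU hUb hδ hUδ hu hV in
lemma qf_GG (σ : ℝ) (c : Idx n d → ℂ) :
    (qf (GG U δ z0 u d σ) c).re = ∫ z in U, ‖polyE d δ z0 c z‖ ^ 2 * Real.exp (-2 * σ * u z) ∧
    IntegrableOn (fun z => ‖polyE d δ z0 c z‖ ^ 2 * Real.exp (-2 * σ * u z)) U := by
  have : IsFiniteMeasure (volume.restrict U : Measure (Cn n)) :=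
    ⟨by rw [Measure.restrict_apply_univ]; exact hUb.measure_lt_top⟩
  have huc : Continuous u := hu.continuous
  have h1 := qf_gram (volume.restrict U) (monE n d δ z0) (fun z => Real.exp (-2 * σ * u z))
    (fun α => (monE_continuous d δ z0 α).measurable) (ae_bd U hU δ hδ z0 hUδ d)
    (by fun_prop) _ (exp_bd u V σ hV) c
  have h2 := qf_integrable (volume.restrict U) (monE n d δ z0) (fun z => Real.exp (-2 * σ * u z))
    (fun α => (monE_continuous d δ z0 α).measurable) (ae_bd U hU δ hδ z0 hUδ d)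
    (by fun_prop) _ (exp_bd u V σ hV) c
  refine ⟨?_, h2⟩
  rw [GG, h1, Complex.ofReal_re]
  rfl

include hU hUb hδ hUδ hu hV in
lemma qf_lower (σ : ℝ) (hσ : 0 ≤ σ) (c : Idx n d → ℂ) (ρ t' : ℝ) (x : Cn n)
    (hx : closedBall x ρ ⊆ U) (hx' : ∀ y ∈ closedBall x ρ, u y ≤ -t') :
    Real.exp (2 * σ * t') * (volume : Measure (Cn n)).real (closedBall 0 ρ) * ‖polyE d δ z0 c x‖ ^ 2 ≤
      (qf (GG U δ z0 u d σ) c).re := by
  obtain ⟨h1, h2⟩ := qf_GG U hU hUb δ hδ z0 hUδ u hu V hV d σ c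
  rw [h1]
  have hm := mean_ball (polyE d δ z0 c) (polyE_continuous d δ z0 c) x (polyE_line d δ z0 c x) ρ
  have hpc := polyE_continuous d δ z0 c
  calc Real.exp (2 * σ * t') * (volume : Measure (Cn n)).real (closedBall 0 ρ) * ‖polyE d δ z0 c x‖ ^ 2
      = Real.exp (2 * σ * t') * ((volume : Measure (Cn n)).real (closedBall 0 ρ) * ‖polyE d δ z0 c x‖ ^ 2) := by
        ring
    _ ≤ Real.exp (2 * σ * t') * ∫ y in closedBall x ρ, ‖polyE d δ z0 c y‖ ^ 2 :=
        mul_le_mul_of_nonneg_left hm (Real.exp_pos _).le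
    _ = ∫ y in closedBall x ρ, Real.exp (2 * σ * t') * ‖polyE d δ z0 c y‖ ^ 2 := by
        rw [integral_const_mul]
    _ ≤ ∫ y in closedBall x ρ, ‖polyE d δ z0 c y‖ ^ 2 * Real.exp (-2 * σ * u y) := by
        apply setIntegral_mono_on _ (h2.mono_set hx) measurableSet_closedBall
        · intro y hy
          rw [mul_comm]
          apply mul_le_mul_of_nonneg_left _ (by positivity)
          apply Real.exp_le_exp.2
          have := hx' y hy
          nlinarith
        · have : Continuous fun y => Real.exp (2 * σ * t') * ‖polyE d δ z0 c y‖ ^ 2 := by fun_prop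
          exact this.continuousOn.integrableOn_compact (isCompact_closedBall _ _)
    _ ≤ ∫ y in U, ‖polyE d δ z0 c y‖ ^ 2 * Real.exp (-2 * σ * u y) := by
        apply setIntegral_mono_set h2
        · exact Eventually.of_forall fun y => by positivity
        · exact Filter.Eventually.of_forall hx

/-- lower bound for the Gram determinant -/
lemma det_lower (hUb' : Bornology.IsBounded U) (hU' : IsOpen U) (hδ' : 0 < δ)
    (hUδ' : ∀ z ∈ U, ∀ j, ‖z j - z0 j‖ ≤ δ) (hu' : ContDiff ℝ 2 u) (hV' : ∀ z, |u z| ≤ V)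
    (σ : ℝ) (hσ : 0 ≤ σ) (ρ t' : ℝ) (hρ : 0 < ρ) (x : Idx n d → Cn n)
    (hx : ∀ β, closedBall (x β) ρ ⊆ U) (hx' : ∀ β, ∀ y ∈ closedBall (x β) ρ, u y ≤ -t')
    (hdet : (Matrix.of fun β α => monE n d δ z0 (x β) α).det ≠ 0) :
    (GG U δ z0 u d σ).PosDef ∧
    2 * σ * t' * (NN n d : ℝ) + (NN n d : ℝ) * Real.log ((volume : Measure (Cn n)).real (closedBall 0 ρ) / (NN n d : ℝ))
      + Real.log (‖(Matrix.of fun β α => monE n d δ z0 (x β) α).det‖ ^ 2) ≤
      Real.log (GG U δ z0 u d σ).det.re := by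
  set M : Matrix (Idx n d) (Idx n d) ℂ := Matrix.of fun β α => monE n d δ z0 (x β) α with hM
  set Vρ : ℝ := (volume : Measure (Cn n)).real (closedBall 0 ρ) with hVρ
  have hVρ0 : 0 < Vρ := by
    rw [hVρ, Measure.real]
    apply ENNReal.toReal_pos
    · exact (measure_closedBall_pos _ _ hρ).ne'
    · exact measure_closedBall_lt_top.ne
  have hN : (0 : ℝ) < NN n d := by exact_mod_cast NN_pos n d
  set θ : ℝ := Real.exp (2 * σ * t') * Vρ / NN n d with hθ
  have hθ0 : 0 < θ := by positivity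
  have hMc : ∀ (c : Idx n d → ℂ) (β : Idx n d), (M.mulVec c) β = polyE d δ z0 c (x β) := by
    intro c β
    simp only [hM, Matrix.mulVec, dotProduct, Matrix.of_apply, polyE]
    exact Finset.sum_congr rfl fun α _ => mul_comm _ _
  -- the comparison matrix
  set Q : Matrix (Idx n d) (Idx n d) ℂ := (θ : ℂ) • (M.conjTranspose * M) with hQ
  have hqQ : ∀ c, qf Q c = ((θ * ∑ β, ‖polyE d δ z0 c (x β)‖ ^ 2 : ℝ) : ℂ) := by
    intro c
    unfold qf
    rw [hQ, Matrix.smul_mulVec, dotProduct_smul, ← Matrix.mulVec_mulVec, Matrix.dotProduct_mulVec,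
      ← Matrix.star_mulVec, smul_eq_mul]
    push_cast
    congr 1
    simp only [dotProduct, Pi.star_apply]
    apply Finset.sum_congr rfl
    intro β _
    rw [hMc, Complex.star_def, ← Complex.normSq_eq_conj_mul_self, Complex.normSq_eq_norm_sq]
    push_cast; rfl
  have hQle : ∀ c, (qf Q c).re ≤ (qf (GG U δ z0 u d σ) c).re := by
    intro c
    rw [hqQ, Complex.ofReal_re]
    have h1 : ∀ β, Real.exp (2 * σ * t') * Vρ * ‖polyE d δ z0 c (x β)‖ ^ 2 ≤
        (qf (GG U δ z0 u d σ) c).re := fun β =>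
      qf_lower U hU' hUb' δ hδ' z0 hUδ' u hu' V hV' d σ hσ c ρ t' (x β) (hx β) (hx' β)
    have h2 := Finset.sum_le_sum fun β (_ : β ∈ Finset.univ) => h1 β
    rw [← Finset.mul_sum, Finset.sum_const, Finset.card_univ, card_Idx, nsmul_eq_mul] at h2
    rw [hθ, div_mul_eq_mul_div, div_le_iff₀ hN]
    linarith
  have hQpsd : Q.PosSemidef := by
    apply (Matrix.posSemidef_conjTranspose_mul_self M).smul
    exact_mod_cast hθ0.le
  have hQdet : Q.det = ((θ ^ (NN n d) * ‖M.det‖ ^ 2 : ℝ) : ℂ) := by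
    rw [hQ, Matrix.det_smul, card_Idx, Matrix.det_mul, Matrix.det_conjTranspose, Complex.star_def,
      ← Complex.normSq_eq_conj_mul_self, Complex.normSq_eq_norm_sq]
    push_cast; ring
  have hQdet0 : 0 < Q.det.re := by
    rw [hQdet, Complex.ofReal_re]
    have : 0 < ‖M.det‖ := norm_pos_iff.2 hdet
    positivity
  have hQpd : Q.PosDef := by
    rw [hQpsd.posDef_iff_det_ne_zero]
    intro h
    rw [h] at hQdet0
    simp at hQdet0
  have hGherm : (GG U δ z0 u d σ).IsHermitian := gram_isHermitian _ _ _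
  have hGreal : ∀ c, qf (GG U δ z0 u d σ) c = (((qf (GG U δ z0 u d σ) c).re : ℝ) : ℂ) := by
    intro c
    have : IsFiniteMeasure (volume.restrict U : Measure (Cn n)) :=
      ⟨by rw [Measure.restrict_apply_univ]; exact hUb'.measure_lt_top⟩
    have huc : Continuous u := hu'.continuous
    have h1 := qf_gram (volume.restrict U) (monE n d δ z0) (fun z => Real.exp (-2 * σ * u z))
      (fun α => (monE_continuous d δ z0 α).measurable) (ae_bd U hU' δ hδ' z0 hUδ' d)
      (by fun_prop) _ (exp_bd u V σ hV') c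
    rw [GG, h1, Complex.ofReal_re]
  have hGpd : (GG U δ z0 u d σ).PosDef := by
    refine Matrix.PosDef.of_dotProduct_mulVec_pos hGherm ?_
    intro c hc
    have h1 := hQpd.dotProduct_mulVec_pos hc
    change 0 < qf (GG U δ z0 u d σ) c
    have h2 : 0 < qf Q c := h1
    rw [hGreal]
    have h3 := (Complex.pos_iff.1 h2).1
    have h4 := hQle c
    exact_mod_cast lt_of_lt_of_le h3 h4
  refine ⟨hGpd, ?_⟩
  have hmono := det_mono (GG U δ z0 u d σ) Q hGpd hQpsd hQle
  have hlog := Real.log_le_log hQdet0 hmono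
  refine le_trans (le_of_eq ?_) hlog
  have hMd : 0 < ‖M.det‖ := norm_pos_iff.2 hdet
  have e1 : Real.log θ = 2 * σ * t' + Real.log (Vρ / NN n d) := by
    rw [hθ, mul_div_assoc, Real.log_mul (Real.exp_pos _).ne' (by positivity), Real.log_exp]
  have e2 : Real.log (θ ^ NN n d * ‖M.det‖ ^ 2) = NN n d * Real.log θ + Real.log (‖M.det‖ ^ 2) := by
    rw [Real.log_mul (by positivity) (by positivity), Real.log_pow θ]
  rw [hQdet, Complex.ofReal_re, e2, e1]
  ring

end

end Pool.Agent.H805R2
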