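import Mathlib
import Pool.Agent.H805R2.Upper

set_option autoImplicit false

open MeasureTheory Metric Set Filter Topology
open scoped ENNReal NNReal ContDiff ComplexOrder

namespace Pool.Agent.H805R2

open Fek Gram

variable {n : ℕ}

section
variable (U : Set (Cn n)) (hU : IsOpen U) (hUb : Bornology.IsBounded U) (δ : ℝ) (hδ : 0 < δ)
  (z0 : Cn n) (hUδ : ∀ z ∈ U, ∀ j, ‖z j - z0 j‖ ≤ δ) (u : Cn n → ℝ) (hu : ContDiff ℝ 2 u)
  (V : ℝ) (hV : ∀ z, |u z| ≤ V)

include hU hUb hδ hUδ hu hV in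
/-- crude growth bound -/
lemma crude_step (d : ℕ) (σ T : ℝ) (hT : 0 ≤ T) (hTu : ∀ z ∈ U, -T ≤ u z)
    (hpd : (GG U δ z0 u d σ).PosDef) :
    Real.log (GG U δ z0 u d σ).det.re - Real.log (GG U δ z0 u d (σ - 1)).det.re ≤ 2 * T * NN n d := by
  have : IsFiniteMeasure (volume.restrict U : Measure (Cn n)) :=
    ⟨by rw [Measure.restrict_apply_univ]; exact hUb.measure_lt_top⟩
  have huc : Continuous u := hu.continuous
  have h := step (volume.restrict U) (monE n d δ z0) u
    (fun α => (monE_continuous d δ z0 α).measurable) (ae_bd U hU δ hδ z0 hUδ d) huc.measurable V hV σ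
    hpd ∅ MeasurableSet.empty 0 T le_rfl hT (fun _ => 0) (fun _ => le_rfl) (by simp) (by simp)
    (by
      rw [ae_restrict_iff' hU.measurableSet]
      exact Eventually.of_forall fun z hz _ => hTu z hz) (by simp)
  rw [card_Idx, mul_zero, zero_mul, zero_add] at h
  exact h

include hU hUb hδ hUδ hu hV in
/-- sharp growth bound -/
lemma sharp_step {C : Set (Cn n)} (hC : IsCompact C) (hCU : C ⊆ U)
    (hpsh : ∀ z ∈ C, (hess u z).PosSemidef) (t τ : ℝ) (ht : 0 ≤ t) (hτ : 0 ≤ τ)
    (htC : ∀ z ∈ C, -t ≤ u z) (hτC : ∀ z ∈ U, z ∉ C → -τ ≤ u z) (κ : ℝ) (hκ : 0 < κ) :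
    ∃ σ0 > 0, ∀ σ ≥ σ0, ∀ d, (GG U δ z0 u d σ).PosDef →
    Real.log (GG U δ z0 u d σ).det.re - Real.log (GG U δ z0 u d (σ - 1)).det.re ≤
      2 * t * (σ ^ n * ((2 / Real.pi) ^ n * (∫ z in C, (hess u z).det.re) + κ * (volume : Measure (Cn n)).real C)) +
      2 * τ * NN n d := by
  have : IsFiniteMeasure (volume.restrict U : Measure (Cn n)) :=
    ⟨by rw [Measure.restrict_apply_univ]; exact hUb.measure_lt_top⟩
  have huc : Continuous u := hu.continuous
  obtain ⟨σ0, hσ0, H⟩ := local_bergman hu hU hC hCU hpsh κ hκ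
  refine ⟨σ0, hσ0, ?_⟩
  intro σ hσ d hpd
  have hσp : 0 < σ := lt_of_lt_of_le hσ0 hσ
  set Kf : Cn n → ℝ := fun z => σ ^ n * (|(2 / Real.pi) ^ n * (hess u z).det.re| + κ) with hKf
  have hdetc : Continuous fun z => (hess u z).det.re :=
    Complex.continuous_re.comp (hess_continuous hu).matrix_det
  have hKc : Continuous Kf := by fun_prop
  have hdet0 : ∀ z ∈ C, 0 ≤ (hess u z).det.re := fun z hz =>
    (Complex.nonneg_iff.1 (hpsh z hz).det_nonneg).1
  have hrestr : ∀ f : Cn n → ℝ, ∫ z in C, f z ∂(volume.restrict U) = ∫ z in C, f z := by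
    intro f
    rw [Measure.restrict_restrict hC.measurableSet, inter_eq_left.2 hCU]
  have h := step (volume.restrict U) (monE n d δ z0) u
    (fun α => (monE_continuous d δ z0 α).measurable) (ae_bd U hU δ hδ z0 hUδ d) huc.measurable V hV σ
    hpd C hC.measurableSet t τ ht hτ Kf (fun z => by positivity)
    (by
      rw [IntegrableOn, Measure.restrict_restrict hC.measurableSet, inter_eq_left.2 hCU]
      exact hKc.continuousOn.integrableOn_compact hC)
    htC
    (by
      rw [ae_restrict_iff' hU.measurableSet]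
      exact Eventually.of_forall fun z hz hz' => hτC z hz hz')
    (by
      intro z hz c
      obtain ⟨h1, h2⟩ := qf_GG U hU hUb δ hδ z0 hUδ u hu V hV d σ c
      have h3 := H σ hσ z hz (polyE d δ z0 c) (polyE_continuous d δ z0 c) (polyE_line d δ z0 c z) h2
      rw [← h1] at h3
      have h4 : Kf z = σ ^ n * ((2 / Real.pi) ^ n * (hess u z).det.re + κ) := by
        simp only [hKf]
        rw [abs_of_nonneg]
        have := hdet0 z hz
        have := Real.pi_pos
        positivity
      rw [h4]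
      exact h3)
  rw [card_Idx, hrestr] at h
  have hint : ∫ z in C, Kf z = σ ^ n * ((2 / Real.pi) ^ n * (∫ z in C, (hess u z).det.re) +
      κ * (volume : Measure (Cn n)).real C) := by
    have h5 : ∫ z in C, Kf z = ∫ z in C, σ ^ n * ((2 / Real.pi) ^ n * (hess u z).det.re + κ) := by
      apply setIntegral_congr_fun hC.measurableSet
      intro z hz
      simp only [hKf]
      rw [abs_of_nonneg]
      have := hdet0 z hz
      have := Real.pi_pos
      positivity
    rw [h5, integral_const_mul, integral_add, integral_const_mul, setIntegral_const, smul_eq_mul,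
      mul_comm κ]
    · exact (hdetc.const_mul _).continuousOn.integrableOn_compact hC
    · exact continuous_const.continuousOn.integrableOn_compact hC
  rw [hint] at h
  exact h

include hU hUb hδ hUδ hu hV in
/-- total growth -/
lemma total_growth {C : Set (Cn n)} (hC : IsCompact C) (hCU : C ⊆ U)
    (hpsh : ∀ z ∈ C, (hess u z).PosSemidef) (t τ : ℝ) (ht : 0 ≤ t) (hτ : 0 ≤ τ)
    (htC : ∀ z ∈ C, -t ≤ u z) (hτC : ∀ z ∈ U, z ∉ C → -τ ≤ u z) (κ : ℝ) (hκ : 0 < κ)
    (hpd : ∀ d : ℕ, ∀ σ : ℝ, 0 ≤ σ → (GG U δ z0 u d σ).PosDef) :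
    ∃ S0 : ℝ, ∀ d : ℕ, Real.log (GG U δ z0 u d d).det.re ≤ S0 * NN n d + 2 * τ * d * NN n d +
      2 * t * ((2 / Real.pi) ^ n * (∫ z in C, (hess u z).det.re) + κ * (volume : Measure (Cn n)).real C) *
        (((d : ℝ) + 1) ^ (n + 1) / (n + 1)) := by
  obtain ⟨σ0, hσ0, H⟩ := sharp_step U hU hUb δ hδ z0 hUδ u hu V hV hC hCU hpsh t τ ht hτ htC hτC κ hκ
  set T := max t τ with hT
  have hT0 : 0 ≤ T := ht.trans (le_max_left _ _)
  have hTu : ∀ z ∈ U, -T ≤ u z := by
    intro z hz
    by_cases h : z ∈ C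
    · have := htC z h
      have := le_max_left t τ
      linarith
    · have := hτC z hz h
      have := le_max_right t τ
      linarith
  set I : ℝ := (2 / Real.pi) ^ n * (∫ z in C, (hess u z).det.re) + κ * (volume : Measure (Cn n)).real C with hI
  have hI0 : 0 ≤ I := by
    have h1 : 0 ≤ ∫ z in C, (hess u z).det.re := setIntegral_nonneg hC.measurableSet fun z hz =>
      (Complex.nonneg_iff.1 (hpsh z hz).det_nonneg).1
    have := Real.pi_pos
    have h2 : 0 ≤ (volume : Measure (Cn n)).real C := measureReal_nonneg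
    positivity
  set M0 : ℕ := ⌈σ0⌉₊ with hM0
  refine ⟨(volume : Measure (Cn n)).real U + M0 * (2 * T), ?_⟩
  intro d
  have hN : (0 : ℝ) < NN n d := by exact_mod_cast NN_pos n d
  -- the single steps
  have hstep : ∀ k ∈ Finset.range d,
      Real.log (GG U δ z0 u d ((k + 1 : ℕ) : ℝ)).det.re - Real.log (GG U δ z0 u d (k : ℝ)).det.re ≤
        (2 * t * I * ((k : ℝ) + 1) ^ n + 2 * τ * NN n d) + (if k < M0 then 2 * T * NN n d else 0) := by
    intro k _
    have hk1 : (((k + 1 : ℕ) : ℝ) - 1) = (k : ℝ) := by push_cast; ring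
    by_cases hk : k < M0
    · rw [if_pos hk]
      have h1 := crude_step U hU hUb δ hδ z0 hUδ u hu V hV d ((k + 1 : ℕ) : ℝ) T hT0 hTu
        (hpd d _ (by positivity))
      rw [hk1] at h1
      have h2 : 0 ≤ 2 * t * I * ((k : ℝ) + 1) ^ n + 2 * τ * NN n d := by positivity
      linarith
    · rw [if_neg hk, add_zero]
      have h1 := H ((k + 1 : ℕ) : ℝ) (by
        have h3 : σ0 ≤ (M0 : ℝ) := Nat.le_ceil _
        have h4 : (M0 : ℝ) ≤ k := by exact_mod_cast not_lt.1 hk
        push_cast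
        linarith) d (hpd d _ (by positivity))
      rw [hk1] at h1
      push_cast at h1 ⊢
      linarith
  have hsum := Finset.sum_le_sum hstep
  rw [Finset.sum_range_sub (fun k : ℕ => Real.log (GG U δ z0 u d (k : ℝ)).det.re)] at hsum
  rw [Finset.sum_add_distrib, Finset.sum_add_distrib, ← Finset.mul_sum, Finset.sum_const,
    Finset.card_range, nsmul_eq_mul] at hsum
  have hind : ∑ k ∈ Finset.range d, (if k < M0 then 2 * T * (NN n d : ℝ) else 0) ≤ M0 * (2 * T * NN n d) := by
    rw [← Finset.sum_filter, Finset.sum_const, nsmul_eq_mul]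
    apply mul_le_mul_of_nonneg_right _ (by positivity)
    have : (Finset.range d).filter (fun k => k < M0) ⊆ Finset.range M0 := by
      intro k hk
      rw [Finset.mem_filter] at hk
      exact Finset.mem_range.2 hk.2
    have := Finset.card_le_card this
    rw [Finset.card_range] at this
    exact_mod_cast this
  -- the initial value
  have hD0 : Real.log (GG U δ z0 u d ((0 : ℕ) : ℝ)).det.re ≤ NN n d * (volume : Measure (Cn n)).real U := by
    refine (log_det_le_trace _ (hpd d _ (by simp))).trans ?_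
    rw [Matrix.trace, Complex.re_sum]
    have h1 : ∀ α : Idx n d, ((GG U δ z0 u d ((0 : ℕ) : ℝ)).diag α).re ≤ (volume : Measure (Cn n)).real U := by
      intro α
      have : IsFiniteMeasure (volume.restrict U : Measure (Cn n)) :=
        ⟨by rw [Measure.restrict_apply_univ]; exact hUb.measure_lt_top⟩
      simp only [Matrix.diag_apply, GG, gram, Matrix.of_apply]
      have h2 : ‖∫ z in U, star (monE n d δ z0 z α) * monE n d δ z0 z α *
          ((Real.exp (-2 * ((0 : ℕ) : ℝ) * u z) : ℝ) : ℂ)‖ ≤ 1 * (volume.restrict U : Measure (Cn n)).real univ := by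
        apply norm_integral_le_of_norm_le_const
        rw [ae_restrict_iff' hU.measurableSet]
        refine Eventually.of_forall fun z hz => ?_
        have h3 := monE_bound d δ hδ z0 z (hUδ z hz) α
        rw [norm_mul, norm_mul, norm_star]
        simp only [Nat.cast_zero, mul_zero, zero_mul, Real.exp_zero, Complex.ofReal_one, norm_one,
          mul_one]
        exact mul_le_one₀ h3 (norm_nonneg _) h3
      refine (Complex.re_le_norm _).trans (h2.trans (le_of_eq ?_))
      rw [one_mul, measureReal_restrict_apply_univ]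
    have h2 := Finset.sum_le_sum fun α (_ : α ∈ Finset.univ) => h1 α
    rw [Finset.sum_const, Finset.card_univ, card_Idx, nsmul_eq_mul] at h2
    exact h2
  have hpow : ∑ k ∈ Finset.range d, ((k : ℝ) + 1) ^ n ≤ ((d : ℝ) + 1) ^ (n + 1) / (n + 1) := by
    rw [le_div_iff₀ (by positivity)]
    exact sum_pow_le n d
  have hpow' : 2 * t * I * ∑ k ∈ Finset.range d, ((k : ℝ) + 1) ^ n ≤
      2 * t * I * (((d : ℝ) + 1) ^ (n + 1) / (n + 1)) :=
    mul_le_mul_of_nonneg_left hpow (by positivity)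
  calc Real.log (GG U δ z0 u d d).det.re
      ≤ Real.log (GG U δ z0 u d ((0 : ℕ) : ℝ)).det.re +
        (2 * t * I * ∑ k ∈ Finset.range d, ((k : ℝ) + 1) ^ n + d * (2 * τ * NN n d) +
          ∑ k ∈ Finset.range d, (if k < M0 then 2 * T * (NN n d : ℝ) else 0)) := by linarith
    _ ≤ NN n d * (volume : Measure (Cn n)).real U +
        (2 * t * I * (((d : ℝ) + 1) ^ (n + 1) / (n + 1)) + d * (2 * τ * NN n d) +
          M0 * (2 * T * NN n d)) := by gcongr
    _ = _ := by ring

end

/-- **The main upper bound for sublevel sets of smooth plurisubharmonic functions** -/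
theorem upper_bound (n : ℕ) : ∃ c : ℝ, 0 < c ∧ ∀ (U : Set (Cn n)), IsOpen U → Bornology.IsBounded U →
    ∀ (δ : ℝ), 0 < δ → ∀ (z0 : Cn n), (∀ z ∈ U, ∀ j, ‖z j - z0 j‖ ≤ δ) →
    ∀ (u : Cn n → ℝ), ContDiff ℝ 2 u → ∀ (V : ℝ), (∀ z, |u z| ≤ V) →
    ∀ C : Set (Cn n), IsCompact C → C ⊆ U → (∀ z ∈ C, (hess u z).PosSemidef) →
    ∀ t τ : ℝ, 0 ≤ t → 0 ≤ τ → (∀ z ∈ C, -t ≤ u z) → (∀ z ∈ U, z ∉ C → -τ ≤ u z) →
    ∀ K : Set (Cn n), MeasurableSet K → ∀ v : ℝ, 0 < v → volume K = ENNReal.ofReal v →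
    ∀ ρ > 0, ∀ t' : ℝ, (∀ x ∈ K, closedBall x ρ ⊆ U ∧ ∀ y ∈ closedBall x ρ, u y ≤ -t') →
    Real.log (c * v / δ ^ (2 * n)) ≤
      2 * t * ((n.factorial : ℝ) * (2 / Real.pi) ^ n * ∫ z in C, (hess u z).det.re) -
        2 * (n + 1) * t' + 2 * (n + 1) * τ := by
  obtain ⟨c, hc, HF⟩ := feketeE n
  refine ⟨c, hc, ?_⟩
  intro U hU hUb δ hδ z0 hUδ u hu V hV C hC hCU hpsh t τ ht hτ htC hτC K hK v hv hvK ρ hρ t' hKρ
  have hpi := Real.pi_pos
  set Λ : ℝ := Real.log (c * v / δ ^ (2 * n)) with hΛ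
  have hcv : 0 < c * v / δ ^ (2 * n) := by positivity
  set Vρ : ℝ := (volume : Measure (Cn n)).real (closedBall 0 ρ) with hVρ
  have hVρ0 : 0 < Vρ := by
    rw [hVρ, Measure.real]
    apply ENNReal.toReal_pos
    · exact (measure_closedBall_pos _ _ hρ).ne'
    · exact measure_closedBall_lt_top.ne
  -- consequences of the Fekete bound
  have hlow : ∀ d : ℕ, ∀ σ : ℝ, 0 ≤ σ → (GG U δ z0 u d σ).PosDef ∧
      2 * σ * t' * (NN n d : ℝ) + (NN n d : ℝ) * Real.log (Vρ / (NN n d : ℝ)) + SS n d * Λ ≤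
        Real.log (GG U δ z0 u d σ).det.re := by
    intro d σ hσ
    obtain ⟨x, hxK, hdet⟩ := HF K hK v hv hvK δ hδ z0 d
    have hdet0 : (Matrix.of fun β α => monE n d δ z0 (x β) α).det ≠ 0 := by
      intro h
      rw [h, norm_zero] at hdet
      have : 0 < (c * v / δ ^ (2 * n)) ^ (SS n d) := by positivity
      norm_num at hdet
      linarith
    obtain ⟨h1, h2⟩ := det_lower U δ z0 u V d hUb hU hδ hUδ hu hV σ hσ ρ t' hρ x
      (fun β => (hKρ _ (hxK β)).1) (fun β => (hKρ _ (hxK β)).2) hdet0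
    refine ⟨h1, le_trans ?_ h2⟩
    have h3 : SS n d * Λ ≤ Real.log (‖(Matrix.of fun β α => monE n d δ z0 (x β) α).det‖ ^ 2) := by
      rw [hΛ, ← Real.log_pow]
      exact Real.log_le_log (by positivity) hdet
    linarith
  have hpd : ∀ d : ℕ, ∀ σ : ℝ, 0 ≤ σ → (GG U δ z0 u d σ).PosDef := fun d σ hσ => (hlow d σ hσ).1
  set I0 : ℝ := (2 / Real.pi) ^ n * ∫ z in C, (hess u z).det.re with hI0
  have hI00 : 0 ≤ I0 := by
    have h1 : 0 ≤ ∫ z in C, (hess u z).det.re := setIntegral_nonneg hC.measurableSet fun z hz =>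
      (Complex.nonneg_iff.1 (hpsh z hz).det_nonneg).1
    positivity
  have hvC : 0 ≤ (volume : Measure (Cn n)).real C := measureReal_nonneg
  -- it suffices to prove the estimate with `κ`
  have hmain : ∀ κ > 0, Λ ≤ 2 * t * (n.factorial * (I0 + κ * (volume : Measure (Cn n)).real C)) -
      2 * (n + 1) * t' + 2 * (n + 1) * τ := by
    intro κ hκ
    obtain ⟨S0, hS0⟩ := total_growth U hU hUb δ hδ z0 hUδ u hu V hV hC hCU hpsh t τ ht hτ htC hτC κ hκ hpd
    set I : ℝ := I0 + κ * (volume : Measure (Cn n)).real C with hI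
    have hI0' : 0 ≤ I := by positivity
    -- inequality for each `d ≥ 1`
    have hd : ∀ d : ℕ, 1 ≤ d → Λ ≤ (2 * t * (n.factorial * I) - 2 * (n + 1) * t' + 2 * (n + 1) * τ) +
        (((n : ℝ) + 1) * (S0 - Real.log Vρ) + 2 * t * (n.factorial * I)) * (1 / (d : ℝ)) +
        (n + 1) * n * (Real.log ((d : ℝ) + 1) / d) := by
      intro d hd1
      have hdp : (0 : ℝ) < d := by exact_mod_cast hd1
      have hN : (0 : ℝ) < NN n d := by exact_mod_cast NN_pos n d
      have h1 := (hlow d d (by positivity)).2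
      have h2 := hS0 d
      have h3 : (((d : ℝ) + 1) ^ (n + 1) / (n + 1)) ≤ n.factorial * NN n d * ((d : ℝ) + 1) / (n + 1) := by
        rw [pow_succ]
        gcongr
        have := NN_lower n d
        exact_mod_cast this
      have h4 : 2 * t * I * (((d : ℝ) + 1) ^ (n + 1) / (n + 1)) ≤
          2 * t * I * (n.factorial * NN n d * ((d : ℝ) + 1) / (n + 1)) :=
        mul_le_mul_of_nonneg_left h3 (by positivity)
      have h5 : (SS n d : ℝ) = d * NN n d / (n + 1) := by
        have := SS_mul n d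
        have h' : (SS n d : ℝ) * (n + 1) = (d : ℝ) * (NN n d : ℝ) := by exact_mod_cast this
        field_simp
        linarith
      have h6 : Real.log (Vρ / (NN n d : ℝ)) = Real.log Vρ - Real.log (NN n d : ℝ) :=
        Real.log_div hVρ0.ne' hN.ne'
      have h7 : Real.log (NN n d : ℝ) ≤ n * Real.log ((d : ℝ) + 1) := by
        rw [← Real.log_pow]
        apply Real.log_le_log hN
        exact_mod_cast NN_upper n d
      rw [h5, h6] at h1
      -- divide by `N`
      have h8 : (NN n d : ℝ) * (2 * d * t' + (Real.log Vρ - Real.log (NN n d : ℝ)) + d * Λ / (n + 1)) ≤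
          NN n d * (S0 + 2 * τ * d + 2 * t * I * (n.factorial * ((d : ℝ) + 1) / (n + 1))) := by
        have e1 : (NN n d : ℝ) * (2 * d * t' + (Real.log Vρ - Real.log (NN n d : ℝ)) + d * Λ / (n + 1)) =
          2 * d * t' * (NN n d : ℝ) + (NN n d : ℝ) * (Real.log Vρ - Real.log (NN n d : ℝ)) +
            d * NN n d / (n + 1) * Λ := by ring
        have e2 : (NN n d : ℝ) * (S0 + 2 * τ * d + 2 * t * I * (n.factorial * ((d : ℝ) + 1) / (n + 1))) =
          S0 * NN n d + 2 * τ * d * NN n d +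
            2 * t * I * (n.factorial * NN n d * ((d : ℝ) + 1) / (n + 1)) := by ring
        rw [e1, e2]
        linarith
      have h9 := le_of_mul_le_mul_left h8 hN
      have h10 : d * Λ / (n + 1) ≤ S0 + 2 * τ * d + 2 * t * I * (n.factorial * ((d : ℝ) + 1) / (n + 1)) -
          2 * d * t' - Real.log Vρ + n * Real.log ((d : ℝ) + 1) := by linarith
      have h11 : Λ = ((n + 1) / d) * (d * Λ / (n + 1)) := by field_simp
      rw [h11]
      calc ((n + 1) / d) * (d * Λ / (n + 1)) ≤ (((n : ℝ) + 1) / d) * (S0 + 2 * τ * d +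
            2 * t * I * (n.factorial * ((d : ℝ) + 1) / (n + 1)) -
            2 * d * t' - Real.log Vρ + n * Real.log ((d : ℝ) + 1)) := by gcongr
        _ = _ := by
            field_simp
            ring
    -- pass to the limit
    have hlim : Tendsto (fun d : ℕ => (2 * t * (n.factorial * I) - 2 * (n + 1) * t' + 2 * (n + 1) * τ) +
        (((n : ℝ) + 1) * (S0 - Real.log Vρ) + 2 * t * (n.factorial * I)) * (1 / (d : ℝ)) +
        (n + 1) * n * (Real.log ((d : ℝ) + 1) / d)) atTop
        (𝓝 ((2 * t * (n.factorial * I) - 2 * (n + 1) * t' + 2 * (n + 1) * τ) +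
          (((n : ℝ) + 1) * (S0 - Real.log Vρ) + 2 * t * (n.factorial * I)) * 0 + (n + 1) * n * 0)) := by
      have hl1 : Tendsto (fun d : ℕ => 1 / (d : ℝ)) atTop (𝓝 0) := tendsto_one_div_atTop_nhds_zero_nat
      have hl2 : Tendsto (fun d : ℕ => Real.log ((d : ℝ) + 1) / d) atTop (𝓝 0) := by
        have hf : Tendsto (fun x : ℝ => Real.log x / x) atTop (𝓝 0) := by
          have := Real.isLittleO_log_id_atTop.tendsto_div_nhds_zero
          simpa using this
        have h1 : Tendsto (fun d : ℕ => Real.log ((d : ℝ) + 1) / ((d : ℝ) + 1)) atTop (𝓝 0) :=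
          hf.comp (tendsto_atTop_add_const_right _ 1 tendsto_natCast_atTop_atTop)
        have h2 : Tendsto (fun d : ℕ => 1 + 1 / (d : ℝ)) atTop (𝓝 (1 + 0)) := hl1.const_add 1
        have h3 := h1.mul h2
        rw [zero_mul] at h3
        apply h3.congr'
        filter_upwards [eventually_ge_atTop 1] with d hd
        have : (0 : ℝ) < d := by exact_mod_cast hd
        field_simp
      exact (tendsto_const_nhds.add (hl1.const_mul _)).add (hl2.const_mul _)
    rw [mul_zero, mul_zero, add_zero, add_zero] at hlim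
    exact ge_of_tendsto hlim (by filter_upwards [eventually_ge_atTop 1] with d h using hd d h)
  -- let `κ → 0`
  have hlim : Tendsto (fun κ : ℝ => 2 * t * (n.factorial * (I0 + κ * (volume : Measure (Cn n)).real C)) -
      2 * (n + 1) * t' + 2 * (n + 1) * τ) (𝓝[>] 0)
      (𝓝 (2 * t * (n.factorial * (I0 + 0 * (volume : Measure (Cn n)).real C)) -
      2 * (n + 1) * t' + 2 * (n + 1) * τ)) := by
    apply Tendsto.mono_left _ nhdsWithin_le_nhds
    apply Continuous.tendsto (by fun_prop)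
  have hfin := ge_of_tendsto hlim (by
    filter_upwards [self_mem_nhdsWithin] with κ hκ using hmain κ hκ)
  rw [zero_mul, add_zero, hI0] at hfin
  calc Λ ≤ _ := hfin
    _ = _ := by ring

end Pool.Agent.H805R2
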