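import Mathlib
import Pool.Agent.H805R2.PartI

set_option autoImplicit false
set_option maxHeartbeats 1000000

open MeasureTheory Metric Set Filter Topology
open scoped ContDiff ComplexOrder

namespace Pool.Agent.H805R2

variable {n : ℕ}

lemma int_supp {μ : Measure (Cn n)} {Ω : Set (Cn n)} {f : Cn n → ℝ}
    (hf : ∀ z, z ∉ Ω → f z = 0) : ∫ z, f z ∂μ = ∫ z in Ω, f z ∂μ :=
  (setIntegral_eq_integral_of_forall_compl_eq_zero hf).symm

/-- **Part M, one step** -/
lemma mass_step {Ω : Set (Cn n)} (hΩ : IsOpen Ω) (hΩb : Bornology.IsBounded Ω) {u w : Cn n → ℝ}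
    {ν ν' : Measure (Cn n)} (hMAu : IsMongeAmpere Ω u ν) (hMAw : IsMongeAmpere Ω w ν')
    (hu0 : ∀ z ∈ Ω, u z ≤ 0) (hw0 : ∀ z ∈ Ω, w z ≤ 0) (hwu : ∀ z ∈ Ω, w z ≤ u z)
    (hbw : ∀ x ∈ frontier Ω, Tendsto w (𝓝[Ω] x) (𝓝 0))
    (χ0 : Cn n → ℝ) (hχ0c : Continuous χ0) (hχ0cs : HasCompactSupport χ0) (hχ0Ω : tsupport χ0 ⊆ Ω)
    (hχ01 : ∀ z, χ0 z ∈ Icc (0 : ℝ) 1) (α : ℝ) (hα : 0 < α) (huα : ∀ z ∈ tsupport χ0, u z < -α)
    (ε : ℝ) (hε : 0 < ε) (θ : ℝ) (hθ : 0 < θ) (C : Set (Cn n)) (hC : IsCompact C) (hCΩ : C ⊆ Ω)
    (hCθ : ∀ z ∈ Ω, z ∉ C → -θ < u z) (g1 : Cn n → ℝ) (hg1c : Continuous g1)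
    (hg1cs : HasCompactSupport g1) (hg1Ω : tsupport g1 ⊆ Ω) (hg101 : ∀ z, g1 z ∈ Icc (0 : ℝ) 1)
    (hg1 : ∀ z ∈ C, g1 z = 1) (hν' : ν' Ω < ⊤) (e : ℝ) (he : 0 < e) (hee : e * (3 + ε) < ε * α) :
    ∫ z, χ0 z ∂ν ≤ (1 + ε) ^ n *
      ((1 + α⁻¹ * e) * ∫ z, g1 z ∂ν' + (α⁻¹ * θ + e + α⁻¹ * e) * (ν' Ω).toReal) := by
  have hpi := Real.pi_pos
  set A := α⁻¹ with hA
  have hA0 : 0 < A := inv_pos.2 hα
  have hAα : A * α = 1 := inv_mul_cancel₀ hα.ne'
  have h1ε : 0 < 1 + ε := by linarith
  obtain ⟨Cw, hCw, hCwΩ, hCwθ⟩ := bdry_compact hΩ hΩb hbw (e / (4 * (1 + ε))) (by positivity)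
  set C2 : Set (Cn n) := (Cw ∪ C) ∪ (tsupport g1 ∪ tsupport χ0) with hC2def
  have hC2 : IsCompact C2 := (hCw.union hC).union (hg1cs.isCompact.union hχ0cs.isCompact)
  have hC2Ω : C2 ⊆ Ω := union_subset (union_subset hCwΩ hCΩ) (union_subset hg1Ω hχ0Ω)
  have hχC2 : tsupport χ0 ⊆ C2 := subset_union_right.trans subset_union_right
  obtain ⟨U, v, hU, hKU, hUΩ, hvs, hvc, hvp, hvout, hvge, hvlt, hvanti, hvlim, hvconv⟩ :=
    extract hΩ hMAu hu0 hC2 hC2Ω
  obtain ⟨U', w', hU', hKU', hU'Ω, hws, hwc, hwp, hwout, hwge, hwlt, hwanti, hwlim, hwconv⟩ :=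
    extract hΩ hMAw hw0 hC2 hC2Ω
  obtain ⟨χ2, hχ2s, hχ2c, hχ2U, hχ21, hχ201⟩ := cutoff hC2 hU' hKU'
  -- the majorant
  set G : Cn n → ℝ := fun z => (1 + A * e) * g1 z + (A * θ + e + A * e) with hG
  have hGc : Continuous G := by fun_prop
  have hG0 : ∀ z, 0 ≤ G z := by
    intro z
    have := (hg101 z).1
    simp only [hG]
    positivity
  set Gχ : Cn n → ℝ := fun z => G z * χ2 z with hGχ
  have hGχc : Continuous Gχ := hGc.mul hχ2s.continuous
  have hGχcs : HasCompactSupport Gχ := hχ2c.mul_left
  have hGχU : tsupport Gχ ⊆ U' := (tsupport_mul_subset_right).trans hχ2U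
  have hGχ0 : ∀ z, 0 ≤ Gχ z := fun z => mul_nonneg (hG0 z) (hχ201 z).1
  -- indices for `u`
  obtain ⟨k1, hk1⟩ := hvlt (e / 2) (by positivity)
  obtain ⟨k2, hk2⟩ := dini_lt v u (fun _ => -α) hχ0cs.isCompact (fun k => (hvs k).continuous.continuousOn)
    (fun z hz => hvanti z (hKU (hχC2 hz))) (fun z hz => hvlim z (hKU (hχC2 hz))) continuousOn_const huα
  -- estimate for fixed `k`
  have hk : ∀ k ≥ max k1 k2, ∫ z, χ0 z * maDensity (v k) z ≤ (1 + ε) ^ n * ∫ z, Gχ z ∂ν' := by
    intro k hkk
    have hk1' := hk1 k ((le_max_left _ _).trans hkk)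
    have hk2' := hk2 k ((le_max_right _ _).trans hkk)
    obtain ⟨l0, hl0⟩ := dini_lt w' w (fun z => v k z + e) hC2 (fun l => (hws l).continuous.continuousOn)
      (fun z hz => hwanti z (hKU' hz)) (fun z hz => hwlim z (hKU' hz))
      ((hvs k).continuous.add continuous_const).continuousOn
      (fun z hz => by
        have h1 := hwu z (hC2Ω hz)
        have h2 := hvge k z (hC2Ω hz)
        linarith)
    -- estimate for fixed `k`, `l`
    have hl : ∀ l ≥ l0, ∫ z, χ0 z * maDensity (v k) z ≤ (1 + ε) ^ n * ∫ z, Gχ z * maDensity (w' l) z := by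
      intro l hll
      have hlw := hl0 l hll
      set a : Cn n → ℝ := fun z => v k z + (-e) with ha
      set b : Cn n → ℝ := fun z => (1 + ε) * w' l z with hb
      have has : ContDiff ℝ ∞ a := (hvs k).add contDiff_const
      have hbs : ContDiff ℝ ∞ b := contDiff_const.mul (hws l)
      set ψ : Cn n → ℝ := glue e b a with hψ
      have hψs : ContDiff ℝ ∞ ψ := glue_smooth e hbs has
      set av : Cn n → ℝ := fun z => A * v k z with hav
      have havs : ContDiff ℝ ∞ av := contDiff_const.mul (hvs k)
      set gg : Cn n → ℝ := glue e (fun _ => -1) av with hgg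
      have hggs : ContDiff ℝ ∞ gg := glue_smooth e contDiff_const havs
      set h : Cn n → ℝ := fun z => gg z + (-(A * e)) with hh
      have hhs : ContDiff ℝ ∞ h := hggs.add contDiff_const
      have hoff : ∀ z, z ∉ C2 → ψ z = b z := by
        intro z hz
        apply glue_of_le he
        simp only [ha, hb]
        by_cases hzΩ : z ∈ Ω
        · have h1 := hk1' z
          have h2 := hCwθ z hzΩ (fun h' => hz (Or.inl (Or.inl h')))
          have h3 := hwge l z hzΩ
          have h4 : -(e / 4) ≤ (1 + ε) * w' l z := by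
            have h5 : -(e / (4 * (1 + ε))) ≤ w' l z := by linarith
            have h6 := mul_le_mul_of_nonneg_left h5 h1ε.le
            have h7 : (1 + ε) * -(e / (4 * (1 + ε))) = -(e / 4) := by field_simp
            linarith
          linarith
        · rw [hvout k z hzΩ, hwout l z hzΩ]
          linarith
      have hpos : ∀ z, b z ≤ ψ z := fun z => le_glue_left he b a z
      have hpb : ∀ z ∈ C2, (hess b z).PosSemidef := by
        intro z hz
        rw [hb, hess_const_mul _ (hws l)]
        exact (hwp l z (hKU' hz)).smul (by exact_mod_cast h1ε.le)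
      have hpa : ∀ z ∈ C2, (hess a z).PosSemidef := by
        intro z hz
        rw [ha, hess_add_const _ (hvs k)]
        exact hvp k z (hKU hz)
      have hpψ : ∀ z ∈ C2, (hess ψ z).PosSemidef := fun z hz => glue_psd he hbs has z (hpb z hz) (hpa z hz)
      have hph : ∀ z ∈ C2, (hess h z).PosSemidef := by
        intro z hz
        rw [hh, hess_add_const _ hggs]
        apply glue_psd he contDiff_const havs z
        · rw [hess_const_zero]; exact Matrix.PosSemidef.zero
        · rw [hav, hess_const_mul _ (hvs k)]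
          exact (hvp k z (hKU hz)).smul (by exact_mod_cast hA0.le)
      have hcomp := compare_on b ψ h hbs hψs hhs C2 hC2 hoff hpos hpb hpψ hph
      -- bounds for `h`
      have hneg : ∀ z, 0 ≤ -h z := by
        intro z
        have h1 := glue_le he (fun _ => -1) av z
        have h2 : av z ≤ A * e := by
          simp only [hav]
          exact mul_le_mul_of_nonneg_left (by linarith [hk1' z]) hA0.le
        have h3 : max (-1 : ℝ) (av z) ≤ A * e := max_le (by nlinarith [mul_pos hA0 he]) h2
        simp only [hh, hgg]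
        linarith
      have hone : ∀ z ∈ tsupport χ0, 1 ≤ -h z := by
        intro z hz
        have h1 : av z ≤ -1 := by
          simp only [hav]
          have := mul_le_mul_of_nonneg_left (hk2' z hz).le hA0.le
          nlinarith
        have h2 : gg z = -1 := glue_of_le he h1
        simp only [hh, h2]
        nlinarith [mul_pos hA0 he]
      have hhG : ∀ z ∈ C2, -h z ≤ Gχ z := by
        intro z hz
        simp only [hGχ]
        rw [hχ21 z hz, mul_one]
        simp only [hG, hh]
        by_cases hzC : z ∈ C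
        · have h1 : -1 ≤ gg z := le_glue_left he (fun _ => -1) av z
          rw [hg1 z hzC]
          have : 0 < A * θ := mul_pos hA0 hθ
          have : 0 < A * e := mul_pos hA0 he
          linarith
        · have h1 : av z - c0 * e ≤ gg z := le_glue_right he (fun _ => -1) av z
          have h2 := hCθ z (hC2Ω hz) hzC
          have h3 := hvge k z (hC2Ω hz)
          have h4 : -(A * θ) ≤ av z := by
            simp only [hav]
            have := mul_le_mul_of_nonneg_left (by linarith : -θ ≤ v k z) hA0.le
            linarith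
          have h5 : c0 * e ≤ e := by nlinarith [c0_le_one]
          have h6 : 0 ≤ (1 + A * e) * g1 z := by
            have := (hg101 z).1
            positivity
          linarith
      -- left-hand side
      have hlhs : ∫ z, χ0 z * maDensity (v k) z ≤ ∫ z in C2, (-h z) * maDensity ψ z := by
        have e1 : ∫ z, χ0 z * maDensity (v k) z = ∫ z in C2, χ0 z * maDensity (v k) z := by
          apply int_supp
          intro z hz
          rw [image_eq_zero_of_notMem_tsupport (fun h' => hz (hχC2 h')), zero_mul]
        rw [e1]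
        apply setIntegral_mono_on _ _ hC2.measurableSet
        · intro z hz
          have hψ0 : 0 ≤ maDensity ψ z := maDensity_nonneg (hpψ z hz)
          by_cases hzχ : z ∈ tsupport χ0
          · have h1 : b z + e < a z := by
              have h2 := hlw z (hχC2 hzχ)
              have h3 := hk2' z hzχ
              simp only [ha, hb]
              nlinarith
            have h4 : hess ψ z = hess (v k) z := by
              have h5 : ψ =ᶠ[𝓝 z] fun y => v k y + (-e - c0 * e) := by
                have h6 : ∀ᶠ y in 𝓝 z, b y + e < a y :=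
                  (hbs.continuous.add continuous_const).continuousAt.eventually_lt
                    has.continuous.continuousAt h1
                filter_upwards [h6] with y hy
                rw [hψ, glue_of_ge he hy.le]
                simp only [ha]
                ring
              rw [hess_congr h5, hess_add_const _ (hvs k)]
            have h7 : maDensity ψ z = maDensity (v k) z := by
              unfold maDensity
              rw [h4]
            rw [h7] at hψ0 ⊢
            apply mul_le_mul_of_nonneg_right _ hψ0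
            exact (hχ01 z).2.trans (hone z hzχ)
          · rw [image_eq_zero_of_notMem_tsupport hzχ, zero_mul]
            exact mul_nonneg (hneg z) hψ0
        · exact (hχ0c.mul (maDensity_continuous (hvs k))).continuousOn.integrableOn_compact hC2
        · exact (hhs.continuous.neg.mul (maDensity_continuous hψs)).continuousOn.integrableOn_compact hC2
      -- middle
      have hmid : ∫ z in C2, (-h z) * maDensity ψ z ≤ ∫ z in C2, (-h z) * maDensity b z := by
        have e1 : ∀ f : Cn n → ℝ, ∫ z in C2, (-h z) * maDensity f z =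
            ((n.factorial : ℝ) * (2 / Real.pi) ^ n) * ∫ z in C2, (-h z) * (hess f z).det.re := by
          intro f
          rw [← integral_const_mul]
          congr 1
          funext z
          unfold maDensity
          ring
        rw [e1, e1]
        exact mul_le_mul_of_nonneg_left hcomp (by positivity)
      -- right-hand side
      have hrhs : ∫ z in C2, (-h z) * maDensity b z ≤ (1 + ε) ^ n * ∫ z, Gχ z * maDensity (w' l) z := by
        have e1 : ∀ z, maDensity b z = (1 + ε) ^ n * maDensity (w' l) z := by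
          intro z
          unfold maDensity
          rw [hb, hess_const_mul _ (hws l), Matrix.det_smul, Fintype.card_fin, ← Complex.ofReal_pow,
            Complex.re_ofReal_mul]
          ring
        have e2 : ∫ z in C2, (-h z) * maDensity b z =
            (1 + ε) ^ n * ∫ z in C2, (-h z) * maDensity (w' l) z := by
          rw [← integral_const_mul]
          congr 1
          funext z
          rw [e1]
          ring
        rw [e2]
        apply mul_le_mul_of_nonneg_left _ (by positivity)
        exact setInt_le_cut (hws l) hGχc hGχcs hC2 hGχU (hwp l) hGχ0 (fun z => -h z) hhG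
          hhs.continuous.neg hKU'
      exact hlhs.trans (hmid.trans hrhs)
    have hlim := (hwconv Gχ hGχc hGχcs hGχU).const_mul ((1 + ε) ^ n)
    exact ge_of_tendsto hlim (by filter_upwards [eventually_ge_atTop l0] with l h using hl l h)
  -- limit in `k`
  have hlimk := hvconv χ0 hχ0c hχ0cs (hχC2.trans hKU)
  have hmain : ∫ z, χ0 z ∂ν ≤ (1 + ε) ^ n * ∫ z, Gχ z ∂ν' :=
    le_of_tendsto hlimk (by filter_upwards [eventually_ge_atTop (max k1 k2)] with k h using hk k h)
  refine hmain.trans (mul_le_mul_of_nonneg_left ?_ (by positivity))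
  -- bound the integral of the majorant
  have : IsFiniteMeasure (ν'.restrict Ω) := ⟨by rw [Measure.restrict_apply_univ]; exact hν'⟩
  have hGb : ∀ z, ‖G z‖ ≤ (1 + A * e) + (A * θ + e + A * e) := by
    intro z
    rw [Real.norm_eq_abs, abs_of_nonneg (hG0 z)]
    simp only [hG]
    have h1 := (hg101 z).2
    have h2 : 0 ≤ 1 + A * e := by positivity
    nlinarith
  have hGi : Integrable G (ν'.restrict Ω) :=
    Integrable.mono' (integrable_const _) hGc.aestronglyMeasurable (Eventually.of_forall hGb)
  have hg1i : Integrable g1 (ν'.restrict Ω) :=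
    Integrable.mono' (integrable_const 1) hg1c.aestronglyMeasurable (Eventually.of_forall fun z => by
      rw [Real.norm_eq_abs, abs_of_nonneg (hg101 z).1]; exact (hg101 z).2)
  have hGχi : Integrable Gχ (ν'.restrict Ω) :=
    Integrable.mono' hGi.norm hGχc.aestronglyMeasurable (Eventually.of_forall fun z => by
      rw [Real.norm_eq_abs, abs_of_nonneg (hGχ0 z), Real.norm_eq_abs, abs_of_nonneg (hG0 z)]
      exact mul_le_of_le_one_right (hG0 z) (hχ201 z).2)
  calc ∫ z, Gχ z ∂ν' = ∫ z in Ω, Gχ z ∂ν' := int_supp fun z hz =>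
        image_eq_zero_of_notMem_tsupport fun h => hz (hU'Ω (hGχU h))
    _ ≤ ∫ z in Ω, G z ∂ν' := by
        apply integral_mono hGχi hGi
        intro z
        exact mul_le_of_le_one_right (hG0 z) (hχ201 z).2
    _ = (1 + A * e) * ∫ z in Ω, g1 z ∂ν' + (A * θ + e + A * e) * (ν' Ω).toReal := by
        simp only [hG]
        rw [integral_add (hg1i.const_mul _) (integrable_const _), integral_const_mul, integral_const,
          smul_eq_mul, mul_comm (A * θ + e + A * e), measureReal_restrict_apply_univ]
        rfl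
    _ = (1 + A * e) * ∫ z, g1 z ∂ν' + (A * θ + e + A * e) * (ν' Ω).toReal := by
        have e9 : ∫ z, g1 z ∂ν' = ∫ z in Ω, g1 z ∂ν' :=
          int_supp fun z hz => image_eq_zero_of_notMem_tsupport fun h => hz (hg1Ω h)
        rw [e9]

end Pool.Agent.H805R2
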