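import Mathlib
import Pool.Agent.H805R2.PartM

set_option autoImplicit false
set_option maxHeartbeats 1000000

open MeasureTheory Metric Set Filter Topology
open scoped ContDiff ComplexOrder

namespace Pool.Agent.H805R2

variable {n : ℕ}

lemma circle_neg (m δ : ℝ) (hm : 0 < m) :
    Real.circleAverage (fun ζ : ℂ => -(m * max 0 (1 - ‖ζ - 1‖ / δ))) 0 1 < 0 := by
  have hc : Continuous (fun ζ : ℂ => m * max 0 (1 - ‖ζ - 1‖ / δ)) := by fun_prop
  have hpi := Real.pi_pos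
  rw [Real.circleAverage_def, smul_eq_mul, intervalIntegral.integral_neg, mul_neg, neg_lt_zero]
  apply mul_pos (by positivity)
  apply intervalIntegral.integral_pos (by positivity)
  · exact (hc.comp (continuous_circleMap 0 1)).continuousOn
  · intro θ _
    positivity
  · refine ⟨0, ⟨le_rfl, by positivity⟩, ?_⟩
    simp [hm, circleMap]

/-- the strong maximum principle for plurisubharmonic functions `≤ 0` -/
lemma strong_max {Ω : Set (Cn n)} (hΩ : IsOpen Ω) (hconn : IsPreconnected Ω) {u : Cn n → ℝ}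
    (hu : PSH Ω (fun z => ((u z : ℝ) : EReal))) (hu0 : ∀ z ∈ Ω, u z ≤ 0) :
    (∀ z ∈ Ω, u z = 0) ∨ ∀ z ∈ Ω, u z < 0 := by
  set S : Set (Cn n) := {z | z ∈ Ω ∧ u z = 0} with hS
  set T : Set (Cn n) := {z | z ∈ Ω ∧ u z < 0} with hT
  have husc : ∀ z ∈ Ω, ∀ a : ℝ, u z < a → ∀ᶠ y in 𝓝 z, u y < a := by
    intro z hz a ha
    have h1 := hu.1 z hz ((a : ℝ) : EReal)
      (by change ((u z : ℝ) : EReal) < ((a : ℝ) : EReal); exact_mod_cast ha)
    rw [hΩ.nhdsWithin_eq hz] at h1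
    filter_upwards [h1] with y hy
    exact_mod_cast hy
  have hTo : IsOpen T := by
    rw [isOpen_iff_mem_nhds]
    intro z hz
    filter_upwards [husc z hz.1 0 hz.2, hΩ.mem_nhds hz.1] with y hy hyΩ
    exact ⟨hyΩ, hy⟩
  have hSo : IsOpen S := by
    rw [Metric.isOpen_iff]
    intro a ha
    obtain ⟨r, hr, hball⟩ := Metric.isOpen_iff.1 hΩ a ha.1
    refine ⟨r, hr, fun y hy => ?_⟩
    refine ⟨hball hy, ?_⟩
    by_contra hne
    have hy0 : u y < 0 := lt_of_le_of_ne (hu0 y (hball hy)) hne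
    set m : ℝ := -u y / 2 with hm
    have hm0 : 0 < m := by rw [hm]; linarith
    have hN := husc y (hball hy) (-m) (by rw [hm]; linarith)
    set b : Cn n := y - a with hb
    have hbr : ‖b‖ < r := by rwa [hb, ← dist_eq_norm]
    have hdisc : ∀ ζ : ℂ, ‖ζ‖ ≤ 1 → a + ζ • b ∈ Ω := by
      intro ζ hζ
      apply hball
      rw [mem_ball, dist_eq_norm, add_sub_cancel_left, norm_smul]
      calc ‖ζ‖ * ‖b‖ ≤ 1 * ‖b‖ := mul_le_mul_of_nonneg_right hζ (norm_nonneg _)
        _ < r := by rw [one_mul]; exact hbr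
    have hcont : ContinuousAt (fun ζ : ℂ => a + ζ • b) 1 := by fun_prop
    have hy1 : a + (1 : ℂ) • b = y := by rw [one_smul, hb]; abel
    have hN' : ∀ᶠ ζ : ℂ in 𝓝 1, u (a + ζ • b) < -m := by
      have h2 : Tendsto (fun ζ : ℂ => a + ζ • b) (𝓝 1) (𝓝 y) := by
        have := hcont.tendsto
        rwa [hy1] at this
      exact h2.eventually hN
    obtain ⟨δ, hδ, hδ'⟩ := Metric.eventually_nhds_iff.1 hN'
    have h3 := hu.2.2 a b hdisc (fun ζ : ℂ => -(m * max 0 (1 - ‖ζ - 1‖ / δ))) (by fun_prop)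
      (by
        intro ζ hζ
        have hζΩ := hdisc ζ hζ.le
        have : u (a + ζ • b) ≤ -(m * max 0 (1 - ‖ζ - 1‖ / δ)) := by
          by_cases h : ‖ζ - 1‖ < δ
          · have h4 := hδ' (by rwa [dist_eq_norm] : dist ζ 1 < δ)
            have h5 : max 0 (1 - ‖ζ - 1‖ / δ) ≤ 1 := by
              apply max_le zero_le_one
              have : 0 ≤ ‖ζ - 1‖ / δ := by positivity
              linarith
            nlinarith
          · have h5 : max 0 (1 - ‖ζ - 1‖ / δ) = 0 := by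
              apply max_eq_left
              have : 1 ≤ ‖ζ - 1‖ / δ := by
                rw [le_div_iff₀ hδ]
                linarith [not_lt.1 h]
              linarith
            rw [h5, mul_zero, neg_zero]
            exact hu0 _ hζΩ
        change ((u (a + ζ • b) : ℝ) : EReal) ≤ _
        exact_mod_cast this)
    have h6 := circle_neg m δ hm0
    have h7 : u a ≤ Real.circleAverage (fun ζ : ℂ => -(m * max 0 (1 - ‖ζ - 1‖ / δ))) 0 1 := by
      have h3' : ((u a : ℝ) : EReal) ≤ _ := h3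
      exact_mod_cast h3'
    rw [ha.2] at h7
    linarith
  by_contra hcon
  push Not at hcon
  obtain ⟨⟨z1, hz1, hz1'⟩, ⟨z2, hz2, hz2'⟩⟩ := hcon
  have h1 := hconn S T hSo hTo
    (fun z hz => by
      rcases (hu0 z hz).lt_or_eq with h | h
      · exact Or.inr ⟨hz, h⟩
      · exact Or.inl ⟨hz, h⟩)
    ⟨z2, hz2, hz2, le_antisymm (hu0 z2 hz2) hz2'⟩
    ⟨z1, hz1, hz1, lt_of_le_of_ne (hu0 z1 hz1) hz1'⟩
  obtain ⟨z, _, hzS, hzT⟩ := h1
  linarith [hzS.2, hzT.2]

/-- **No mass is lost.** -/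
lemma mass_bound {Ω : Set (Cn n)} (hΩ : IsOpen Ω) (hΩb : Bornology.IsBounded Ω)
    {u : ℕ → Cn n → ℝ} {ν : ℕ → Measure (Cn n)} {μ : Measure (Cn n)} (hE : ∀ j, IsE0 Ω (u j) (ν j))
    (hanti : ∀ z ∈ Ω, Antitone fun j => u j z) (M : ℝ) (hM : ∀ j, ν j Ω ≤ ENNReal.ofReal M)
    (hμ : μ Ω < ⊤)
    (hconv : ∀ χ : Cn n → ℝ, Continuous χ → HasCompactSupport χ → tsupport χ ⊆ Ω →
      Tendsto (fun j => ∫ z, χ z ∂(ν j)) atTop (𝓝 (∫ z, χ z ∂μ)))
    (j0 : ℕ) (hneg : ∀ z ∈ Ω, u j0 z < 0)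
    (χ0 : Cn n → ℝ) (hχ0c : Continuous χ0) (hχ0cs : HasCompactSupport χ0) (hχ0Ω : tsupport χ0 ⊆ Ω)
    (hχ01 : ∀ z, χ0 z ∈ Icc (0 : ℝ) 1) : ∫ z, χ0 z ∂(ν j0) ≤ (μ Ω).toReal := by
  set M' := max M 0 with hM'
  have hM'0 : 0 ≤ M' := le_max_right _ _
  have hνM : ∀ j, (ν j Ω).toReal ≤ M' := by
    intro j
    have h1 := ENNReal.toReal_mono ENNReal.ofReal_ne_top (hM j)
    rcases le_total 0 M with h | h
    · rw [ENNReal.toReal_ofReal h] at h1
      exact h1.trans (le_max_left _ _)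
    · rw [ENNReal.ofReal_of_nonpos h, ENNReal.toReal_zero] at h1
      exact h1.trans hM'0
  -- the constant `α`
  obtain ⟨α, hα, huα⟩ : ∃ α > 0, ∀ z ∈ tsupport χ0, u j0 z < -α := by
    obtain ⟨U, v, hU, hKU, hUΩ, hvs, -, -, -, hvge, -, hvanti, hvlim, -⟩ :=
      extract hΩ (hE j0).2.2.2.2.1 (hE j0).2.2.1 hχ0cs.isCompact hχ0Ω
    obtain ⟨k, hk⟩ := dini_lt v (u j0) (fun _ => 0) hχ0cs.isCompact
      (fun k => (hvs k).continuous.continuousOn) (fun z hz => hvanti z (hKU hz))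
      (fun z hz => hvlim z (hKU hz)) continuousOn_const (fun z hz => hneg z (hχ0Ω hz))
    rcases (tsupport χ0).eq_empty_or_nonempty with he | hne
    · exact ⟨1, one_pos, fun z hz => by rw [he] at hz; exact absurd hz (notMem_empty z)⟩
    · obtain ⟨x, hx, hmax⟩ := hχ0cs.isCompact.exists_isMaxOn hne (hvs k).continuous.continuousOn
      have hx0 := hk k le_rfl x hx
      refine ⟨-v k x / 2, by linarith, fun z hz => ?_⟩
      have h1 : v k z ≤ v k x := hmax hz
      have h2 := hvge k z (hχ0Ω hz)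
      linarith
  -- estimate with `ε`, `θ`
  have key : ∀ ε > 0, ∀ θ > 0, ∫ z, χ0 z ∂(ν j0) ≤ (1 + ε) ^ n * ((μ Ω).toReal + α⁻¹ * θ * M') := by
    intro ε hε θ hθ
    obtain ⟨C, hC, hCΩ, hCθ⟩ := bdry_compact hΩ hΩb (hE j0).2.2.2.1 θ hθ
    obtain ⟨g1, hg1s, hg1cs, hg1Ω, hg1C, hg101⟩ := cutoff hC hΩ hCΩ
    have hj : ∀ j ≥ j0, ∫ z, χ0 z ∂(ν j0) ≤ (1 + ε) ^ n * (∫ z, g1 z ∂(ν j) + α⁻¹ * θ * M') := by
      intro j hj
      have he : ∀ᶠ e : ℝ in 𝓝[>] 0, ∫ z, χ0 z ∂(ν j0) ≤ (1 + ε) ^ n *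
          ((1 + α⁻¹ * e) * ∫ z, g1 z ∂(ν j) + (α⁻¹ * θ + e + α⁻¹ * e) * (ν j Ω).toReal) := by
        have h1 : ∀ᶠ e : ℝ in 𝓝[>] 0, e < ε * α / (3 + ε) :=
          nhdsWithin_le_nhds (gt_mem_nhds (by positivity))
        filter_upwards [self_mem_nhdsWithin, h1] with e he he2
        have he' : 0 < e := he
        exact mass_step hΩ hΩb (hE j0).2.2.2.2.1 (hE j).2.2.2.2.1 (hE j0).2.2.1 (hE j).2.2.1
          (fun z hz => hanti z hz hj) (hE j).2.2.2.1 χ0 hχ0c hχ0cs hχ0Ω hχ01 α hα huα ε hε θ hθ C hC hCΩ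
          hCθ g1 hg1s.continuous hg1cs hg1Ω hg101 hg1C (hE j).2.2.2.2.2 e he' (by
            rwa [lt_div_iff₀ (by positivity)] at he2)
      have hlim : Tendsto (fun e : ℝ => (1 + ε) ^ n *
          ((1 + α⁻¹ * e) * ∫ z, g1 z ∂(ν j) + (α⁻¹ * θ + e + α⁻¹ * e) * (ν j Ω).toReal)) (𝓝[>] 0)
          (𝓝 ((1 + ε) ^ n *
          ((1 + α⁻¹ * 0) * ∫ z, g1 z ∂(ν j) + (α⁻¹ * θ + 0 + α⁻¹ * 0) * (ν j Ω).toReal))) := by
        apply Tendsto.mono_left _ nhdsWithin_le_nhds
        apply Continuous.tendsto (by fun_prop)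
      have h2 := ge_of_tendsto hlim he
      refine h2.trans (mul_le_mul_of_nonneg_left ?_ (by positivity))
      rw [mul_zero, add_zero, add_zero, one_mul, add_zero]
      have h3 := mul_le_mul_of_nonneg_left (hνM j) (by positivity : 0 ≤ α⁻¹ * θ)
      linarith
    have hlim := ((hconv g1 hg1s.continuous hg1cs hg1Ω).add_const (α⁻¹ * θ * M')).const_mul ((1 + ε) ^ n)
    have h1 := ge_of_tendsto hlim (by filter_upwards [eventually_ge_atTop j0] with j h using hj j h)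
    refine h1.trans (mul_le_mul_of_nonneg_left ?_ (by positivity))
    have h2 : ∫ z, g1 z ∂μ ≤ (μ Ω).toReal := by
      have : IsFiniteMeasure (μ.restrict Ω) := ⟨by rw [Measure.restrict_apply_univ]; exact hμ⟩
      rw [int_supp (Ω := Ω) (f := g1) fun z hz => image_eq_zero_of_notMem_tsupport fun h => hz (hg1Ω h)]
      have h3 : ∫ z in Ω, g1 z ∂μ ≤ ∫ z in Ω, (1 : ℝ) ∂μ := by
        apply integral_mono _ (integrable_const _)
        · exact fun z => (hg101 z).2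
        · exact Integrable.mono' (integrable_const 1) hg1s.continuous.aestronglyMeasurable
            (Eventually.of_forall fun z => by
              rw [Real.norm_eq_abs, abs_of_nonneg (hg101 z).1]; exact (hg101 z).2)
      refine h3.trans (le_of_eq ?_)
      rw [integral_const, smul_eq_mul, mul_one, measureReal_restrict_apply_univ]
      rfl
    linarith
  -- let `θ → 0`, then `ε → 0`
  have hlim : Tendsto (fun e : ℝ => (1 + e) ^ n * ((μ Ω).toReal + α⁻¹ * e * M')) (𝓝[>] 0)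
      (𝓝 ((1 + 0) ^ n * ((μ Ω).toReal + α⁻¹ * 0 * M'))) := by
    apply Tendsto.mono_left _ nhdsWithin_le_nhds
    apply Continuous.tendsto (by fun_prop)
  have h1 := ge_of_tendsto hlim (by
    filter_upwards [self_mem_nhdsWithin] with e he using key e he e he)
  simpa using h1

/-- **Main theorem** -/
theorem main_theorem (n : ℕ) (hn : 1 ≤ n) : ∃ c : ℝ, 0 < c ∧
    ∀ Ω : Set (Cn n), IsOpen Ω → IsConnected Ω → Bornology.IsBounded Ω →
    ∀ (φ : Cn n → EReal) (μ : Measure (Cn n)), IsCegrellF Ω φ μ →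
    ∀ lam : ℝ, 0 < lam → μ Ω = ENNReal.ofReal (lam ^ n) → ∀ s : ℝ, 0 < s →
    volume {z | z ∈ Ω ∧ φ z < ((-s : ℝ) : EReal)} ≤
      ENNReal.ofReal (c * Metric.diam Ω ^ (2 * n) * Real.exp (-(2 * n * s / lam))) := by
  obtain ⟨c, hc, H⟩ := partI n
  refine ⟨c⁻¹, inv_pos.2 hc, ?_⟩
  intro Ω hΩ hconn hΩb φ μ hF lam hlam hμ s hs
  obtain ⟨hφ, hμfin, u, ν, hE, hanti, hlim, ⟨M, hM⟩, hconv⟩ := hF
  obtain ⟨z0, hz0⟩ := hconn.nonempty
  set δ := Metric.diam Ω with hδ
  have hcoord : ∀ z ∈ Ω, ∀ j, ‖z j - z0 j‖ ≤ δ := by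
    intro z hz j
    have h1 : ‖(z - z0) j‖ ≤ ‖z - z0‖ := PiLp.norm_apply_le (z - z0) j
    rw [PiLp.sub_apply] at h1
    refine h1.trans ?_
    rw [← dist_eq_norm]
    exact Metric.dist_le_diam_of_mem hΩb hz hz0
  have hδ0 : 0 < δ := by
    obtain ⟨r, hr, hball⟩ := Metric.isOpen_iff.1 hΩ z0 hz0
    set e : Cn n := EuclideanSpace.single (⟨0, hn⟩ : Fin n) ((r / 2 : ℝ) : ℂ) with he
    have hen : ‖e‖ = r / 2 := by
      rw [he, PiLp.norm_single, Complex.norm_real, Real.norm_eq_abs, abs_of_pos (by positivity)]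
    have hz1 : z0 + e ∈ Ω := by
      apply hball
      rw [mem_ball, dist_eq_norm, add_sub_cancel_left, hen]
      linarith
    have h1 := Metric.dist_le_diam_of_mem hΩb hz1 hz0
    rw [dist_eq_norm, add_sub_cancel_left, hen] at h1
    linarith
  -- bound for each `u j`
  have hj : ∀ j, volume {z | z ∈ Ω ∧ u j z < -s} ≤
      ENNReal.ofReal (c⁻¹ * δ ^ (2 * n) * Real.exp (-(2 * n * s / lam))) := by
    intro j
    rcases strong_max hΩ hconn.isPreconnected (hE j).1 (hE j).2.2.1 with h0 | hneg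
    · have : {z | z ∈ Ω ∧ u j z < -s} = ∅ := by
        rw [eq_empty_iff_forall_notMem]
        rintro z ⟨hz, hz'⟩
        rw [h0 z hz] at hz'
        linarith
      rw [this, measure_empty]
      exact zero_le
    · have hO : IsOpen {z | z ∈ Ω ∧ u j z < -s} := by
        rw [isOpen_iff_mem_nhds]
        intro z hz
        have h1 := (hE j).1.1 z hz.1 ((-s : ℝ) : EReal)
          (by change ((u j z : ℝ) : EReal) < ((-s : ℝ) : EReal); exact_mod_cast hz.2)
        rw [hΩ.nhdsWithin_eq hz.1] at h1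
        filter_upwards [h1, hΩ.mem_nhds hz.1] with y hy hyΩ
        exact ⟨hyΩ, by exact_mod_cast hy⟩
      rw [hO.measure_eq_iSup_isCompact]
      apply iSup_le; intro K0
      apply iSup_le; intro hK0sub
      apply iSup_le; intro hK0
      rcases eq_or_ne (volume K0) 0 with hv | hv
      · rw [hv]; exact zero_le
      · have hfin : volume K0 ≠ ⊤ := hK0.measure_lt_top.ne
        set v0 := (volume K0).toReal with hv0
        have hv0pos : 0 < v0 := ENNReal.toReal_pos hv hfin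
        have hvol : volume K0 = ENNReal.ofReal v0 := (ENNReal.ofReal_toReal hfin).symm
        have h1 := H Ω hΩ hΩb δ hδ0 z0 hcoord (u j) (ν j) (hE j).2.2.2.2.1 (hE j).1.1 (hE j).2.2.1
          (hE j).2.2.2.1 lam hlam (by
            intro χ hχc hχcs hχΩ hχ01
            have h2 := mass_bound hΩ hΩb hE hanti M hM hμfin hconv j hneg χ hχc hχcs hχΩ hχ01
            rw [hμ, ENNReal.toReal_ofReal (by positivity)] at h2
            exact h2) s hs K0 hK0 (fun z hz => (hK0sub hz).1) (fun z hz => (hK0sub hz).2) v0 hv0pos hvol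
        rw [hvol]
        apply ENNReal.ofReal_le_ofReal
        have h2 : c * v0 / δ ^ (2 * n) ≤ Real.exp (-(2 * n * s / lam)) :=
          (Real.log_le_iff_le_exp (by positivity)).1 h1
        rw [div_le_iff₀ (by positivity)] at h2
        calc v0 = c⁻¹ * (c * v0) := by field_simp
          _ ≤ c⁻¹ * (Real.exp (-(2 * n * s / lam)) * δ ^ (2 * n)) := by gcongr
          _ = _ := by ring
  -- pass to `φ`
  have hsub : {z | z ∈ Ω ∧ φ z < ((-s : ℝ) : EReal)} ⊆ ⋃ j, {z | z ∈ Ω ∧ u j z < -s} := by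
    rintro z ⟨hz, hz'⟩
    obtain ⟨j, hj'⟩ := ((hlim z hz).eventually (gt_mem_nhds hz')).exists
    exact mem_iUnion.2 ⟨j, hz, by exact_mod_cast hj'⟩
  refine (measure_mono hsub).trans ?_
  have hmono : Monotone fun j => {z | z ∈ Ω ∧ u j z < -s} := by
    rintro i j hij z ⟨hz, hz'⟩
    exact ⟨hz, lt_of_le_of_lt (hanti z hz hij) hz'⟩
  rw [hmono.measure_iUnion]
  exact iSup_le hj

end Pool.Agent.H805R2
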